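import Pool.Agent.Lib.MP_7836d5_lc.Avg.Par

set_option autoImplicit false
set_option linter.unusedSectionVars false

namespace Pool.Agent.Lib.MP_7836d5_lc.Avg

open Finset

variable {ι τ V : Type*} [Fintype ι] [DecidableEq ι] [Fintype τ] [DecidableEq τ]
  [Fintype V] [DecidableEq V] {G : SimpleGraph V} [DecidableRel G.Adj] {pt : ι → τ}

/-- The loss of spreadness in one step. -/
noncomputable def Par.c (A : Par G pt) : ℝ := A.p ^ A.dm / (4 * A.σ * (A.z + 1))

/-- The current spreadness of party `t`. -/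
noncomputable def Par.lt (A : Par G pt) (T : Finset τ) (t : τ) : ℝ :=
  (if t ∈ T then A.l2 else A.l1) / (2 * Fintype.card ι) * A.c ^ T.card

lemma Par.c_pos (A : Par G pt) : 0 < A.c := by
  have := A.O.hp
  have := A.hσ
  unfold Par.c
  positivity

lemma Par.c_le (A : Par G pt) : A.c ≤ 1 := by
  have h1 := A.hσ
  have h2 : A.p ^ A.dm ≤ 1 := pow_le_one₀ A.O.hp.le A.O.hp1
  unfold Par.c
  have h3 : (0 : ℝ) ≤ A.z := Nat.cast_nonneg _
  rw [div_le_one (by positivity)]
  nlinarith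

lemma Par.k_pos (A : Par G pt) : (0 : ℝ) < Fintype.card ι := by
  exact_mod_cast Fintype.card_pos_iff.2 ⟨A.i0⟩

lemma Par.lX_pos (A : Par G pt) : 0 < A.lX := by linarith [A.hlam, A.E.hl]

lemma Par.lt_ge (A : Par G pt) (T : Finset τ) (t : τ) : A.lX * (2 * (A.dm + 1)) ≤ A.lt T t := by
  refine A.hlX.trans ?_
  have h1 := A.k_pos
  have h2 := A.hl1
  have h3 := A.hl12
  have h4 := A.c_pos
  have h5 : A.l1 ≤ if t ∈ T then A.l2 else A.l1 := by split_ifs <;> linarith
  have h6 : A.c ^ Fintype.card τ ≤ A.c ^ T.card :=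
    pow_le_pow_of_le_one h4.le A.c_le (card_le_univ T)
  change _ * A.c ^ _ ≤ _
  unfold Par.lt
  exact mul_le_mul (div_le_div_of_nonneg_right h5 (by positivity)) h6 (by positivity)
    (div_nonneg (by linarith) (by positivity))

lemma Par.lt_ge' (A : Par G pt) (T : Finset τ) (t : τ) : A.lX ≤ A.lt T t := by
  refine le_trans ?_ (A.lt_ge T t)
  have := A.lX_pos
  have h : (0 : ℝ) ≤ A.dm := Nat.cast_nonneg _
  nlinarith

/-- The state after the parties in `T` were processed. -/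
structure St (A : Par G pt) (R : Finset (Finset (ι × V) × Finset (ι × V)))
    (P : τ → Finset (Finset (ι × V))) (T : Finset τ)
    (v : Finset (ι × V)) (Y : τ → Finset (Finset (ι × V))) : Prop where
  card : v.card ≤ A.w + T.card * A.dm
  subP : ∀ t, Y t ⊆ P t
  sub : ∀ t, Y t ⊆ Om G (Kt pt t) v
  ok : ∀ t, ∀ y ∈ Y t, ¬ Bad R A.om v y
  ne : ∀ t, (Y t).Nonempty
  spr : ∀ t, SprL (Y t) (fun y => vs (y \ v)) (A.lt T t) (Y t).card
  big : ∀ t, t ∉ T → A.θ * A.exu t v ≤ 2 * 4 ^ T.card * (Y t).card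

variable {A : Par G pt} {R : Finset (Finset (ι × V) × Finset (ι × V))}
  {P Y : τ → Finset (Finset (ι × V))} {T : Finset τ} {v : Finset (ι × V)}

lemma St.cardW (S : St A R P T v Y) : v.card ≤ A.W :=
  S.card.trans (le_trans (Nat.add_le_add_left (Nat.mul_le_mul_right _ (card_le_univ T)) _) A.hW)

lemma St.pick (S : St A R P T v Y) {t : τ} (ht : t ∉ T)
    (Q : Peel (Y t) (fun y => y \ v) (fun _ => 0) A.l2) :
    ∃ d ≤ A.dm, ∃ X ⊆ Y t, X.Nonempty ∧ (∀ x ∈ X, (Q.b x).card = d) ∧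
      SprL X (fun x => vs (Q.b x)) A.lX X.card := by
  have hn : 0 < (Y t).card := (S.ne t).card_pos
  set Z := (Y t).filter fun y => ¬ Q.Res y ≤ (Y t).card / 2 with hZ
  have h1 : (Y t).card ≤ 2 * Z.card := by
    have h2 := card_filter_add_card_filter_not (s := Y t) (fun y => Q.Res y ≤ (Y t).card / 2)
    have h3 := Q.few ((Y t).card / 2)
    rw [← hZ] at h2
    omega
  have h4 : ∀ y ∈ Z, (Q.b y).card ≤ A.dm := by
    intro y hy
    obtain ⟨hy1, hy2⟩ := mem_filter.1 hy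
    refine A.size_bound (S.sub t hy1) (Q.fix y hy1 y (Q.mem y hy1)) S.cardW (S := Q.Pt y)
      (fun y' hy' => Om_union (S.sub t (Q.sub y hy1 hy'))
        ((Q.fix y hy1 y' hy').trans sdiff_subset)) (by linarith [A.hl1, A.hl12]) le_rfl ?_
    have h5 : ((Y t).card : ℝ) < 2 * Q.Res y := by
      exact_mod_cast (by omega : (Y t).card < 2 * Q.Res y)
    have h6 := Q.res y hy1
    have h7 : (4 : ℝ) ^ T.card ≤ 4 ^ Fintype.card τ :=
      pow_le_pow_right₀ (by norm_num) (card_le_univ T)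
    calc _ ≤ 2 * 4 ^ T.card * ((Y t).card : ℝ) := S.big t ht
      _ ≤ 2 * 4 ^ Fintype.card τ * ((Y t).card : ℝ) := by gcongr
      _ < 2 * 4 ^ Fintype.card τ * (2 * Q.Res y : ℝ) := by gcongr
      _ ≤ 2 * 4 ^ Fintype.card τ * (2 * (2 * (Q.Pt y).card * A.l2 ^ (Q.b y).card)) := by gcongr
      _ = _ := by ring
  obtain ⟨d, hd, h8⟩ := pigeon Z (fun y => (Q.b y).card) A.dm h4
  set X := Z.filter fun y => (Q.b y).card = d with hX
  have hXY : X ⊆ Y t := (filter_subset _ _).trans (filter_subset _ _)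
  have h9 : (Y t).card ≤ 2 * (A.dm + 1) * X.card := by
    calc _ ≤ 2 * Z.card := h1
      _ ≤ 2 * ((A.dm + 1) * X.card) := Nat.mul_le_mul_left _ h8
      _ = _ := by ring
  refine ⟨d, hd, X, hXY, card_pos.1 (Nat.pos_of_ne_zero fun h => by rw [h] at h9; omega),
    fun x hx => (mem_filter.1 hx).2, fun B => ?_⟩
  rcases B.eq_empty_or_nonempty with rfl | hB
  · simp
  have h10 := ((S.spr t).mono (by have := A.lX_pos; positivity) (A.lt_ge T t)) B
  have h11 : ((X.filter fun x => B ⊆ vs (Q.b x)).card : ℝ) ≤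
      ((Y t).filter fun y => B ⊆ vs (y \ v)).card := by
    refine Nat.cast_le.2 (card_le_card fun x hx => ?_)
    have h12 := hXY (mem_filter.1 hx).1
    exact mem_filter.2 ⟨h12, (mem_filter.1 hx).2.trans
      (image_subset_image (Q.fix x h12 x (Q.mem x h12)))⟩
  have h13 : ((Y t).card : ℝ) ≤ 2 * (A.dm + 1) * X.card := by exact_mod_cast h9
  have h14 : (2 * (A.dm + 1) : ℝ) ≤ (2 * (A.dm + 1)) ^ B.card :=
    le_self_pow₀ (by have : (0 : ℝ) ≤ A.dm := Nat.cast_nonneg _; linarith) hB.card_pos.ne'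
  have h15 := A.lX_pos
  refine le_of_mul_le_mul_right ?_ (by positivity : (0 : ℝ) < 2 * (A.dm + 1))
  calc _ ≤ (((Y t).filter fun y => B ⊆ vs (y \ v)).card : ℝ) * A.lX ^ B.card *
        (2 * (A.dm + 1)) ^ B.card := by gcongr
    _ = (((Y t).filter fun y => B ⊆ vs (y \ v)).card : ℝ) * (A.lX * (2 * (A.dm + 1))) ^ B.card := by
        rw [mul_pow A.lX, mul_assoc]
    _ ≤ _ := by linarith

/-- Vertex sets of forbidden additions. -/
def FbV (A : Par G pt) (R : Finset (Finset (ι × V) × Finset (ι × V))) (v y : Finset (ι × V))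
    (B : Finset V) : Prop := ∃ b, vs b = B ∧ b.card = B.card ∧ Forb R A.om v y b

noncomputable instance (A : Par G pt) (R : Finset (Finset (ι × V) × Finset (ι × V)))
    (v y : Finset (ι × V)) : DecidablePred (FbV A R v y) := fun _ => Classical.dec _

lemma St.other (S : St A R P T v Y) (hR : ∀ e ∈ R, e.1.card ≤ A.W) (s : τ) {d : ℕ} (hd : d ≤ A.κ)
    (X : Finset (Finset (ι × V))) (hX0 : X.Nonempty) (f : Finset (ι × V) → Finset V)
    (hf : ∀ x ∈ X, (f x).card = d) (hX : SprL X f A.lX X.card) :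
    ((X.filter fun x => ¬ Good G (Y s) (fun y => vs (y \ v)) (FbV A R v)
      (A.p ^ (d * fr (Kt pt s) v) * (Y s).card) (A.lt T s * A.p ^ d / (4 * A.σ * (A.z + 1)))
      (f x)).card : ℝ) ≤
      (2 * A.η + 4 * (2 * ((A.z + 1) * 2 / A.σ) +
        A.z * 4 ^ A.W * A.σ * ((A.z + 1) / (A.w0 * A.lX)))) * X.card := by
  have hp := A.O.hp
  have hq1 : 1 ≤ A.p⁻¹ := (one_le_inv₀ hp).2 A.O.hp1
  have hl : fr (Kt pt s) v ≤ A.κ := (fr_le _ _).trans (A.hK s)
  have hz := A.hz
  have hlX := A.lX_pos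
  have hw0 := A.hw0
  have hσ := A.hσ
  have h1 : (A.om (Kt pt s).card)⁻¹ * ((A.z + 1) * (A.p⁻¹) ^ fr (Kt pt s) v) / A.lX ≤
      (A.z + 1) / (A.w0 * A.lX) := by
    have h2 : (A.p⁻¹) ^ fr (Kt pt s) v ≤ (A.p⁻¹) ^ (Kt pt s).card :=
      pow_le_pow_right₀ hq1 (fr_le _ _)
    calc _ ≤ (A.om (Kt pt s).card)⁻¹ * ((A.z + 1) * (A.p⁻¹) ^ (Kt pt s).card) / A.lX := by
          have := A.om_pos (Kt pt s).card
          gcongr
      _ = _ := by unfold Par.om; field_simp
  have h3 := select A.E A.v0 (d := d) (l := fr (Kt pt s) v) (by omega) (by omega) X f hf hX0 (Y s)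
    (fun y => vs (y \ v)) (fun y hy => by
      rw [((Om_cl (S.sub s hy)).mono sdiff_subset).card_vs, Om_sdiff (S.sub s hy)]) (S.ne s) hX
    (S.spr s) A.hlam (A.hlam.trans (A.lt_ge' T s))
    ((mul_le_mul_of_nonneg_left (pow_le_pow_right₀ hq1 hl) (by positivity)).trans A.hq)
    ((mul_le_mul_of_nonneg_left (pow_le_pow_right₀ hq1 hd) (by positivity)).trans
      (A.hq.trans (A.lt_ge' T s))) A.hσ
    (K := 4 ^ A.W) (Ξ := (A.om (Kt pt s).card)⁻¹) (by positivity) (inv_pos.2 (A.om_pos _)).le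
    (FbV A R v) (by
      rintro y hy ⟨b, _, h4, h5⟩
      rw [card_empty, card_eq_zero] at h4
      exact S.ok s y hy (h4 ▸ h5).bad) (by
      intro y hy j
      have h6 := forb_card A.om_pos hR S.cardW (S.ok s y hy) j
      rw [Om_card (S.sub s hy)] at h6
      refine le_trans (Nat.cast_le.2 (le_trans (card_le_card ?_) (card_image_le (f := vs)))) h6
      intro B hB
      obtain ⟨_, h7, b, h8, h9, h10⟩ := mem_filter.1 hB
      exact mem_image.2 ⟨b, mem_filter.2 ⟨mem_univ _, h9.trans h7, h10⟩, h8⟩)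
    (h1.trans ((div_le_one (by positivity)).2 A.hw0X))
  refine h3.trans ?_
  gcongr

lemma St.step (S : St A R P T v Y) (hR : ∀ e ∈ R, e.1.card ≤ A.W) {t : τ} (ht : t ∉ T) :
    ∃ v' Y', St A R P (insert t T) v' Y' := by
  have hl2 : 1 ≤ A.l2 := A.hl1.trans A.hl12
  obtain ⟨Q⟩ := peel (fun y => y \ v) (fun _ => 0) A.l2 hl2 (Y t)
  obtain ⟨d, hd, X, hXY, hX0, hXd, hX⟩ := S.pick ht Q
  have hb : ∀ x ∈ X, Q.b x ⊆ x \ v := fun x hx => Q.fix x (hXY hx) x (Q.mem x (hXY hx))
  have hcl : ∀ x ∈ X, IsCl G (Q.b x) := fun x hx =>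
    (Om_cl (S.sub t (hXY hx))).mono ((hb x hx).trans sdiff_subset)
  have hdκ : d ≤ A.κ := by
    obtain ⟨x, hx⟩ := hX0
    rw [← hXd x hx]
    refine (card_le_card ((hb x hx).trans sdiff_subset)).trans ?_
    rw [Om_card (S.sub t (hXY hx))]
    exact A.hK t
  obtain ⟨x, hx, hgood⟩ := exists_good X hX0 (fun s x => ¬ Good G (Y s) (fun y => vs (y \ v))
    (FbV A R v) (A.p ^ (d * fr (Kt pt s) v) * (Y s).card)
    (A.lt T s * A.p ^ d / (4 * A.σ * (A.z + 1)))
    (vs (Q.b x))) _ A.hδ (fun s => S.other hR s hdκ X hX0 _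
      (fun x hx => by rw [(hcl x hx).card_vs, hXd x hx]) hX)
  simp only [not_not] at hgood
  choose Z hZ1 hZ2 hZ3 hZ4 using hgood
  have hxY := hXY hx
  have hp := A.O.hp
  have hc := A.c_pos
  have hk := A.k_pos
  have hcard : (v ∪ Q.b x).card = v.card + d := by
    rw [card_union_of_disjoint (disjoint_of_subset_right (hb x hx) disjoint_sdiff), hXd x hx]
  have hcol : ∀ s, s ≠ t → ∀ a ∈ Q.b x, a.1 ∉ Kt pt s := by
    intro s hs a ha h
    have h1 := Om_col (S.sub t hxY) (sdiff_subset (hb x hx ha))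
    exact hs ((mem_filter.1 h).2.symm.trans (mem_filter.1 h1).2)
  have hsd : ∀ s, s ≠ t → ∀ y ∈ Y s, y \ (v ∪ Q.b x) = y \ v := by
    intro s hs y hy
    ext a
    simp only [mem_sdiff, mem_union, not_or, and_congr_right_iff, and_iff_left_iff_imp]
    exact fun h1 _ h2 => hcol s hs a h2 (Om_col (S.sub s hy) h1)
  refine ⟨v ∪ Q.b x, fun s => if s = t then Q.Pt x else Z s, ?_, ?_, ?_, ?_, ?_, ?_, ?_⟩
  · rw [hcard, card_insert_of_notMem ht, add_mul]
    have := S.card
    omega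
  · intro s
    split_ifs with h
    · rw [h]; exact (Q.sub x hxY).trans (S.subP t)
    · exact (hZ1 s).trans (S.subP s)
  · intro s
    split_ifs with h
    · rw [h]
      exact fun y hy => Om_union (S.sub t (Q.sub x hxY hy)) ((Q.fix x hxY y hy).trans sdiff_subset)
    · intro y hy
      have h1 := S.sub s (hZ1 s hy)
      refine mem_Om.2 ⟨(mem_Om.1 h1).1, isCl_join (mem_Om.1 h1).2 (mem_Om.1 (S.sub t hxY)).2
        ((hb x hx).trans sdiff_subset) (hZ2 s y hy).1 ?_⟩
      intro a ha a' ha' h2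
      exact hcol s h a ha (h2 ▸ Om_col h1 ha')
  · intro s
    split_ifs with h
    · intro y hy hbad
      exact S.ok t y (Q.sub x hxY hy) (hbad.of_union ((Q.fix x hxY y hy).trans sdiff_subset))
    · intro y hy hbad
      obtain ⟨b', h1, h2⟩ := hbad.forb
      exact (hZ2 s y hy).2 (vs b') (image_subset_image h1)
        ⟨b', rfl, ((hcl x hx).mono h1).card_vs.symm, h2⟩
  · intro s
    split_ifs with h
    · exact ⟨x, Q.mem x hxY⟩
    · have h1 : (0 : ℝ) < (Y s).card := by exact_mod_cast (S.ne s).card_pos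
      have h2 : (0 : ℝ) < 4 * (Z s).card := lt_of_lt_of_le (by positivity) (hZ3 s)
      exact card_pos.1 (by exact_mod_cast (by linarith : (0 : ℝ) < (Z s).card))
  · intro s
    split_ifs with h
    · refine (spr_vs A.i0 (by linarith) (Q.sprL (by linarith) hxY)).mono
        ((A.lX_pos.le).trans (A.lt_ge' _ _)) ?_
      rw [h, Par.lt, if_pos (mem_insert_self _ _)]
      exact mul_le_of_le_one_right (by positivity) (pow_le_one₀ hc.le A.c_le)
    · intro B
      rw [filter_congr (q := fun y => B ⊆ vs (y \ v))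
        (fun y hy => by simp only [hsd s h y (hZ1 s hy)])]
      refine (hZ4 s).mono ((A.lX_pos.le).trans (A.lt_ge' _ _)) ?_ B
      have h1 : A.lt (insert t T) s = A.lt T s * A.c := by
        simp only [Par.lt, mem_insert, h, false_or, card_insert_of_notMem ht]
        ring
      have h2 : A.p ^ A.dm ≤ A.p ^ d := pow_le_pow_of_le_one hp.le A.O.hp1 hd
      have h3 := (A.lX_pos.le).trans (A.lt_ge' T s)
      have h4 := A.hσ
      rw [h1, mul_div_assoc, Par.c]
      gcongr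
  · intro s hs
    have h : s ≠ t := fun h => hs (h ▸ mem_insert_self _ _)
    have h1 := S.big s fun h' => hs (mem_insert_of_mem h')
    have h2 := hZ3 s
    rw [if_neg h, card_insert_of_notMem ht, Par.exu, fr_out (hcol s h), hcard, Ex_shift]
    calc _ = A.p ^ (d * fr (Kt pt s) v) * (A.θ * A.exu s v) := by rw [Par.exu]; ring
      _ ≤ A.p ^ (d * fr (Kt pt s) v) * (2 * 4 ^ T.card * (Y s).card) := by gcongr
      _ = 2 * 4 ^ T.card * (A.p ^ (d * fr (Kt pt s) v) * (Y s).card) := by ring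
      _ ≤ 2 * 4 ^ T.card * (4 * (Z s).card) := by gcongr
      _ = _ := by ring

theorem upgrade {u : Finset (ι × V)} (H : Pre A R u P) (hR : ∀ e ∈ R, e.1.card ≤ A.W) :
    ∃ v Y, Wit A R v Y ∧ ∀ t, Y t ⊆ P t := by
  have h : ∀ T : Finset τ, ∃ v Y, St A R P T v Y := by
    intro T
    induction T using Finset.induction_on with
    | empty =>
      refine ⟨u, P, by simpa using H.card, fun _ => Subset.rfl, H.sub, H.ok, fun t => ?_,
        fun t => ?_, fun t _ => by simpa using H.big t⟩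
      · have h1 := (mul_pos A.hθ (A.exu_pos t u)).trans_le (H.big t)
        exact card_pos.1 (by exact_mod_cast (by linarith : (0 : ℝ) < (P t).card))
      · simpa [Par.lt] using spr_vs A.i0 (by linarith [A.hl1]) (H.spr t)
    | insert t T ht ih =>
      obtain ⟨v, Y, S⟩ := ih
      exact S.step hR ht
  obtain ⟨v, Y, S⟩ := h univ
  have h0 : 0 ≤ A.lw := by
    refine le_trans ?_ A.hdev
    have := A.hL0
    have := A.hl1
    positivity
  refine ⟨v, Y, ⟨S.cardW, S.sub, S.ok, S.ne, fun t => ?_⟩, S.subP⟩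
  refine spr_of_vs h0 (fun y hy => (Om_cl (S.sub t hy)).mono sdiff_subset) ((S.spr t).mono h0 ?_)
  simpa [Par.lt, Par.c] using A.hlw

end Pool.Agent.Lib.MP_7836d5_lc.Avg
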