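import Pool.Agent.Lib.MP_7836d5_lc.Avg.Node
import Pool.Agent.Lib.MP_7836d5_lc.Avg.Upgrade

set_option autoImplicit false
set_option linter.unusedSectionVars false

namespace Pool.Agent.Lib.MP_7836d5_lc.Avg

open Finset

variable {ι τ V : Type*} [Fintype ι] [DecidableEq ι] [Fintype τ] [DecidableEq τ]
  [Fintype V] [DecidableEq V] {G : SimpleGraph V} [DecidableRel G.Adj] {pt : ι → τ}
  {A : Par G pt} {R : Finset (Finset (ι × V) × Finset (ι × V))} {a : Finset (ι × V) → ℝ}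

/-- Some peeling below `v` fixes a part of `y` outside `v`. -/
def Dev (Q : Peels A R a) (v : Finset (ι × V)) (t : τ) (y : Finset (ι × V)) : Prop :=
  ∃ u ⊆ v, y ∈ Us A R t u ∧ ¬ (Q t u).b y ⊆ v

noncomputable instance (Q : Peels A R a) (v : Finset (ι × V)) (t : τ) :
    DecidablePred (Dev Q v t) := fun _ => Classical.dec _

lemma Par.lw_ge (A : Par G pt) : 4 * A.l1 ≤ A.lw := by
  refine le_trans ?_ A.hdev
  have h2 : (1 : ℝ) ≤ A.κ := by exact_mod_cast A.O.hκ
  have h3 := A.hL0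
  have h4 := A.hl1
  have h5 : (1 : ℝ) ≤ 4 ^ A.W := one_le_pow₀ (by norm_num)
  refine mul_le_mul_of_nonneg_right ?_ (by linarith)
  calc (4 : ℝ) ≤ 4 * 1 * 1 * (2 * 0 + 1) := by norm_num
    _ ≤ _ := by gcongr

lemma dev_card (Q : Peels A R a) {v : Finset (ι × V)} (hv : v.card ≤ A.W) (t : τ)
    {Y : Finset (Finset (ι × V))} (hY : SprL Y (fun y => y \ v) A.lw Y.card) :
    4 * ((Y.filter (Dev Q v t)).card : ℝ) ≤ Y.card := by
  have hl := A.hl1
  have hlw := A.lw_ge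
  have hlw0 : 0 < A.lw := by linarith
  have hL := A.hL0
  have hsub : Y.filter (Dev Q v t) ⊆ v.powerset.biUnion fun u => v.powerset.biUnion fun b0 =>
      ((((Us A R t u).image (Q t u).b).filter (fun c => b0 ⊆ c ∧ c ≠ b0)).filter
        fun c => c ∩ v = b0).biUnion fun c => Y.filter fun y => c \ v ⊆ y \ v := by
    intro y hy
    obtain ⟨hy1, u, hu, h1, h2⟩ := mem_filter.1 hy
    refine mem_biUnion.2 ⟨u, mem_powerset.2 hu, mem_biUnion.2 ⟨(Q t u).b y ∩ v,
      mem_powerset.2 inter_subset_right, mem_biUnion.2 ⟨(Q t u).b y, mem_filter.2 ⟨mem_filter.2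
        ⟨mem_image_of_mem _ h1, inter_subset_left, fun h => h2 ?_⟩, rfl⟩, mem_filter.2 ⟨hy1, ?_⟩⟩⟩⟩
    · rw [h]; exact inter_subset_right
    · exact sdiff_subset_sdiff (((Q t u).fix y h1 y ((Q t u).mem y h1)).trans sdiff_subset)
        Subset.rfl
  have h1 : ∀ u b0, ((((((Us A R t u).image (Q t u).b).filter (fun c => b0 ⊆ c ∧ c ≠ b0)).filter
        fun c => c ∩ v = b0).biUnion fun c => Y.filter fun y => c \ v ⊆ y \ v).card : ℝ) ≤
      Y.card * (A.κ * (2 * A.L + 1) * (A.l1 * A.lw⁻¹)) := by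
    intro u b0
    calc _ ≤ ∑ c ∈ (((Us A R t u).image (Q t u).b).filter (fun c => b0 ⊆ c ∧ c ≠ b0)).filter
          fun c => c ∩ v = b0, ((Y.filter fun y => c \ v ⊆ y \ v).card : ℝ) := by
          exact_mod_cast card_biUnion_le
      _ ≤ ∑ c ∈ (((Us A R t u).image (Q t u).b).filter (fun c => b0 ⊆ c ∧ c ≠ b0)).filter
          fun c => c ∩ v = b0, Y.card * (A.lw⁻¹) ^ (c.card - b0.card) := by
          refine sum_le_sum fun c hc => ?_
          have h2 := hY.le_div hlw0 (c \ v)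
          rw [card_sdiff, inter_comm, (mem_filter.1 hc).2] at h2
          rwa [inv_pow, ← div_eq_mul_inv]
      _ ≤ ∑ c ∈ ((Us A R t u).image (Q t u).b).filter (fun c => b0 ⊆ c ∧ c ≠ b0),
          Y.card * (A.lw⁻¹) ^ (c.card - b0.card) :=
          sum_le_sum_of_subset_of_nonneg (filter_subset _ _) fun _ _ _ => by positivity
      _ ≤ _ := by
          rw [← mul_sum]
          refine mul_le_mul_of_nonneg_left (img_sum Q t u b0 (by positivity) ?_) (by positivity)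
          rw [← div_eq_mul_inv, div_le_one hlw0]
          linarith
  have h2 : ((v.powerset.card : ℕ) : ℝ) ≤ 2 ^ A.W := by
    rw [card_powerset]
    exact_mod_cast Nat.pow_le_pow_right (by norm_num) hv
  have h3 : ((Y.filter (Dev Q v t)).card : ℝ) ≤
      2 ^ A.W * (2 ^ A.W * (Y.card * (A.κ * (2 * A.L + 1) * (A.l1 * A.lw⁻¹)))) := by
    calc _ ≤ ∑ u ∈ v.powerset, ∑ b0 ∈ v.powerset,
        ((((((Us A R t u).image (Q t u).b).filter (fun c => b0 ⊆ c ∧ c ≠ b0)).filter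
        fun c => c ∩ v = b0).biUnion fun c => Y.filter fun y => c \ v ⊆ y \ v).card : ℝ) := by
          exact_mod_cast (card_le_card hsub).trans
            (card_biUnion_le.trans (sum_le_sum fun _ _ => card_biUnion_le))
      _ ≤ ∑ _u ∈ v.powerset, ∑ _b0 ∈ v.powerset,
          Y.card * (A.κ * (2 * A.L + 1) * (A.l1 * A.lw⁻¹)) :=
          sum_le_sum fun u _ => sum_le_sum fun b0 _ => h1 u b0
      _ ≤ _ := by
          rw [sum_const, sum_const, nsmul_eq_mul, nsmul_eq_mul]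
          gcongr
  calc _ ≤ 4 * (2 ^ A.W * (2 ^ A.W * (Y.card * (A.κ * (2 * A.L + 1) * (A.l1 * A.lw⁻¹))))) := by
        gcongr
    _ = (4 * 4 ^ A.W * A.κ * (2 * A.L + 1) * A.l1) / A.lw * Y.card := by
        rw [show (4 : ℝ) ^ A.W = 2 ^ A.W * 2 ^ A.W by rw [← mul_pow]; norm_num]
        field_simp
    _ ≤ _ := mul_le_of_le_one_left (by positivity) ((div_le_one hlw0).2 A.hdev)

lemma pre_below (Q : Peels A R a) {R' : Finset (Finset (ι × V) × Finset (ι × V))}
    (hR : R ∪ NewR Q ⊆ R') {v : Finset (ι × V)} {Y : τ → Finset (Finset (ι × V))}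
    (H : Wit A R' v Y) (y : τ → Finset (ι × V)) (hy : ∀ t, y t ∈ Y t)
    (hd : ∀ t, ¬ Dev Q v t (y t)) :
    ∃ u P, Pre A R u P ∧ ∀ t, ∀ y' ∈ P t, a y' ≤ a (y t) := by
  obtain ⟨u, hu, hmax⟩ := (v.powerset.filter (Reach Q)).exists_max_image card
    ⟨∅, mem_filter.2 ⟨empty_mem_powerset _, Reach.base⟩⟩
  obtain ⟨hu1, hu2⟩ := mem_filter.1 hu
  have hu1 := mem_powerset.1 hu1
  have hω : ∀ n, 0 ≤ A.om n := fun n => (A.om_pos n).le
  have h1 : ∀ t, y t ∈ Om G (Kt pt t) u := fun t => Om_anti hu1 (H.sub t (hy t))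
  have h2 : ∀ t, y t ∈ Us A R t u := fun t => mem_filter.2 ⟨h1 t, fun h =>
    H.ok t _ (hy t) (h.mono hω (subset_union_left.trans hR) hu1)⟩
  have h3 : ∀ t, y t ∉ Kill Q t u := by
    intro t h
    refine H.ok t _ (hy t) ((bad_of_mem (u := u) hω ?_).mono hω (subset_union_right.trans hR) hu1)
    exact mem_image.2 ⟨⟨u, t, y t⟩, mem_sigma.2 ⟨mem_filter.2 ⟨mem_univ _, hu2⟩,
      mem_sigma.2 ⟨mem_univ _, h⟩⟩, rfl⟩
  have h4 : u.card ≤ A.w := by
    by_contra h
    obtain ⟨t, ht⟩ := exists_share A u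
    apply h3 t
    rw [Kill, if_pos (not_le.1 h), if_pos ht]
    exact h1 t
  have h5 : ∀ t, A.θ * A.exu t u < (Q t u).Res (y t) := by
    intro t
    by_contra h
    apply h3 t
    rw [Kill, if_neg (not_lt.2 h4)]
    exact mem_filter.2 ⟨h2 t, not_lt.1 h⟩
  have h6 : ∀ t, (Q t u).b (y t) = ∅ := by
    intro t
    have h7 : (Q t u).b (y t) ⊆ v := by
      by_contra h
      exact hd t ⟨u, hu1, h2 t, h⟩
    have h8 := hmax _ (mem_filter.2 ⟨mem_powerset.2 (union_subset hu1 h7),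
      Reach.step u t (y t) hu2 h4 (h2 t) (h5 t)⟩)
    rw [card_union_of_disjoint (disjoint_of_subset_right
      ((Q t u).fix _ (h2 t) _ ((Q t u).mem _ (h2 t))) disjoint_sdiff)] at h8
    exact card_eq_zero.1 (by omega)
  refine ⟨u, fun t => (Q t u).Pt (y t), ⟨h4, fun t => ((Q t u).sub _ (h2 t)).trans (Us_sub t u),
    fun t y' hy' => (mem_filter.1 ((Q t u).sub _ (h2 t) hy')).2, fun t => ?_, fun t => ?_⟩,
    fun t => (Q t u).ord _ (h2 t)⟩
  · have := (Q t u).sprL (by linarith [A.hl1]) (h2 t)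
    rwa [h6 t, union_empty] at this
  · have := (Q t u).res _ (h2 t)
    rw [h6 t, card_empty, pow_zero, mul_one] at this
    exact (h5 t).le.trans this

/-- What a line of the refutation with weight function `a` adds to the killed pairs. -/
def Nx (A : Par G pt) (a : Finset (ι × V) → ℝ)
    (R R1 : Finset (Finset (ι × V) × Finset (ι × V))) : Prop :=
  R ⊆ R1 ∧ (∀ e ∈ R1, e.1.card ≤ A.W) ∧
    Wt A.om (fun n => Ex (Fintype.card V) A.p n 0) R1 ≤
      Wt A.om (fun n => Ex (Fintype.card V) A.p n 0) R + 4 * Fintype.card τ / A.F ^ A.w ∧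
    ∀ R', R1 ⊆ R' → ∀ v Y, Wit A R' v Y → ∃ D : τ → Finset (Finset (ι × V)),
      (∀ t, 4 * (D t).card ≤ (Y t).card) ∧
      ∀ y : τ → Finset (ι × V), (∀ t, y t ∈ Y t ∧ y t ∉ D t) →
        ∃ v' Y', Wit A R v' Y' ∧ ∀ t, ∀ y' ∈ Y' t, a y' ≤ a (y t)

theorem node (A : Par G pt) (a : Finset (ι × V) → ℝ) (R : Finset (Finset (ι × V) × Finset (ι × V)))
    (hR : ∀ e ∈ R, e.1.card ≤ A.W) : ∃ R1, Nx A a R R1 := by
  have Q : Peels A R a := fun t u => (peel _ a A.l1 A.hl1 _).some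
  refine ⟨R ∪ NewR Q, subset_union_left, fun e he => ?_, ?_, fun R' hR' v Y H =>
    ⟨fun t => (Y t).filter (Dev Q v t), fun t => ?_, fun y hy => ?_⟩⟩
  · rcases mem_union.1 he with h | h
    · exact hR e h
    · obtain ⟨i, hi, rfl⟩ := mem_image.1 h
      exact (card_le_card sdiff_subset).trans (mem_filter.1 (mem_sigma.1 hi).1).2.card_le
  · refine le_trans ?_ (add_le_add_right (wt_new Q) _)
    unfold Wt
    rw [← sum_union_inter]
    exact le_add_of_nonneg_right (sum_nonneg fun e _ =>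
      div_nonneg (pow_nonneg (A.om_pos _).le _) (Ex_pos A.O.hN A.O.hp _ _).le)
  · exact_mod_cast dev_card Q H.card t (H.spr t)
  · obtain ⟨u, P, h1, h2⟩ := pre_below Q hR' H y (fun t => (hy t).1)
      (fun t h => (hy t).2 (mem_filter.2 ⟨(hy t).1, h⟩))
    obtain ⟨v', Y', h3, h4⟩ := upgrade h1 hR
    exact ⟨v', Y', h3, fun t y' hy' => h2 t y' (h4 t hy')⟩

theorem root (A : Par G pt) (R : Finset (Finset (ι × V) × Finset (ι × V)))
    (hR : Wt A.om (fun n => Ex (Fintype.card V) A.p n 0) R ≤ 1 / 4) :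
    Wit A R ∅ fun t => Us A R t ∅ := by
  have h1 : ∀ t, Ex (Fintype.card V) A.p (Kt pt t).card 0 ≤ 4 * ((Us A R t ∅).card : ℝ) := by
    intro t
    have h2 := A.O.ge (ι := ι) (A.hK t) (by have := A.hz0; omega)
    have h3 := bad_root (R := R) (fun n => (A.om_pos n).le)
      (ex := fun n => Ex (Fintype.card V) A.p n 0) (fun n => Ex_pos A.O.hN A.O.hp n 0)
      (Om G (Kt pt t) (∅ : Finset (ι × V))) (Kt pt t).card (fun y hy => Om_card hy)
    have h4 : (((Om G (Kt pt t) (∅ : Finset (ι × V))).filter fun y => Bad R A.om ∅ y).card : ℝ) +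
        (Us A R t ∅).card = (Om G (Kt pt t) (∅ : Finset (ι × V))).card := by
      exact_mod_cast card_filter_add_card_filter_not _
    have h5 := Ex_pos A.O.hN A.O.hp (Kt pt t).card 0
    nlinarith
  refine ⟨by simp, fun t => Us_sub t ∅, fun t y hy => (mem_filter.1 hy).2, fun t => ?_,
    fun t c => ?_⟩
  · have h2 := (Ex_pos A.O.hN A.O.hp (Kt pt t).card 0).trans_le (h1 t)
    exact card_pos.1 (by exact_mod_cast (by linarith : (0 : ℝ) < (Us A R t ∅).card))
  · rcases c.eq_empty_or_nonempty with rfl | hc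
    · simp
    rcases ((Us A R t ∅).filter fun y => c ⊆ y \ ∅).eq_empty_or_nonempty with h | ⟨y, hy⟩
    · rw [h]; simp
    have h2 := A.O.ext (A.hK t) (Us_sub t ∅ (mem_filter.1 hy).1) (mem_filter.1 hy).2 A.hz0
      (by simp)
    have h3 : (((Us A R t ∅).filter fun y => c ⊆ y \ ∅).card : ℝ) ≤
        (Om G (Kt pt t) (∅ ∪ c)).card := by
      refine Nat.cast_le.2 (card_le_card fun y' hy' => ?_)
      exact Om_union (Us_sub t ∅ (mem_filter.1 hy').1) ((mem_filter.1 hy').2.trans sdiff_subset)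
    have h4 : fr (Kt pt t) (∅ : Finset (ι × V)) = (Kt pt t).card := by simp [fr]
    rw [h4, card_empty] at h2
    have h5 : 0 ≤ A.lw := by linarith [A.lw_ge, A.hl1]
    have h6 : (8 : ℝ) ≤ 8 ^ c.card := le_self_pow₀ (by norm_num) hc.card_pos.ne'
    have h7 : 8 * A.lw ^ c.card ≤ (Fintype.card V * A.p ^ (A.W + A.κ)) ^ c.card := by
      calc _ ≤ 8 ^ c.card * A.lw ^ c.card := by gcongr
        _ = (8 * A.lw) ^ c.card := by rw [mul_pow]
        _ ≤ _ := pow_le_pow_left₀ (by positivity) A.hroot _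
    have h8 : (((Us A R t ∅).filter fun y => c ⊆ y \ ∅).card : ℝ) * (8 * A.lw ^ c.card) ≤
        (Om G (Kt pt t) (∅ ∪ c)).card * (Fintype.card V * A.p ^ (A.W + A.κ)) ^ c.card := by
      gcongr
    have h9 := h1 t
    simp only
    linarith

end Pool.Agent.Lib.MP_7836d5_lc.Avg
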