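import Pool.Agent.Lib.MP_7836d5_lc.Avg.Descend
import Pool.Agent.Lib.MP_7836d5_lc.Defs

set_option autoImplicit false
set_option linter.unusedSectionVars false

namespace Pool.Agent.Lib.MP_7836d5_lc.Avg

open Finset

variable {k n : ℕ} {τ : Type*} [Fintype τ] [DecidableEq τ]
  {G : SimpleGraph (Fin n)} [DecidableRel G.Adj] {pt : Fin k → τ}
  {A : Par G pt} {R : Finset (Finset (Fin k × Fin n) × Finset (Fin k × Fin n))}

/-- The assignment given by one clique per party. -/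
def asg (pt : Fin k → τ) (y : τ → Finset (Fin k × Fin n)) : Fin k × Fin n → Bool :=
  fun x => decide (x ∈ y (pt x.1))

lemma asg_sum {v : Finset (Fin k × Fin n)} {y : τ → Finset (Fin k × Fin n)}
    (hy : ∀ t, y t ∈ Om G (Kt pt t) v) (c : Fin k × Fin n → ℝ) :
    (∑ x, if asg pt y x = true then c x else 0) = ∑ t, ∑ x ∈ y t, c x := by
  rw [← sum_fiberwise (s := univ) (g := fun x => pt x.1)]
  refine sum_congr rfl fun t _ => ?_
  rw [← sum_filter, filter_filter]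
  refine sum_congr ?_ fun _ _ => rfl
  ext x
  simp only [asg, decide_eq_true_eq, mem_filter, mem_univ, true_and]
  constructor
  · rintro ⟨rfl, h⟩; exact h
  · intro h
    have h1 := (mem_filter.1 (Om_col (hy t) h)).2
    exact ⟨h1, h1 ▸ h⟩

lemma avoid {v : Finset (Fin k × Fin n)} {Y : τ → Finset (Finset (Fin k × Fin n))}
    (H : Wit A R v Y) {x : Fin k × Fin n} (hx : x ∉ v) :
    ∃ y : τ → Finset (Fin k × Fin n), (∀ t, y t ∈ Y t) ∧ asg pt y x = false := by
  have h1 : ∀ t, ∃ y ∈ Y t, x ∉ y := by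
    intro t
    by_contra h
    push Not at h
    have h2 := H.spr t {x}
    rw [filter_true_of_mem (fun y hy => singleton_subset_iff.2 (mem_sdiff.2 ⟨h y hy, hx⟩)),
      card_singleton, pow_one] at h2
    have h3 : (0 : ℝ) < (Y t).card := by exact_mod_cast (H.ne t).card_pos
    have h4 := A.lw_ge
    have h5 := A.hl1
    nlinarith
  choose y h2 h3 using h1
  exact ⟨y, h2, by simp [asg, h3]⟩

lemma clause_sat {v : Finset (Fin k × Fin n)} {Y : τ → Finset (Finset (Fin k × Fin n))}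
    (H : Wit A R v Y) {C : Clause (Fin k × Fin n)} (hC : C ∈ cliqueCNF G k) :
    ∃ y : τ → Finset (Fin k × Fin n), (∀ t, y t ∈ Y t) ∧ ClauseSat C (asg pt y) := by
  choose y0 hy0 using H.ne
  rcases hC with ⟨i, rfl⟩ | ⟨i, j, u, w, hij, huw, rfl⟩ | ⟨i, u, w, huw, rfl⟩
  · have h1 : i ∈ Kt pt (pt i) := mem_filter.2 ⟨mem_univ _, rfl⟩
    rw [← (mem_Om.1 (H.sub _ (hy0 (pt i)))).1] at h1
    obtain ⟨x, hx, h2⟩ := mem_image.1 h1
    refine ⟨y0, hy0, ((i, x.2), true), mem_image.2 ⟨x.2, mem_univ _, rfl⟩, ?_⟩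
    subst h2
    simpa [asg] using hx
  · by_cases h1 : (i, u) ∈ v
    · by_cases h2 : (j, w) ∈ v
      · exact absurd (Om_cl' (H.sub _ (hy0 (pt i))) _ h1 _ h2
          (fun h => hij (congrArg Prod.fst h))).2 huw
      · obtain ⟨y, h3, h4⟩ := avoid H h2
        exact ⟨y, h3, ((j, w), false), by simp, h4⟩
    · obtain ⟨y, h3, h4⟩ := avoid H h1
      exact ⟨y, h3, ((i, u), false), by simp, h4⟩
  · refine ⟨y0, hy0, ?_⟩
    by_cases h1 : (i, u) ∈ y0 (pt i)
    · by_cases h2 : (i, w) ∈ y0 (pt i)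
      · exact absurd rfl (Om_cl (H.sub _ (hy0 (pt i))) _ h1 _ h2
          (fun h => huw (congrArg Prod.snd h))).1
      · exact ⟨((i, w), false), by simp, by simp [asg, h2]⟩
    · exact ⟨((i, u), false), by simp, by simp [asg, h1]⟩

lemma exists_out {α : Type*} [DecidableEq α] {Y D D' : Finset α} (h0 : Y.Nonempty)
    (h1 : 4 * D.card ≤ Y.card) (h2 : 4 * D'.card ≤ Y.card) : ∃ y ∈ Y, y ∉ D ∧ y ∉ D' := by
  have h3 := h0.card_pos
  have h4 := card_union_le D D'
  obtain ⟨y, h5, h6⟩ := exists_mem_notMem_of_card_lt_card (s := D ∪ D') (t := Y) (by omega)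
  exact ⟨y, h5, fun h => h6 (mem_union_left _ h), fun h => h6 (mem_union_right _ h)⟩

theorem det (A : Par G pt) {s : ℕ} (h : CPRef (cliqueCNF G k) s) :
    A.F ^ A.w < 16 * Fintype.card τ * s := by
  obtain ⟨π, ⟨i0, hi0⟩, hπ⟩ := h
  have key : ∀ j : ℕ, j ≤ s → ∃ R : Finset (Finset (Fin k × Fin n) × Finset (Fin k × Fin n)),
      (∀ e ∈ R, e.1.card ≤ A.W) ∧
      Wt A.om (fun m => Ex (Fintype.card (Fin n)) A.p m 0) R ≤
        j * (4 * Fintype.card τ / A.F ^ A.w) ∧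
      ∀ i : Fin s, i.val < j → ∀ R', R ⊆ R' → ∀ v Y, Wit A R' v Y →
        ∃ D : τ → Finset (Finset (Fin k × Fin n)), (∀ t, 4 * (D t).card ≤ (Y t).card) ∧
          ∀ y : τ → Finset (Fin k × Fin n), (∀ t, y t ∈ Y t ∧ y t ∉ D t) →
            IneqSat (π i) (asg pt y) := by
    intro j
    induction j with
    | zero => exact fun _ => ⟨∅, by simp, by simp [Wt], fun i hi => absurd hi (Nat.not_lt_zero _)⟩
    | succ j ih =>
      intro hj
      obtain ⟨R, h1, h2, h3⟩ := ih (by omega)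
      obtain ⟨R1, h4, h5, h6, h7⟩ := node A (fun y => ∑ x ∈ y, (π ⟨j, hj⟩).1 x) R h1
      refine ⟨R1, h5, by push_cast; linarith, fun i hi R' hR' v Y H => ?_⟩
      rcases Nat.lt_succ_iff_lt_or_eq.1 hi with hi | hi
      · exact h3 i hi R' (h4.trans hR') v Y H
      have hi' : i = ⟨j, hj⟩ := Fin.ext hi
      obtain ⟨D, h8, h9⟩ := h7 R' hR' v Y H
      refine ⟨D, h8, fun y hy => ?_⟩
      obtain ⟨v', Y', H', h10⟩ := h9 y hy
      have h11 : ∃ y' : τ → Finset (Fin k × Fin n), (∀ t, y' t ∈ Y' t) ∧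
          IneqSat (π i) (asg pt y') := by
        rcases hπ i with ⟨C, hC, h12⟩ | ⟨l, hl, l', hl', h12⟩
        · obtain ⟨y', h13, h14⟩ := clause_sat H' hC
          exact ⟨y', h13, h12 _ h14⟩
        · obtain ⟨D1, h13, h14⟩ := h3 l (hi ▸ hl) R Subset.rfl v' Y' H'
          obtain ⟨D2, h15, h16⟩ := h3 l' (hi ▸ hl') R Subset.rfl v' Y' H'
          choose y' h17 h18 h19 using fun t => exists_out (H'.ne t) (h13 t) (h15 t)
          exact ⟨y', h17, h12 _ (h14 y' fun t => ⟨h17 t, h18 t⟩) (h16 y' fun t => ⟨h17 t, h19 t⟩)⟩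
      obtain ⟨y', h12, h13⟩ := h11
      unfold IneqSat at h13 ⊢
      rw [asg_sum (fun t => H'.sub t (h12 t))] at h13
      rw [asg_sum (fun t => H.sub t (hy t).1)]
      refine h13.trans (sum_le_sum fun t _ => ?_)
      rw [hi']
      exact h10 t _ (h12 t)
  obtain ⟨R, _, h2, h3⟩ := key s le_rfl
  by_contra hc
  have hF : 0 < A.F ^ A.w := pow_pos (by linarith [A.hF]) _
  have H := root A R (h2.trans (by
    rw [← mul_div_assoc, div_le_iff₀ hF]
    linarith))
  obtain ⟨D, h4, h5⟩ := h3 i0 i0.2 R Subset.rfl _ _ H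
  choose y h6 h7 _ using fun t => exists_out (H.ne t) (h4 t) (h4 t)
  exact hi0 _ (h5 y fun t => ⟨h6 t, h7 t⟩)

end Pool.Agent.Lib.MP_7836d5_lc.Avg
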