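import Pool.Agent.Lib.MP_7836d5_lc.Avg.Select

set_option autoImplicit false
set_option linter.unusedSectionVars false

namespace Pool.Agent.Lib.MP_7836d5_lc.Avg

open Finset

variable {γ : Type*} [Fintype γ] [DecidableEq γ]

/-- The potential of the killed pairs above a pattern. -/
noncomputable def psi (R : Finset (Finset γ × Finset γ)) (ω : ℝ) (y u0 : Finset γ) : ℝ :=
  ∑ e ∈ R.filter (fun e => e.2 = y ∧ u0 ⊆ e.1), ω ^ (e.1 \ u0).card

/-- The clique `y` is unusable next to the pattern `u`. -/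
def Bad (R : Finset (Finset γ × Finset γ)) (ω : ℕ → ℝ) (u y : Finset γ) : Prop :=
  ∃ u0 ⊆ u \ y, 1 ≤ psi R (ω y.card) y u0

noncomputable instance (R : Finset (Finset γ × Finset γ)) (ω : ℕ → ℝ) (u y : Finset γ) :
    Decidable (Bad R ω u y) := Classical.dec _

/-- Adding `b` to the pattern `u` makes `y` unusable. -/
def Forb (R : Finset (Finset γ × Finset γ)) (ω : ℕ → ℝ) (u y b : Finset γ) : Prop :=
  ∃ u0 ⊆ u \ y, Disjoint u0 b ∧ 1 ≤ psi R (ω y.card) y (u0 ∪ b)

noncomputable instance (R : Finset (Finset γ × Finset γ)) (ω : ℕ → ℝ) (u y b : Finset γ) :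
    Decidable (Forb R ω u y b) := Classical.dec _

lemma psi_nonneg (R : Finset (Finset γ × Finset γ)) {ω : ℝ} (hω : 0 ≤ ω) (y u0 : Finset γ) :
    0 ≤ psi R ω y u0 := sum_nonneg fun _ _ => pow_nonneg hω _

lemma Bad.mono {R R' : Finset (Finset γ × Finset γ)} {ω : ℕ → ℝ} (hω : ∀ n, 0 ≤ ω n)
    {u u' y : Finset γ} (h : Bad R ω u y) (hR : R ⊆ R') (hu : u ⊆ u') : Bad R' ω u' y := by
  obtain ⟨u0, h1, h2⟩ := h
  refine ⟨u0, h1.trans (sdiff_subset_sdiff hu Subset.rfl), h2.trans ?_⟩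
  exact sum_le_sum_of_subset_of_nonneg (filter_subset_filter _ hR) fun _ _ _ => pow_nonneg (hω _) _

lemma bad_of_mem {R : Finset (Finset γ × Finset γ)} {ω : ℕ → ℝ} (hω : ∀ n, 0 ≤ ω n)
    {u y : Finset γ} (h : (u \ y, y) ∈ R) : Bad R ω u y := by
  refine ⟨u \ y, Subset.rfl, ?_⟩
  have := single_le_sum (s := R.filter (fun e => e.2 = y ∧ u \ y ⊆ e.1))
    (f := fun e => ω y.card ^ (e.1 \ (u \ y)).card) (fun _ _ => pow_nonneg (hω _) _)
    (a := (u \ y, y)) (mem_filter.2 ⟨h, rfl, Subset.rfl⟩)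
  simpa [psi] using this

lemma Bad.of_union {R : Finset (Finset γ × Finset γ)} {ω : ℕ → ℝ} {u b y : Finset γ}
    (h : Bad R ω (u ∪ b) y) (hb : b ⊆ y) : Bad R ω u y := by
  obtain ⟨u0, h1, h2⟩ := h
  refine ⟨u0, fun x hx => ?_, h2⟩
  have := mem_sdiff.1 (h1 hx)
  exact mem_sdiff.2 ⟨(mem_union.1 this.1).resolve_right fun h => this.2 (hb h), this.2⟩

lemma Bad.forb {R : Finset (Finset γ × Finset γ)} {ω : ℕ → ℝ} {u b y : Finset γ}
    (h : Bad R ω (u ∪ b) y) : ∃ b' ⊆ b, Forb R ω u y b' := by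
  obtain ⟨u0, h1, h2⟩ := h
  refine ⟨u0 \ u, fun x hx => ?_, u0 ∩ u, fun x hx => ?_, ?_, ?_⟩
  · have := mem_sdiff.1 hx
    exact (mem_union.1 (mem_sdiff.1 (h1 this.1)).1).resolve_left this.2
  · have := mem_inter.1 hx
    exact mem_sdiff.2 ⟨this.2, (mem_sdiff.1 (h1 this.1)).2⟩
  · exact disjoint_of_subset_left inter_subset_right disjoint_sdiff
  · rwa [union_comm, sdiff_union_inter]

lemma Forb.bad {R : Finset (Finset γ × Finset γ)} {ω : ℕ → ℝ} {u y : Finset γ}
    (h : Forb R ω u y ∅) : Bad R ω u y := by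
  obtain ⟨u0, h1, _, h2⟩ := h
  exact ⟨u0, h1, by simpa using h2⟩

lemma psi_count {R : Finset (Finset γ × Finset γ)} {ω : ℝ} (hω : 0 < ω) {W : ℕ}
    (hR : ∀ e ∈ R, e.1.card ≤ W) (y u0 : Finset γ) (j : ℕ) :
    ((univ.filter fun b : Finset γ => b.card = j ∧ Disjoint u0 b ∧ 1 ≤ psi R ω y (u0 ∪ b)).card : ℝ)
      * ω ^ j ≤ 2 ^ W * psi R ω y u0 := by
  set S := univ.filter fun b : Finset γ => b.card = j ∧ Disjoint u0 b ∧ 1 ≤ psi R ω y (u0 ∪ b)
    with hS
  calc _ = ∑ _b ∈ S, ω ^ j := by simp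
    _ ≤ ∑ b ∈ S, ∑ e ∈ R.filter (fun e => e.2 = y ∧ u0 ⊆ e.1),
          if b ⊆ e.1 then ω ^ (e.1 \ u0).card else 0 := by
        refine sum_le_sum fun b hb => ?_
        obtain ⟨_, h1, h2, h3⟩ := mem_filter.1 hb
        calc _ ≤ ω ^ j * psi R ω y (u0 ∪ b) := le_mul_of_one_le_right (by positivity) h3
          _ = _ := by
            rw [psi, mul_sum, ← sum_filter, filter_filter]
            refine sum_congr (filter_congr fun e _ => by rw [union_subset_iff, and_assoc])
              fun e he => ?_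
            obtain ⟨_, ⟨_, h4⟩, h5⟩ := mem_filter.1 he
            rw [← pow_add, ← h1, sdiff_union_distrib, ← Finset.sdiff_sdiff_left', add_comm,
              card_sdiff_add_card_eq_card (subset_sdiff.2 ⟨h5, h2.symm⟩)]
    _ ≤ _ := by
        rw [sum_comm, psi, mul_sum]
        refine sum_le_sum fun e he => ?_
        rw [← sum_filter, sum_const, nsmul_eq_mul]
        refine mul_le_mul_of_nonneg_right ?_ (by positivity)
        have h1 : (S.filter fun b => b ⊆ e.1).card ≤ 2 ^ W := by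
          calc _ ≤ e.1.powerset.card :=
                card_le_card fun b hb => mem_powerset.2 (mem_filter.1 hb).2
            _ ≤ _ := by
              rw [card_powerset]
              exact Nat.pow_le_pow_right (by norm_num) (hR e (mem_filter.1 he).1)
        exact_mod_cast h1

lemma forb_card {R : Finset (Finset γ × Finset γ)} {ω : ℕ → ℝ} (hω : ∀ n, 0 < ω n) {W : ℕ}
    (hR : ∀ e ∈ R, e.1.card ≤ W) {u y : Finset γ} (hu : u.card ≤ W) (h : ¬ Bad R ω u y) (j : ℕ) :
    ((univ.filter fun b : Finset γ => b.card = j ∧ Forb R ω u y b).card : ℝ) ≤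
      4 ^ W * ((ω y.card)⁻¹) ^ j := by
  have hw := hω y.card
  have hsub : (univ.filter fun b : Finset γ => b.card = j ∧ Forb R ω u y b) ⊆
      (u \ y).powerset.biUnion fun u0 => univ.filter fun b : Finset γ =>
        b.card = j ∧ Disjoint u0 b ∧ 1 ≤ psi R (ω y.card) y (u0 ∪ b) := by
    intro b hb
    obtain ⟨_, h1, u0, h2, h3⟩ := mem_filter.1 hb
    exact mem_biUnion.2 ⟨u0, mem_powerset.2 h2, mem_filter.2 ⟨mem_univ _, h1, h3⟩⟩
  calc _ ≤ ∑ u0 ∈ (u \ y).powerset, ((univ.filter fun b : Finset γ =>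
        b.card = j ∧ Disjoint u0 b ∧ 1 ≤ psi R (ω y.card) y (u0 ∪ b)).card : ℝ) := by
        exact_mod_cast (card_le_card hsub).trans card_biUnion_le
    _ ≤ ∑ _u0 ∈ (u \ y).powerset, 2 ^ W * ((ω y.card)⁻¹) ^ j := by
        refine sum_le_sum fun u0 hu0 => ?_
        have h1 := psi_count hw hR y u0 j
        have h2 : psi R (ω y.card) y u0 ≤ 1 :=
          (not_le.1 fun h' => h ⟨u0, mem_powerset.1 hu0, h'⟩).le
        rw [inv_pow, ← div_eq_mul_inv, le_div_iff₀ (by positivity)]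
        refine h1.trans (mul_le_of_le_one_right (by positivity) h2)
    _ ≤ _ := by
        rw [sum_const, nsmul_eq_mul, card_powerset]
        have h1 : ((2 ^ (u \ y).card : ℕ) : ℝ) ≤ 2 ^ W := by
          exact_mod_cast Nat.pow_le_pow_right (by norm_num) ((card_le_card sdiff_subset).trans hu)
        calc _ ≤ 2 ^ W * (2 ^ W * ((ω y.card)⁻¹) ^ j) := by gcongr
          _ = _ := by rw [← mul_assoc, ← mul_pow]; norm_num

/-- The total weight of a set of killed pairs. -/
noncomputable def Wt (ω ex : ℕ → ℝ) (R : Finset (Finset γ × Finset γ)) : ℝ :=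
  ∑ e ∈ R, ω e.2.card ^ e.1.card / ex e.2.card

lemma bad_root {R : Finset (Finset γ × Finset γ)} {ω ex : ℕ → ℝ} (hω : ∀ n, 0 ≤ ω n)
    (hex : ∀ n, 0 < ex n) (S : Finset (Finset γ)) (l : ℕ) (hS : ∀ y ∈ S, y.card = l) :
    ((S.filter fun y => Bad R ω ∅ y).card : ℝ) ≤ Wt ω ex R * ex l := by
  have h0 := hex l
  calc _ ≤ ((S.filter fun y => 1 ≤ psi R (ω l) y ∅).card : ℝ) * 1 := by
        rw [mul_one]
        refine Nat.cast_le.2 (card_le_card fun y hy => ?_)
        obtain ⟨h1, u0, h2, h3⟩ := mem_filter.1 hy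
        rw [empty_sdiff, subset_empty] at h2
        rw [h2, hS y h1] at h3
        exact mem_filter.2 ⟨h1, h3⟩
    _ ≤ ∑ y ∈ S, psi R (ω l) y ∅ := markov S _ (fun y _ => psi_nonneg R (hω l) y ∅) 1
    _ = ∑ e ∈ R.filter (fun e => e.2 ∈ S), ω l ^ e.1.card := by
        rw [← sum_fiberwise_of_maps_to (s := R.filter (fun e => e.2 ∈ S)) (t := S)
          (g := fun e => e.2) (fun e he => (mem_filter.1 he).2)]
        refine sum_congr rfl fun y hy => ?_
        rw [psi, filter_filter]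
        refine sum_congr (filter_congr fun e _ => ?_) fun e _ => by simp
        simp only [empty_subset, and_true, iff_and_self]
        rintro rfl
        exact hy
    _ = (∑ e ∈ R.filter (fun e => e.2 ∈ S), ω e.2.card ^ e.1.card / ex e.2.card) * ex l := by
        rw [sum_mul]
        refine sum_congr rfl fun e he => ?_
        rw [hS _ (mem_filter.1 he).2]
        field_simp
    _ ≤ _ := by
        refine mul_le_mul_of_nonneg_right ?_ h0.le
        exact sum_le_sum_of_subset_of_nonneg (filter_subset _ _) fun e _ _ =>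
          div_nonneg (pow_nonneg (hω _) _) (hex _).le

end Pool.Agent.Lib.MP_7836d5_lc.Avg
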