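import Pool.Agent.Lib.MP_7836d5_lc.Avg.One

set_option autoImplicit false
set_option linter.unusedSectionVars false

namespace Pool.Agent.Lib.MP_7836d5_lc.Avg

open Finset

variable {V : Type*} [Fintype V] [DecidableEq V] (G : SimpleGraph V) [DecidableRel G.Adj]

lemma prod_filter_fst {ι₁ ι₂ : Type*} [DecidableEq ι₁] [Fintype ι₂] [DecidableEq ι₂]
    (H : Finset (ι₁ × ι₂)) (A : Finset ι₁) (φ : ι₁ → ι₂ → ℝ) :
    ∏ e ∈ H.filter (fun e => e.1 ∈ A), φ e.1 e.2 =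
      ∏ a ∈ A, ∏ l ∈ univ.filter (fun l => (a, l) ∈ H), φ a l := by
  rw [← prod_finset_product' (H.filter (fun e => e.1 ∈ A)) A
    (fun a => univ.filter (fun l => (a, l) ∈ H))]
  intro e
  simp [and_comm]

lemma one_sided {p ε : ℝ} {z : ℕ} (hp : 0 < p) (hp1 : p ≤ 1) (hε : 0 ≤ ε) (hG : Cod G p ε (2 * z))
    {α β ι₁ ι₂ : Type*} [DecidableEq β] [Fintype ι₁] [DecidableEq ι₁] [Fintype ι₂] [DecidableEq ι₂]
    (hz₁ : Fintype.card ι₁ ≤ z) (hz₂ : Fintype.card ι₂ ≤ z) (v0 : V)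
    (X : Finset α) (f : α → ι₁ → V) (hf : ∀ x ∈ X, Function.Injective (f x))
    (Y : Finset β) (g : β → ι₂ → V) (hg : ∀ y ∈ Y, Function.Injective (g y))
    {lam Λ₁ Λ₂ : ℝ} (hl : 1 ≤ lam) (hlN : lam ≤ Fintype.card V)
    (hX : SprL X (fun x => univ.image (f x)) lam Λ₁)
    (hY : SprL Y (fun y => univ.image (g y)) lam Λ₂)
    (H : Finset (ι₁ × ι₂)) (A : Finset ι₁) (C : Finset ι₂) (hcov : ∀ e ∈ H, e.1 ∈ A ∨ e.2 ∈ C)
    (hall : ∀ A' ⊆ A, A'.card ≤ ((A'.biUnion fun a => univ.filter fun l => (a, l) ∈ H) \ C).card)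
    (hCA : C.card ≤ A.card) :
    (∑ x ∈ X, ∑ y ∈ Y, ∏ e ∈ H, xi G p (f x e.1) (g y e.2)) ^ 2 ≤
      (Λ₁ * Λ₂) ^ 2 * 2 ^ z *
        ((Fintype.card V / lam) ^ 3 * (2 * p⁻¹) ^ (4 * z) * (2 * ε + lam⁻¹)) ^ A.card := by
  have hl0 : 0 < lam := by linarith
  have hq : 1 ≤ p⁻¹ := (one_le_inv₀ hp).2 hp1
  have hΛ₁ : 0 ≤ Λ₁ := le_trans (by positivity) (hX ∅)
  have hΛ₂ : 0 ≤ Λ₂ := le_trans (by positivity) (hY ∅)
  set N : ℝ := (Fintype.card V : ℝ) with hN
  have hN0 : 0 < N := by linarith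
  set T : ι₁ → Finset ι₂ := fun a => univ.filter fun l => (a, l) ∈ H with hT
  set F : (ι₁ → V) → (ι₂ → V) → ℝ := fun a c => ∑ y ∈ Y.filter fun y => res v0 C (g y) = c,
        ∏ i ∈ A, ∏ l ∈ T i, xi G p (a i) (g y l) with hF
  set Gf : α → (ι₂ → V) → ℝ := fun x c =>
    ∏ e ∈ H.filter (fun e => ¬ e.1 ∈ A), xi G p (f x e.1) (c e.2) with hGf
  have step1 : ∀ x, ∑ y ∈ Y, ∏ e ∈ H, xi G p (f x e.1) (g y e.2) =
      ∑ c ∈ PA v0 C, Gf x c * F (res v0 A (f x)) c := by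
    intro x
    rw [← sum_fiberwise_of_maps_to (fun y _ => res_mem v0 C (g y))]
    refine sum_congr rfl fun c _ => ?_
    rw [hF, mul_sum]
    refine sum_congr rfl fun y hy => ?_
    rw [← prod_filter_mul_prod_filter_not H (fun e => e.1 ∈ A), mul_comm]
    congr 1
    · refine prod_congr rfl fun e he => ?_
      have he' := mem_filter.1 he
      have hC : e.2 ∈ C := (hcov e he'.1).resolve_left he'.2
      rw [← (mem_filter.1 hy).2]
      simp [res, hC]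
    · rw [prod_filter_fst H A (fun a l => xi G p (f x a) (g y l))]
      refine prod_congr rfl fun a ha => ?_
      simp [res, ha, hT]
  have hGb : ∀ x c, |Gf x c| ≤ (2 * p⁻¹) ^ (z * C.card) := by
    intro x c
    rw [hGf, abs_prod]
    calc _ ≤ ∏ _e ∈ H.filter (fun e => ¬ e.1 ∈ A), (2 * p⁻¹) := by
          apply prod_le_prod (fun _ _ => abs_nonneg _)
          intro e _
          have := abs_xi_le G hp hp1 (f x e.1) (c e.2)
          linarith
      _ = (2 * p⁻¹) ^ (H.filter (fun e => ¬ e.1 ∈ A)).card := by simp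
      _ ≤ _ := by
          apply pow_le_pow_right₀ (by linarith)
          have : H.filter (fun e => ¬ e.1 ∈ A) ⊆ univ ×ˢ C := by
            intro e he
            have he' := mem_filter.1 he
            exact mem_product.2 ⟨mem_univ _, (hcov e he'.1).resolve_left he'.2⟩
          refine (card_le_card this).trans ?_
          rw [card_product, card_univ]
          exact Nat.mul_le_mul_right _ hz₁
  have step2 : |∑ x ∈ X, ∑ y ∈ Y, ∏ e ∈ H, xi G p (f x e.1) (g y e.2)| ≤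
      (2 * p⁻¹) ^ (z * C.card) * (Λ₁ / lam ^ A.card) *
        ∑ a ∈ PA v0 A, ∑ c ∈ PA v0 C, |F a c| := by
    simp only [step1]
    calc _ ≤ ∑ x ∈ X, (2 * p⁻¹) ^ (z * C.card) * ∑ c ∈ PA v0 C, |F (res v0 A (f x)) c| := by
          refine (abs_sum_le_sum_abs _ _).trans (sum_le_sum fun x _ => ?_)
          refine (abs_sum_le_sum_abs _ _).trans ?_
          rw [mul_sum]
          refine sum_le_sum fun c _ => ?_
          rw [abs_mul]
          exact mul_le_mul_of_nonneg_right (hGb x c) (abs_nonneg _)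
      _ ≤ _ := by
          rw [← mul_sum, mul_assoc]
          refine mul_le_mul_of_nonneg_left ?_ (by positivity)
          rw [← sum_fiberwise_of_maps_to (fun x _ => res_mem v0 A (f x)), mul_sum]
          refine sum_le_sum fun a _ => ?_
          rw [sum_congr rfl (g := fun _ => ∑ c ∈ PA v0 C, |F a c|)
            (fun x hx => by rw [(mem_filter.1 hx).2]), sum_const, nsmul_eq_mul]
          exact mul_le_mul_of_nonneg_right (fiber_le v0 A X f hf hl0 hX a)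
            (sum_nonneg fun _ _ => abs_nonneg _)
  have step3 : (∑ a ∈ PA v0 A, ∑ c ∈ PA v0 C, |F a c|) ^ 2 ≤
      N ^ A.card * N ^ C.card * ∑ a ∈ PA v0 A, ∑ c ∈ PA v0 C, (F a c) ^ 2 := by
    rw [← sum_product' (f := fun a c => |F a c|), ← sum_product' (f := fun a c => (F a c) ^ 2)]
    refine sq_sum_le_card_mul_sum_sq.trans (le_of_eq ?_)
    rw [card_product, Nat.cast_mul, card_PA, card_PA]
    simp only [sq_abs, hN]
  have step4 := second_moment G hp hp1 hε hG (Nat.mul_le_mul_left 2 hz₂) v0 Y g hg hl hY T A C hall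
  have e1 : (2 * p⁻¹) ^ (2 * Fintype.card ι₂) ≤ (2 * p⁻¹) ^ (2 * z) :=
    pow_le_pow_right₀ (by linarith) (by omega)
  have e2 : (2 : ℝ) ^ Fintype.card ι₂ ≤ 2 ^ z := pow_le_pow_right₀ (by norm_num) hz₂
  have e3 : ((2 * p⁻¹) ^ (2 * z) * (N / lam)) ^ C.card ≤
      ((2 * p⁻¹) ^ (2 * z) * (N / lam)) ^ A.card := by
    apply pow_le_pow_right₀ _ hCA
    have h1 : 1 ≤ (2 * p⁻¹) ^ (2 * z) := one_le_pow₀ (by linarith)
    have h2 : 1 ≤ N / lam := (one_le_div hl0).2 hlN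
    nlinarith
  rw [← sq_abs]
  calc _ ≤ ((2 * p⁻¹) ^ (z * C.card) * (Λ₁ / lam ^ A.card) *
        ∑ a ∈ PA v0 A, ∑ c ∈ PA v0 C, |F a c|) ^ 2 := by gcongr
    _ = ((2 * p⁻¹) ^ (z * C.card) * (Λ₁ / lam ^ A.card)) ^ 2 *
        (∑ a ∈ PA v0 A, ∑ c ∈ PA v0 C, |F a c|) ^ 2 := by ring
    _ ≤ ((2 * p⁻¹) ^ (z * C.card) * (Λ₁ / lam ^ A.card)) ^ 2 * (N ^ A.card * N ^ C.card *
        ((N * (2 * p⁻¹) ^ (2 * z)) ^ A.card *
        (Λ₂ * (2 ^ z * (Λ₂ / lam ^ C.card))) * (2 * ε + lam⁻¹) ^ A.card)) := by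
        gcongr
        refine step3.trans ?_
        gcongr
        refine step4.trans ?_
        gcongr
    _ = (Λ₁ * Λ₂) ^ 2 * 2 ^ z * (((2 * p⁻¹) ^ (2 * z) * (N / lam)) ^ C.card *
        ((N / lam) ^ 2 * (2 * p⁻¹) ^ (2 * z) * (2 * ε + lam⁻¹)) ^ A.card) := by
        simp only [mul_pow, div_pow, ← pow_mul]
        field_simp
        ring
    _ ≤ (Λ₁ * Λ₂) ^ 2 * 2 ^ z * (((2 * p⁻¹) ^ (2 * z) * (N / lam)) ^ A.card *
        ((N / lam) ^ 2 * (2 * p⁻¹) ^ (2 * z) * (2 * ε + lam⁻¹)) ^ A.card) := by gcongr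
    _ = _ := by
        rw [← mul_pow]
        congr 2
        ring

lemma exists_cover {ι₁ ι₂ : Type*} [Fintype ι₁] [DecidableEq ι₁] [Fintype ι₂] [DecidableEq ι₂]
    (H : Finset (ι₁ × ι₂)) : ∃ (A : Finset ι₁) (C : Finset ι₂), (∀ e ∈ H, e.1 ∈ A ∨ e.2 ∈ C) ∧
      (∀ A' ⊆ A, A'.card ≤ ((A'.biUnion fun a => univ.filter fun l => (a, l) ∈ H) \ C).card) ∧
      (∀ C' ⊆ C, C'.card ≤ ((C'.biUnion fun l => univ.filter fun a => (a, l) ∈ H) \ A).card) := by
  obtain ⟨AC, hAC, hmin⟩ := ((univ : Finset (Finset ι₁ × Finset ι₂)).filter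
    fun AC => ∀ e ∈ H, e.1 ∈ AC.1 ∨ e.2 ∈ AC.2).exists_min_image
      (fun AC => AC.1.card + AC.2.card) ⟨(univ, univ), by simp⟩
  have hcov := (mem_filter.1 hAC).2
  refine ⟨AC.1, AC.2, hcov, fun A' hA' => ?_, fun C' hC' => ?_⟩
  · have := hmin (AC.1 \ A', (A'.biUnion fun a => univ.filter fun l => (a, l) ∈ H) ∪ AC.2) (by
      refine mem_filter.2 ⟨mem_univ _, fun e he => ?_⟩
      by_cases h : e.1 ∈ A'
      · exact Or.inr (mem_union_left _ (mem_biUnion.2 ⟨e.1, h, by simpa using he⟩))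
      · rcases hcov e he with h' | h'
        · exact Or.inl (mem_sdiff.2 ⟨h', h⟩)
        · exact Or.inr (mem_union_right _ h'))
    simp only at this
    rw [← card_sdiff_add_card, card_sdiff_of_subset hA'] at this
    have := card_le_card hA'
    omega
  · have := hmin ((C'.biUnion fun l => univ.filter fun a => (a, l) ∈ H) ∪ AC.1, AC.2 \ C') (by
      refine mem_filter.2 ⟨mem_univ _, fun e he => ?_⟩
      by_cases h : e.2 ∈ C'
      · exact Or.inl (mem_union_left _ (mem_biUnion.2 ⟨e.2, h, by simpa using he⟩))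
      · rcases hcov e he with h' | h'
        · exact Or.inl (mem_union_right _ h')
        · exact Or.inr (mem_sdiff.2 ⟨h', h⟩))
    simp only at this
    rw [← card_sdiff_add_card, card_sdiff_of_subset hC'] at this
    have := card_le_card hC'
    omega

lemma term_bound {p ε : ℝ} {z : ℕ} (hp : 0 < p) (hp1 : p ≤ 1) (hε : 0 ≤ ε) (hG : Cod G p ε (2 * z))
    {α β ι₁ ι₂ : Type*} [DecidableEq α] [DecidableEq β] [Fintype ι₁] [DecidableEq ι₁] [Fintype ι₂]
    [DecidableEq ι₂]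
    (hz₁ : Fintype.card ι₁ ≤ z) (hz₂ : Fintype.card ι₂ ≤ z) (v0 : V)
    (X : Finset α) (f : α → ι₁ → V) (hf : ∀ x ∈ X, Function.Injective (f x))
    (Y : Finset β) (g : β → ι₂ → V) (hg : ∀ y ∈ Y, Function.Injective (g y))
    {lam Λ₁ Λ₂ t : ℝ} (hl : 1 ≤ lam) (hlN : lam ≤ Fintype.card V)
    (hX : SprL X (fun x => univ.image (f x)) lam Λ₁)
    (hY : SprL Y (fun y => univ.image (g y)) lam Λ₂) (ht0 : 0 ≤ t) (ht1 : t ≤ 1)
    (hΘ : (Fintype.card V / lam) ^ 3 * (2 * p⁻¹) ^ (4 * z) * (2 * ε + lam⁻¹) ≤ t ^ 4)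
    (H : Finset (ι₁ × ι₂)) : ∃ AC : Finset ι₁ × Finset ι₂, (∀ e ∈ H, e.1 ∈ AC.1 ∨ e.2 ∈ AC.2) ∧
    |∑ x ∈ X, ∑ y ∈ Y, ∏ e ∈ H, xi G p (f x e.1) (g y e.2)| ≤
      Λ₁ * Λ₂ * 2 ^ z * t ^ (AC.1.card + AC.2.card) := by
  obtain ⟨A, C, hcov, hA, hC⟩ := exists_cover H
  have hl0 : 0 < lam := by linarith
  have hΛ₁ : 0 ≤ Λ₁ := le_trans (by positivity) (hX ∅)
  have hΛ₂ : 0 ≤ Λ₂ := le_trans (by positivity) (hY ∅)
  have hΘ0 : 0 ≤ (Fintype.card V / lam) ^ 3 * (2 * p⁻¹) ^ (4 * z) * (2 * ε + lam⁻¹) := by positivity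
  refine ⟨(A, C), hcov, abs_le_of_sq_le_sq ?_ (by positivity)⟩
  have key : ∀ m : ℕ, A.card + C.card ≤ 2 * m → (Λ₁ * Λ₂) ^ 2 * 2 ^ z *
      ((Fintype.card V / lam) ^ 3 * (2 * p⁻¹) ^ (4 * z) * (2 * ε + lam⁻¹)) ^ m ≤
      (Λ₁ * Λ₂ * 2 ^ z * t ^ (A.card + C.card)) ^ 2 := by
    intro m hm
    have h1 : (2 : ℝ) ^ z ≤ (2 ^ z) ^ 2 := le_self_pow₀ (one_le_pow₀ (by norm_num)) (by norm_num)
    have h2 : (t ^ 4) ^ m ≤ (t ^ (A.card + C.card)) ^ 2 := by
      rw [← pow_mul, ← pow_mul]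
      exact pow_le_pow_of_le_one ht0 ht1 (by omega)
    have h3 := (pow_le_pow_left₀ hΘ0 hΘ m).trans h2
    rw [mul_pow (Λ₁ * Λ₂ * 2 ^ z), mul_pow (Λ₁ * Λ₂)]
    gcongr
  rcases le_total C.card A.card with h | h
  · exact (one_sided G hp hp1 hε hG hz₁ hz₂ v0 X f hf Y g hg hl hlN hX hY H A C hcov hA h).trans
      (key _ (by omega))
  · have h1 := one_sided G hp hp1 hε hG hz₂ hz₁ v0 Y g hg X f hf hl hlN hY hX
      (H.map (Equiv.prodComm ι₁ ι₂).toEmbedding) C A (by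
        intro e he
        obtain ⟨e', he', rfl⟩ := mem_map.1 he
        exact (hcov e' he').symm) (by
        intro C' hC'
        have := hC C' hC'
        simpa using this) h
    rw [sum_comm] at h1
    simp only [prod_map, Equiv.coe_toEmbedding, Equiv.prodComm_apply, Prod.fst_swap,
      Prod.snd_swap] at h1
    simp only [xi_comm G p (g _ _)] at h1
    refine h1.trans ?_
    rw [mul_comm Λ₂]
    exact key _ (by omega)

lemma cover_sum {ι₁ ι₂ : Type*} [Fintype ι₁] [DecidableEq ι₁] [Fintype ι₂] [DecidableEq ι₂] {z : ℕ}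
    (hz₁ : Fintype.card ι₁ ≤ z) (hz₂ : Fintype.card ι₂ ≤ z)
    (cv : Finset (ι₁ × ι₂) → Finset ι₁ × Finset ι₂)
    (hcv : ∀ H, ∀ e ∈ H, e.1 ∈ (cv H).1 ∨ e.2 ∈ (cv H).2) {t : ℝ} (ht0 : 0 ≤ t)
    (ht : 2 * z * (2 ^ z * t) ≤ 1) :
    ∑ H ∈ (univ : Finset (ι₁ × ι₂)).powerset.erase ∅, t ^ ((cv H).1.card + (cv H).2.card) ≤
      4 * z * (2 ^ z * t) := by
  have hmaps : ∀ H ∈ (univ : Finset (ι₁ × ι₂)).powerset.erase ∅,
      cv H ∈ ((univ : Finset ι₁).powerset ×ˢ (univ : Finset ι₂).powerset).erase (∅, ∅) := by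
    intro H hH
    refine mem_erase.2 ⟨fun h => ?_, by simp⟩
    obtain ⟨e, he⟩ := nonempty_iff_ne_empty.2 (mem_erase.1 hH).1
    have := hcv H e he
    simp [h] at this
  rw [← sum_fiberwise_of_maps_to hmaps]
  have h1 : ∀ AC ∈ ((univ : Finset ι₁).powerset ×ˢ (univ : Finset ι₂).powerset).erase (∅, ∅),
      ∑ H ∈ ((univ : Finset (ι₁ × ι₂)).powerset.erase ∅).filter (fun H => cv H = AC),
        t ^ ((cv H).1.card + (cv H).2.card) ≤ (2 ^ z * t) ^ AC.1.card * (2 ^ z * t) ^ AC.2.card := by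
    intro AC _
    rw [sum_congr rfl (g := fun _ => t ^ (AC.1.card + AC.2.card))
      (fun H hH => by rw [(mem_filter.1 hH).2]), sum_const, nsmul_eq_mul, ← pow_add, mul_pow,
      ← pow_mul]
    refine mul_le_mul_of_nonneg_right ?_ (by positivity)
    have h2 : (((univ : Finset (ι₁ × ι₂)).powerset.erase ∅).filter (fun H => cv H = AC)) ⊆
        (AC.1 ×ˢ univ ∪ univ ×ˢ AC.2).powerset := by
      intro H hH
      refine mem_powerset.2 fun e he => ?_
      have := hcv H e he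
      rw [(mem_filter.1 hH).2] at this
      simpa using this
    have h3 : (AC.1 ×ˢ (univ : Finset ι₂) ∪ (univ : Finset ι₁) ×ˢ AC.2).card ≤
        z * (AC.1.card + AC.2.card) := by
      refine (card_union_le _ _).trans ?_
      rw [card_product, card_product, card_univ, card_univ, mul_add, mul_comm z]
      exact Nat.add_le_add (Nat.mul_le_mul_left _ hz₂) (Nat.mul_le_mul_right _ hz₁)
    have h4 := (card_le_card h2).trans ((card_powerset _).le.trans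
      (Nat.pow_le_pow_right (by norm_num) h3))
    exact_mod_cast h4
  refine (sum_le_sum h1).trans ?_
  generalize hx : (2 : ℝ) ^ z * t = x at ht ⊢
  have hx0 : 0 ≤ x := hx ▸ by positivity
  have h5 := add_sum_erase ((univ : Finset ι₁).powerset ×ˢ (univ : Finset ι₂).powerset)
    (fun AC => x ^ AC.1.card * x ^ AC.2.card) (a := (∅, ∅)) (by simp)
  rw [sum_product] at h5
  simp only [] at h5
  rw [← sum_mul_sum] at h5
  have h7 : ∑ A ∈ (univ : Finset ι₁).powerset, x ^ A.card = (1 + x) ^ Fintype.card ι₁ := by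
    rw [add_comm, ← card_univ, ← sum_pow_mul_eq_add_pow]
    simp
  have h8 : ∑ A ∈ (univ : Finset ι₂).powerset, x ^ A.card = (1 + x) ^ Fintype.card ι₂ := by
    rw [add_comm, ← card_univ, ← sum_pow_mul_eq_add_pow]
    simp
  rw [h7, h8, ← pow_add (1 + x)] at h5
  have h9 : (1 + x) ^ (Fintype.card ι₁ + Fintype.card ι₂) ≤ Real.exp (2 * z * x) := by
    calc _ ≤ (1 + x) ^ (2 * z) := pow_le_pow_right₀ (by linarith) (by omega)
      _ ≤ (Real.exp x) ^ (2 * z) := by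
          gcongr
          linarith [Real.add_one_le_exp x]
      _ = _ := by rw [← Real.exp_nat_mul]; push_cast; rfl
  have h10 := Real.abs_exp_sub_one_le (x := 2 * z * x) (by rwa [abs_of_nonneg (by positivity)])
  rw [abs_of_nonneg (by positivity : 0 ≤ 2 * z * x)] at h10
  have h11 := le_abs_self (Real.exp (2 * z * x) - 1)
  simp only [card_empty, pow_zero, mul_one] at h5
  linarith

/-- All vertices of `B` are adjacent to all vertices of `B'`. -/
def Cross (B B' : Finset V) : Prop := ∀ u ∈ B, ∀ w ∈ B', G.Adj u w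

instance (B B' : Finset V) : Decidable (Cross G B B') := by unfold Cross; infer_instance

lemma Cross.symm {G : SimpleGraph V} {B B' : Finset V} (h : Cross G B B') : Cross G B' B :=
  fun u hu w hw => (h w hw u hu).symm

lemma enum {γ : Type*} (v0 : V) (Z : Finset γ) (h : γ → Finset V) (d : ℕ)
    (hd : ∀ x ∈ Z, (h x).card = d) : ∃ e : γ → Fin d → V, ∀ x ∈ Z,
        Function.Injective (e x) ∧ univ.image (e x) = h x := by
  have : ∀ x, ∃ e : Fin d → V, x ∈ Z → Function.Injective e ∧ univ.image e = h x := by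
    intro x
    by_cases hx : x ∈ Z
    · let E := (h x).equivFinOfCardEq (hd x hx)
      refine ⟨fun i => (E.symm i : V), fun _ => ⟨?_, ?_⟩⟩
      · exact Subtype.val_injective.comp E.symm.injective
      · ext w
        simp only [mem_image, mem_univ, true_and]
        constructor
        · rintro ⟨i, rfl⟩; exact (E.symm i).2
        · intro hw; exact ⟨E ⟨w, hw⟩, by simp⟩
    · exact ⟨fun _ => v0, fun h => absurd h hx⟩
  choose e he using this
  exact ⟨e, he⟩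

/-- Two spread families have about the expected number of completely joined pairs. -/
theorem ext_bound {p ε : ℝ} {z : ℕ} (hp : 0 < p) (hp1 : p ≤ 1) (hε : 0 ≤ ε)
    (hG : Cod G p ε (2 * z)) {α β : Type*} [DecidableEq α] [DecidableEq β] (v0 : V)
    {d₁ d₂ : ℕ} (hz₁ : d₁ ≤ z) (hz₂ : d₂ ≤ z)
    (X : Finset α) (f : α → Finset V) (hf : ∀ x ∈ X, (f x).card = d₁)
    (Y : Finset β) (g : β → Finset V) (hg : ∀ y ∈ Y, (g y).card = d₂)
    {lam Λ₁ Λ₂ η : ℝ} (hl : 1 ≤ lam) (hlN : lam ≤ Fintype.card V)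
    (hX : SprL X f lam Λ₁) (hY : SprL Y g lam Λ₂) (hη : 0 ≤ η) (hη1 : η ≤ 1)
    (hΘ : (4 * (z + 1) * 4 ^ z) ^ 4 *
      ((Fintype.card V / lam) ^ 3 * (2 * p⁻¹) ^ (4 * z) * (2 * ε + lam⁻¹)) ≤ η ^ 4) :
    |(p⁻¹) ^ (d₁ * d₂) * (((X ×ˢ Y).filter fun e => Cross G (f e.1) (g e.2)).card : ℝ) -
      X.card * Y.card| ≤ η * (Λ₁ * Λ₂) := by
  have hl0 : 0 < lam := by linarith
  have hΛ₁ : 0 ≤ Λ₁ := le_trans (by positivity) (hX ∅)
  have hΛ₂ : 0 ≤ Λ₂ := le_trans (by positivity) (hY ∅)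
  obtain ⟨e₁, he₁⟩ := enum v0 X f d₁ hf
  obtain ⟨e₂, he₂⟩ := enum v0 Y g d₂ hg
  have hX' : SprL X (fun x => univ.image (e₁ x)) lam Λ₁ := by
    intro B
    rw [filter_congr (q := fun x => B ⊆ f x) (fun x hx => by simp only [(he₁ x hx).2])]
    exact hX B
  have hY' : SprL Y (fun y => univ.image (e₂ y)) lam Λ₂ := by
    intro B
    rw [filter_congr (q := fun y => B ⊆ g y) (fun y hy => by simp only [(he₂ y hy).2])]
    exact hY B
  have h4 : (1 : ℝ) ≤ 4 ^ z := one_le_pow₀ (by norm_num)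
  have h2 : (1 : ℝ) ≤ 2 ^ z := one_le_pow₀ (by norm_num)
  have h42 : (4 : ℝ) ^ z = 2 ^ z * 2 ^ z := by rw [← mul_pow]; norm_num
  have hz0 : (0 : ℝ) ≤ z := Nat.cast_nonneg _
  have ht : 4 * (z + 1) * 4 ^ z * (η / (4 * (z + 1) * 4 ^ z)) = η := by field_simp
  have ht0 : 0 ≤ η / (4 * (z + 1) * 4 ^ z) := by positivity
  have hΘ' : (Fintype.card V / lam) ^ 3 * (2 * p⁻¹) ^ (4 * z) * (2 * ε + lam⁻¹) ≤
      (η / (4 * (z + 1) * 4 ^ z)) ^ 4 := by
    rw [div_pow η, le_div_iff₀' (by positivity)]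
    exact hΘ
  generalize η / (4 * (z + 1) * 4 ^ z) = t at ht ht0 hΘ'
  have ht2 : 2 ^ z * (4 * z * (2 ^ z * t)) ≤ η := by
    rw [← ht, h42]
    have : 0 ≤ 2 ^ z * 2 ^ z * t := by positivity
    nlinarith
  have ht3 : 0 ≤ z * (2 ^ z * t) := by positivity
  have ht1 : t ≤ 1 := by
    refine le_trans (le_mul_of_one_le_left ht0 ?_) (ht.le.trans hη1)
    nlinarith
  choose cv hcv hterm using term_bound G hp hp1 hε hG (ι₁ := Fin d₁) (ι₂ := Fin d₂)
    (by simpa using hz₁) (by simpa using hz₂) v0 X e₁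
      (fun x hx => (he₁ x hx).1) Y e₂ (fun y hy => (he₂ y hy).1) hl hlN hX' hY' ht0 ht1 hΘ'
  have hexp : (p⁻¹) ^ (d₁ * d₂) * (((X ×ˢ Y).filter fun e => Cross G (f e.1) (g e.2)).card : ℝ) =
      ∑ H ∈ (univ : Finset (Fin d₁ × Fin d₂)).powerset,
        ∑ x ∈ X, ∑ y ∈ Y, ∏ e ∈ H, xi G p (e₁ x e.1) (e₂ y e.2) := by
    rw [sum_comm, card_filter, Nat.cast_sum, mul_sum, sum_product]
    refine sum_congr rfl fun x hx => ?_
    rw [sum_comm]
    refine sum_congr rfl fun y hy => ?_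
    rw [← prod_add_one]
    simp only [xi, sub_add_cancel]
    by_cases hc : Cross G (f x) (g y)
    · rw [if_pos hc, prod_congr rfl (g := fun _ => p⁻¹)]
      · simp
      · intro e _
        rw [if_pos]
        apply hc
        · rw [← (he₁ x hx).2]; exact mem_image.2 ⟨_, mem_univ _, rfl⟩
        · rw [← (he₂ y hy).2]; exact mem_image.2 ⟨_, mem_univ _, rfl⟩
    · rw [if_neg hc]
      simp only [Cross, not_forall] at hc
      obtain ⟨u, hu, w, hw, huw⟩ := hc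
      rw [← (he₁ x hx).2] at hu
      rw [← (he₂ y hy).2] at hw
      obtain ⟨a, _, rfl⟩ := mem_image.1 hu
      obtain ⟨l, _, rfl⟩ := mem_image.1 hw
      rw [prod_eq_zero (mem_univ (a, l)) (by simp [huw])]
      simp
  rw [hexp, ← add_sum_erase _ _ (empty_mem_powerset _)]
  simp only [prod_empty, sum_const, nsmul_eq_mul, mul_one, add_sub_cancel_left]
  refine (abs_sum_le_sum_abs _ _).trans ((sum_le_sum fun H _ => hterm H).trans ?_)
  rw [← mul_sum]
  have h5 := cover_sum (ι₁ := Fin d₁) (ι₂ := Fin d₂) (by simpa using hz₁) (by simpa using hz₂) cv hcv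
    ht0 (by nlinarith)
  calc _ ≤ Λ₁ * Λ₂ * 2 ^ z * (4 * z * (2 ^ z * t)) := by gcongr
    _ = 2 ^ z * (4 * z * (2 ^ z * t)) * (Λ₁ * Λ₂) := by ring
    _ ≤ _ := by gcongr

end Pool.Agent.Lib.MP_7836d5_lc.Avg
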