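import Pool.Agent.Lib.MP_7836d5_lc.Avg.Xi

set_option autoImplicit false
set_option linter.unusedSectionVars false

namespace Pool.Agent.Lib.MP_7836d5_lc.Avg

open Finset MeasureTheory ProbabilityTheory SimpleGraph

variable {V : Type*} [Fintype V] [DecidableEq V] (p : unitInterval)

lemma msc : MeasurableSingletonClass (SimpleGraph V) := ⟨fun G => by
  have : ({G} : Set (SimpleGraph V)) = edgeSet ⁻¹' {G.edgeSet} := by
    ext H
    simp
  rw [this]
  exact measurable_edgeSet (measurableSet_singleton _)⟩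

lemma edges_prob (S : Finset (Sym2 V)) (hS : ∀ e ∈ S, ¬ e.IsDiag) :
    (binomialRandom V p).real {G | ∀ e ∈ S, e ∈ G.edgeSet} = (p : ℝ) ^ S.card := by
  have := msc (V := V)
  rw [binomialRandom_eq_map, measureReal_def, Measure.map_apply measurable_fromEdgeSet
    MeasurableSet.of_discrete, setBernoulli_apply']
  have h1 : ((fun q : Sym2 V → Prop => {i | q i}) ⁻¹'
      (fromEdgeSet ⁻¹' {G : SimpleGraph V | ∀ e ∈ S, e ∈ G.edgeSet})) =
      Set.pi (S : Set (Sym2 V)) fun _ => {True} := by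
    ext q
    simp only [Set.mem_preimage, Set.mem_ofPred_eq, edgeSet_fromEdgeSet, Set.mem_pi, mem_coe,
      Set.mem_singleton_iff, eq_iff_iff, iff_true]
    exact forall₂_congr fun e he => ⟨fun h => h.1, fun h => ⟨h, hS e he⟩⟩
  rw [h1, Measure.infinitePi_pi _ (fun _ _ => MeasurableSet.of_discrete),
    prod_congr rfl (g := fun _ => (unitInterval.toNNReal p : ENNReal))]
  · simp
  · intro e he
    simp [hS e he]

open Classical in
lemma mgf (Z : Finset V) (x : ℝ) :
    ∫ G, (1 + x) ^ (cnb G Z).card ∂(binomialRandom V p) = (1 + x * (p : ℝ) ^ Z.card) ^ Zᶜ.card := by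
  have := msc (V := V)
  have h1 : ∀ G : SimpleGraph V, (1 + x) ^ (cnb G Z).card = ∑ T ∈ Zᶜ.powerset,
      {G : SimpleGraph V | ∀ e ∈ (T ×ˢ Z).image Sym2.mk.uncurry, e ∈ G.edgeSet}.indicator
        (fun _ => x ^ T.card) G := by
    intro G
    have h2 : (1 + x) ^ (cnb G Z).card = ∑ T ∈ (cnb G Z).powerset, x ^ T.card := by
      rw [add_comm, ← sum_pow_mul_eq_add_pow]
      simp
    have h3 : ∀ T : Finset V, G ∈ {G : SimpleGraph V | ∀ e ∈ (T ×ˢ Z).image Sym2.mk.uncurry,
        e ∈ G.edgeSet} ↔ T ⊆ cnb G Z := by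
      intro T
      simp only [Set.mem_ofPred_eq, forall_mem_image, mem_product, cnb]
      constructor
      · intro h u hu
        exact mem_filter.2 ⟨mem_univ _, fun w hw => h (x := (u, w)) ⟨hu, hw⟩⟩
      · intro h e he
        exact (mem_filter.1 (h he.1)).2 _ he.2
    simp only [Set.indicator_apply, h3]
    rw [h2, ← sum_filter]
    refine sum_congr ?_ fun _ _ => rfl
    ext T
    simp only [mem_powerset, mem_filter, iff_and_self]
    intro h u hu
    exact mem_compl.2 fun hz => G.irrefl ((mem_filter.1 (h hu)).2 u hz)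
  simp only [h1]
  rw [integral_finsetSum _ (fun _ _ => Integrable.of_finite), add_comm,
    ← sum_pow_mul_eq_add_pow]
  refine sum_congr rfl fun T hT => ?_
  have h4 : ∀ u ∈ T, ∀ w ∈ Z, u ≠ w := fun u hu w hw h =>
    mem_compl.1 (mem_powerset.1 hT hu) (h ▸ hw)
  rw [integral_indicator_const _ MeasurableSet.of_discrete, edges_prob, card_image_of_injOn,
    card_product]
  · simp only [smul_eq_mul, one_pow, mul_one]
    ring
  · intro e he e' he' h
    have h5 := mem_product.1 he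
    have h6 := mem_product.1 he'
    rcases Sym2.eq_iff.1 h with h | h
    · exact Prod.ext h.1 h.2
    · exact absurd h.1 (h4 _ h5.1 _ h6.2)
  · intro e he
    obtain ⟨a, ha, rfl⟩ := mem_image.1 he
    exact fun h => h4 _ (mem_product.1 ha).1 _ (mem_product.1 ha).2 (Sym2.mk_isDiag_iff.1 h)

open Classical in
lemma tail_up (Z : Finset V) {ε : ℝ} (hε : 0 ≤ ε) (hε1 : ε ≤ 1) :
    (binomialRandom V p).real {G | (1 + ε) * (Fintype.card V * (p : ℝ) ^ Z.card) ≤ (cnb G Z).card} ≤
      Real.exp (-(ε ^ 2 * (Fintype.card V * (p : ℝ) ^ Z.card) / 6)) := by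
  have := msc (V := V)
  have hp : (0 : ℝ) ≤ p := p.2.1
  have h0 : (Zᶜ.card : ℝ) ≤ Fintype.card V := by exact_mod_cast card_le_univ _
  have h1 := mul_meas_ge_le_integral_of_nonneg (μ := binomialRandom V p)
    (f := fun G => (1 + ε / 2) ^ (cnb G Z).card) (ae_of_all _ fun G => by positivity)
    Integrable.of_finite
    (Real.exp (ε / 2 / (1 + ε / 2) * ((1 + ε) * (Fintype.card V * (p : ℝ) ^ Z.card))))
  rw [mgf] at h1
  have h2 : (1 + ε / 2 * (p : ℝ) ^ Z.card) ^ Zᶜ.card ≤
      Real.exp (ε / 2 * (Fintype.card V * (p : ℝ) ^ Z.card)) := by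
    calc _ ≤ (Real.exp (ε / 2 * (p : ℝ) ^ Z.card)) ^ Zᶜ.card := by
          gcongr
          linarith [Real.add_one_le_exp (ε / 2 * (p : ℝ) ^ Z.card)]
      _ = Real.exp (Zᶜ.card * (ε / 2 * (p : ℝ) ^ Z.card)) := by rw [← Real.exp_nat_mul]
      _ ≤ Real.exp (Fintype.card V * (ε / 2 * (p : ℝ) ^ Z.card)) := by gcongr
      _ = _ := by ring_nf
  have hμ : 0 ≤ Fintype.card V * (p : ℝ) ^ Z.card := by positivity
  generalize Fintype.card V * (p : ℝ) ^ Z.card = μ at h1 h2 hμ ⊢
  have h3 := h1.trans h2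
  rw [← le_div_iff₀' (Real.exp_pos _), ← Real.exp_sub] at h3
  refine le_trans (measureReal_mono fun G hG => ?_) (h3.trans (Real.exp_le_exp.2 ?_))
  · have h4 : ε / 2 / (1 + ε / 2) ≤ Real.log (1 + ε / 2) := by
      have := Real.one_sub_inv_le_log_of_pos (x := 1 + ε / 2) (by positivity)
      refine le_trans (le_of_eq ?_) this
      field_simp
      ring
    have hG' : (1 + ε) * μ ≤ (cnb G Z).card := hG
    rw [Set.mem_ofPred_eq]
    calc _ ≤ Real.exp (Real.log (1 + ε / 2) * (cnb G Z).card) := by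
          gcongr
          exact Real.log_nonneg (by linarith)
      _ = _ := by rw [mul_comm, Real.exp_nat_mul, Real.exp_log (by positivity)]
  · have h5 : ε / 2 + ε ^ 2 / 6 ≤ ε / 2 / (1 + ε / 2) * (1 + ε) := by
      rw [div_mul_eq_mul_div, le_div_iff₀ (by positivity)]
      nlinarith [mul_nonneg hε hε, mul_nonneg (mul_nonneg hε hε) (sub_nonneg.2 hε1)]
    nlinarith

open Classical in
lemma tail_lo (Z : Finset V) {ε : ℝ} (hε : 0 ≤ ε) (hε1 : ε ≤ 1) :
    (binomialRandom V p).real {G | ((cnb G Z).card : ℝ) ≤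
      (1 - ε) * (Fintype.card V * (p : ℝ) ^ Z.card)} ≤
      Real.exp (Z.card - ε ^ 2 * (Fintype.card V * (p : ℝ) ^ Z.card) / 6) := by
  have := msc (V := V)
  have hp : (0 : ℝ) ≤ p := p.2.1
  have hp1 : (p : ℝ) ^ Z.card ≤ 1 := pow_le_one₀ hp p.2.2
  have hp0 : 0 ≤ (p : ℝ) ^ Z.card := by positivity
  have he : 0 < 1 - ε / 2 := by linarith
  have h0 : (Zᶜ.card : ℝ) = Fintype.card V - Z.card := by
    rw [eq_sub_iff_add_eq]
    exact_mod_cast card_compl_add_card Z
  have h1 := mul_meas_ge_le_integral_of_nonneg (μ := binomialRandom V p)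
    (f := fun G => (1 + -(ε / 2)) ^ (cnb G Z).card)
    (ae_of_all _ fun G => pow_nonneg (by linarith) _) Integrable.of_finite
    (Real.exp (-(ε / 2 / (1 - ε / 2) * ((1 - ε) * (Fintype.card V * (p : ℝ) ^ Z.card)))))
  rw [mgf] at h1
  have h2 : (1 + -(ε / 2) * (p : ℝ) ^ Z.card) ^ Zᶜ.card ≤
      Real.exp (Z.card - ε / 2 * (Fintype.card V * (p : ℝ) ^ Z.card)) := by
    calc _ ≤ (Real.exp (-(ε / 2) * (p : ℝ) ^ Z.card)) ^ Zᶜ.card := by
          refine pow_le_pow_left₀ (by nlinarith) ?_ _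
          linarith [Real.add_one_le_exp (-(ε / 2) * (p : ℝ) ^ Z.card)]
      _ = Real.exp (Zᶜ.card * (-(ε / 2) * (p : ℝ) ^ Z.card)) := by rw [← Real.exp_nat_mul]
      _ ≤ _ := by
          rw [h0]
          refine Real.exp_le_exp.2 ?_
          have h3 : ε / 2 * (p : ℝ) ^ Z.card ≤ 1 := by nlinarith
          have h4 : (0 : ℝ) ≤ Z.card := Nat.cast_nonneg _
          nlinarith
  have hμ : 0 ≤ Fintype.card V * (p : ℝ) ^ Z.card := by positivity
  generalize Fintype.card V * (p : ℝ) ^ Z.card = μ at h1 h2 hμ ⊢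
  have h3 := h1.trans h2
  rw [← le_div_iff₀' (Real.exp_pos _), ← Real.exp_sub] at h3
  refine le_trans (measureReal_mono fun G hG => ?_) (h3.trans (Real.exp_le_exp.2 ?_))
  · have h4 : -Real.log (1 - ε / 2) ≤ ε / 2 / (1 - ε / 2) := by
      have := Real.one_sub_inv_le_log_of_pos he
      have h5 : ε / 2 / (1 - ε / 2) = -(1 - (1 - ε / 2)⁻¹) := by
        rw [neg_sub, div_eq_iff he.ne', sub_mul, inv_mul_cancel₀ he.ne']
        ring
      linarith
    have hG' : ((cnb G Z).card : ℝ) ≤ (1 - ε) * μ := hG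
    have h6 : 0 ≤ ε / 2 / (1 - ε / 2) := by positivity
    rw [Set.mem_ofPred_eq]
    calc _ ≤ Real.exp (Real.log (1 - ε / 2) * (cnb G Z).card) := by
          refine Real.exp_le_exp.2 ?_
          have h7 : -Real.log (1 - ε / 2) * (cnb G Z).card ≤ ε / 2 / (1 - ε / 2) * ((1 - ε) * μ) :=
            mul_le_mul h4 hG' (Nat.cast_nonneg _) h6
          linarith
      _ = _ := by rw [mul_comm, Real.exp_nat_mul, Real.exp_log he, sub_eq_add_neg]
  · have h5 : ε / 2 / (1 - ε / 2) * (1 - ε) ≤ ε / 2 - ε ^ 2 / 6 := by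
      rw [div_mul_eq_mul_div, div_le_iff₀ he]
      nlinarith [mul_nonneg hε hε, mul_nonneg (mul_nonneg hε hε) hε]
    nlinarith

open Classical in
lemma cod_prob {ε : ℝ} (hε : 0 ≤ ε) (hε1 : ε ≤ 1) (z : ℕ) (hV : 0 < Fintype.card V) :
    (binomialRandom V p).real {G | ¬ Cod G p ε z} ≤ (z + 1) * (Fintype.card V : ℝ) ^ z *
      (2 * Real.exp (z - ε ^ 2 * (Fintype.card V * (p : ℝ) ^ z) / 6)) := by
  have hp : (0 : ℝ) ≤ p := p.2.1
  have hsub : {G : SimpleGraph V | ¬ Cod G p ε z} ⊆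
      ⋃ Z ∈ (univ.filter fun Z : Finset V => Z.card ≤ z),
        ({G | (1 + ε) * (Fintype.card V * (p : ℝ) ^ Z.card) ≤ (cnb G Z).card} ∪
        {G | ((cnb G Z).card : ℝ) ≤ (1 - ε) * (Fintype.card V * (p : ℝ) ^ Z.card)}) := by
    intro G hG
    simp only [Cod, Set.mem_ofPred_eq, not_forall, not_le] at hG
    obtain ⟨Z, hZ, h⟩ := hG
    refine Set.mem_biUnion (mem_coe.2 (mem_filter.2 ⟨mem_univ Z, hZ⟩)) ?_
    rcases lt_abs.1 h with h | h
    · exact Or.inl (by rw [Set.mem_ofPred_eq]; linarith)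
    · exact Or.inr (by rw [Set.mem_ofPred_eq]; linarith)
  refine (measureReal_mono hsub (measure_ne_top _ _)).trans ((measureReal_biUnion_finset_le _ _).trans ?_)
  calc _ ≤ ∑ _Z ∈ (univ.filter fun Z : Finset V => Z.card ≤ z),
        (2 * Real.exp (z - ε ^ 2 * (Fintype.card V * (p : ℝ) ^ z) / 6)) := by
        refine sum_le_sum fun Z hZ => (measureReal_union_le _ _).trans ?_
        have h1 := (mem_filter.1 hZ).2
        have h2 : (Z.card : ℝ) ≤ z := by exact_mod_cast h1
        have h3 : (p : ℝ) ^ z ≤ (p : ℝ) ^ Z.card := pow_le_pow_of_le_one hp p.2.2 h1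
        have h4 : ε ^ 2 * (Fintype.card V * (p : ℝ) ^ z) ≤
            ε ^ 2 * (Fintype.card V * (p : ℝ) ^ Z.card) := by gcongr
        have h5 : (0 : ℝ) ≤ z := Nat.cast_nonneg _
        rw [two_mul]
        exact add_le_add ((tail_up p Z hε hε1).trans (Real.exp_le_exp.2 (by linarith)))
          ((tail_lo p Z hε hε1).trans (Real.exp_le_exp.2 (by linarith)))
    _ ≤ _ := by
        rw [sum_const, nsmul_eq_mul]
        refine mul_le_mul_of_nonneg_right ?_ (by positivity)
        have h1 : (univ.filter fun Z : Finset V => Z.card ≤ z) ⊆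
            (range (z + 1)).biUnion fun j => powersetCard j univ := fun Z hZ =>
          mem_biUnion.2 ⟨Z.card, mem_range.2 (Nat.lt_succ_of_le (mem_filter.1 hZ).2),
            mem_powersetCard.2 ⟨subset_univ _, rfl⟩⟩
        have h2 : (univ.filter fun Z : Finset V => Z.card ≤ z).card ≤
            (z + 1) * Fintype.card V ^ z := by
          refine (card_le_card h1).trans (card_biUnion_le.trans ?_)
          calc _ ≤ ∑ _j ∈ range (z + 1), Fintype.card V ^ z := by
                refine sum_le_sum fun j hj => ?_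
                rw [card_powersetCard, card_univ]
                exact (Nat.choose_le_pow _ _).trans
                  (Nat.pow_le_pow_right hV (Nat.lt_succ_iff.1 (mem_range.1 hj)))
            _ = _ := by simp
        exact_mod_cast h2

lemma clique_prob (k : ℕ) :
    (binomialRandom V p).real {G | ¬ G.CliqueFree k} ≤
      (Fintype.card V : ℝ) ^ k * (p : ℝ) ^ k.choose 2 := by
  have hp : (0 : ℝ) ≤ p := p.2.1
  have hsub : {G : SimpleGraph V | ¬ G.CliqueFree k} ⊆ ⋃ S ∈ powersetCard k (univ : Finset V),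
      {G | ∀ e ∈ S.offDiag.image Sym2.mk.uncurry, e ∈ G.edgeSet} := by
    intro G hG
    simp only [CliqueFree, Set.mem_ofPred_eq, not_forall, not_not] at hG
    obtain ⟨S, hS⟩ := hG
    refine Set.mem_biUnion (mem_coe.2 (mem_powersetCard.2 ⟨subset_univ S, hS.2⟩)) ?_
    intro e he
    obtain ⟨a, ha, rfl⟩ := mem_image.1 he
    obtain ⟨h1, h2, h3⟩ := mem_offDiag.1 ha
    exact hS.1 h1 h2 h3
  refine (measureReal_mono hsub (measure_ne_top _ _)).trans ((measureReal_biUnion_finset_le _ _).trans ?_)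
  rw [sum_congr rfl (g := fun _ => (p : ℝ) ^ k.choose 2), sum_const, nsmul_eq_mul,
    card_powersetCard, card_univ]
  · gcongr
    exact_mod_cast Nat.choose_le_pow _ _
  · intro S hS
    rw [edges_prob, Sym2.card_image_offDiag, (mem_powersetCard.1 hS).2]
    intro e he
    obtain ⟨a, ha, rfl⟩ := mem_image.1 he
    exact fun h => (mem_offDiag.1 ha).2.2 (Sym2.mk_isDiag_iff.1 h)

end Pool.Agent.Lib.MP_7836d5_lc.Avg
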