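import Pool.Agent.Lib.MP_7836d5_lc.Avg.Inst
import Pool.Agent.Lib.MP_7836d5_lc.Avg.Rand

set_option autoImplicit false

namespace Pool.Agent.Lib.MP_7836d5_lc.Avg

open Finset MeasureTheory SimpleGraph Filter

lemma Num.tail {n k r κ m : ℕ} {p D T : ℝ} (H : Num n k r κ m p D T) :
    (((4 * κ + 4 * (r * m) : ℕ) : ℝ) + 1) * (n : ℝ) ^ (4 * κ + 4 * (r * m)) *
      (2 * Real.exp (((4 * κ + 4 * (r * m) : ℕ) : ℝ) -
        ((D ^ r) ^ 100)⁻¹ ^ 2 * (n * p ^ (4 * κ + 4 * (r * m))) / 6)) ≤ 1 / n := by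
  have hD := H.D1
  have hE := H.DE1
  have hT := H.T2
  have hp := H.hp
  have hn : (0 : ℝ) < n := by rw [H.hN]; positivity
  have h1 : D ≤ ((D ^ r) ^ 100)⁻¹ ^ 2 * (n * p ^ (4 * κ + 4 * (r * m))) := by
    have h2 : (p⁻¹) ^ (4 * κ + 4 * (r * m)) ≤ (D ^ r) ^ 4 * D ^ r := by
      rw [pow_add, mul_comm 4 κ, pow_mul]
      have := H.q1.1
      have := H.q2.1.trans hE
      gcongr
    have h3 := inv_anti₀ (by positivity) h2
    rw [← inv_pow, inv_inv] at h3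
    rw [H.hN]
    generalize D ^ r = E at hE h3 ⊢
    have hE1 : 1 ≤ E := by linarith
    calc D ≤ E ^ 51 := hE.trans (le_self_pow₀ hE1 (by norm_num))
      _ = (E ^ 100)⁻¹ ^ 2 * (E ^ 256 * (E ^ 4 * E)⁻¹) := by field_simp
      _ ≤ _ := by gcongr
  have h4 : ((4 * κ + 4 * (r * m) : ℕ) : ℝ) ≤ 8 * T ^ 2 := by
    have h5 : (r : ℝ) * m ≤ T * T := mul_le_mul H.hT4 H.hT3 (by positivity) (by linarith)
    have h6 := H.hT1
    push_cast
    nlinarith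
  generalize ((D ^ r) ^ 100)⁻¹ ^ 2 * (n * p ^ (4 * κ + 4 * (r * m))) = X at h1 ⊢
  generalize 4 * κ + 4 * (r * m) = z at h4 ⊢
  have h7 : (n : ℝ) ≤ Real.exp T := by
    rw [← Real.exp_log hn]; exact Real.exp_le_exp.2 H.hT5
  have h8 : (2 : ℝ) ≤ Real.exp 1 := by linarith [Real.add_one_le_exp (1 : ℝ)]
  have h9 := Real.add_one_le_exp (z : ℝ)
  rw [le_div_iff₀ hn]
  calc _ ≤ Real.exp z * (Real.exp T) ^ z * (Real.exp 1 * Real.exp (z - X / 6)) * Real.exp T := by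
        gcongr
    _ = Real.exp (z + z * T + (1 + (z - X / 6)) + T) := by
        rw [← Real.exp_nat_mul, ← Real.exp_add, ← Real.exp_add, ← Real.exp_add, ← Real.exp_add]
    _ ≤ _ := by
        rw [Real.exp_le_one_iff]
        have h10 : (z : ℝ) * T ≤ 8 * T ^ 2 * T := by gcongr
        obtain ⟨h11, h12, h13, h14⟩ := H.T4
        have h15 := H.J1
        nlinarith

lemma first_moment {n k : ℕ} {p δ : ℝ} (hn : (1 : ℝ) ≤ n) (hp : 0 ≤ p) (hk : 2 ≤ δ * k)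
    (h : p ^ (k - 1) ≤ (n : ℝ) ^ (-(2 + δ))) : (n : ℝ) ^ k * p ^ k.choose 2 ≤ 1 / n := by
  have hn0 : (0 : ℝ) < n := by linarith
  have h1 : k.choose 2 * 2 = (k - 1) * k := by
    rw [Nat.choose_two_right, Nat.div_mul_cancel (Nat.even_mul_pred_self k).two_dvd, mul_comm]
  refine le_of_pow_le_pow_left₀ (n := 2) (by norm_num) (by positivity) ?_
  calc _ = ((n : ℝ) ^ 2 * p ^ (k - 1)) ^ k := by
        rw [mul_pow, mul_pow, ← pow_mul p, h1, pow_mul, ← pow_mul, ← pow_mul, ← pow_mul,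
          mul_comm k 2]
    _ ≤ ((n : ℝ) ^ 2 * (n : ℝ) ^ (-(2 + δ))) ^ k := by gcongr
    _ = (n : ℝ) ^ (-(δ * k)) := by
        rw [← Real.rpow_natCast _ 2, ← Real.rpow_add hn0, ← Real.rpow_natCast, ← Real.rpow_mul hn0.le]
        congr 1
        push_cast
        ring
    _ ≤ (n : ℝ) ^ (-(2 : ℝ)) := Real.rpow_le_rpow_of_exponent_le hn (by linarith)
    _ = _ := by rw [Real.rpow_neg hn0.le, Real.rpow_two, one_div, inv_pow]

lemma ev_D (R r : ℕ) (hr : 0 < r) : ∀ᶠ n : ℕ in atTop, 512 ≤ Real.log n ∧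
    (2304 * (R * Real.log n) ^ 4) ^ r ≤ (n : ℝ) ^ (((r * 256 : ℕ) : ℝ)⁻¹) := by
  have h0 : (0 : ℝ) < ((r * 256 : ℕ) : ℝ) := by positivity
  have h1 : Tendsto (fun n : ℕ => (n : ℝ) ^ (((r * 256 : ℕ) : ℝ)⁻¹)) atTop atTop :=
    (tendsto_rpow_atTop (inv_pos.2 h0)).comp tendsto_natCast_atTop_atTop
  have h2 := (Real.isLittleO_pow_log_id_atTop (n := 4 * r)).const_mul_left
    ((2304 * (R * ((r * 256 : ℕ) : ℝ)) ^ 4) ^ r)
  have h3 := h1.eventually (h2.bound one_pos)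
  have h4 := (Real.tendsto_log_atTop.comp tendsto_natCast_atTop_atTop).eventually_ge_atTop 512
  filter_upwards [h3, h4, eventually_gt_atTop 0] with n h5 h6 h7
  refine ⟨h6, ?_⟩
  have h8 : (0 : ℝ) < n := by exact_mod_cast h7
  rw [one_mul, id, Real.norm_of_nonneg (Real.rpow_nonneg h8.le _), Real.log_rpow h8] at h5
  refine le_trans (le_of_eq ?_) ((le_abs_self _).trans h5)
  rw [pow_mul, ← mul_pow, mul_assoc, ← mul_pow]
  congr 3
  field_simp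

lemma num_of {R n k : ℕ} {p C : ℝ} (hR : 1 ≤ R) (hC : 2 * C ≤ R) (hn1 : 512 ≤ Real.log n)
    (hn2 : (2304 * (R * Real.log n) ^ 4) ^ (512 * R) ≤ (n : ℝ) ^ (((512 * R * 256 : ℕ) : ℝ)⁻¹))
    (hk : 1024 * (512 * R) ^ 2 * R + 1 ≤ k) (hkC : (k : ℝ) ≤ C * Real.log n) (hp0 : 0 ≤ p)
    (hp1 : p ≤ 1) (hp : (n : ℝ) ^ (-C) ≤ p ^ (k - 1)) :
    Num n k (512 * R) (k / (512 * R) + 1) ((k - 1) / (1024 * (512 * R) ^ 2 * R)) p
      ((n : ℝ) ^ (((512 * R * 256 : ℕ) : ℝ)⁻¹)) (R * Real.log n) := by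
  have hn : (1 : ℝ) < n := by
    by_contra h
    have := Real.log_nonpos (Nat.cast_nonneg n) (not_lt.1 h)
    linarith
  have hn0 : (0 : ℝ) < n := by linarith
  have hR' : (1 : ℝ) ≤ R := by exact_mod_cast hR
  have hk2 : 1024 * R + 2 ≤ k := by nlinarith
  have hpp : 0 < p := by
    rcases hp0.lt_or_eq with h | h
    · exact h
    · rw [← h, zero_pow (by omega)] at hp
      exact absurd (Real.rpow_pos_of_pos hn0 _) (not_lt.2 hp)
  have hq : 1 ≤ 2 * p⁻¹ := by linarith [(one_le_inv₀ hpp).2 hp1]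
  have hD : (n : ℝ) = ((n : ℝ) ^ (((512 * R * 256 : ℕ) : ℝ)⁻¹)) ^ (512 * R * 256) :=
    (Real.rpow_inv_natCast_pow hn0.le (by omega)).symm
  have hD0 : 0 ≤ (n : ℝ) ^ (((512 * R * 256 : ℕ) : ℝ)⁻¹) := Real.rpow_nonneg hn0.le _
  have hkT : (k : ℝ) ≤ R * Real.log n := by nlinarith
  have hmain : (2 * p⁻¹) ^ (k - 1) ≤ (n : ℝ) ^ R := by
    have h1 : (2 : ℝ) ^ (k - 1) ≤ (n : ℝ) ^ C := by
      calc _ ≤ (2 : ℝ) ^ k := pow_le_pow_right₀ (by norm_num) (by omega)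
        _ ≤ (Real.exp 1) ^ k := by gcongr; linarith [Real.add_one_le_exp (1 : ℝ)]
        _ = Real.exp k := by rw [← Real.exp_nat_mul, mul_one]
        _ ≤ _ := by
          rw [Real.rpow_def_of_pos hn0, mul_comm]
          exact Real.exp_le_exp.2 hkC
    have h2 : (p⁻¹) ^ (k - 1) ≤ (n : ℝ) ^ C := by
      have := inv_anti₀ (Real.rpow_pos_of_pos hn0 _) hp
      rwa [Real.rpow_neg hn0.le, inv_inv, ← inv_pow] at this
    calc _ ≤ (n : ℝ) ^ C * (n : ℝ) ^ C := by rw [mul_pow]; gcongr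
      _ = (n : ℝ) ^ (2 * C) := by rw [← Real.rpow_add hn0, two_mul]
      _ ≤ (n : ℝ) ^ (R : ℝ) := Real.rpow_le_rpow_of_exponent_le hn.le hC
      _ = _ := Real.rpow_natCast _ _
  generalize (n : ℝ) ^ (((512 * R * 256 : ℕ) : ℝ)⁻¹) = D at hD hD0 hn2 ⊢
  have h3 := Nat.mul_div_le k (512 * R)
  have h4 := Nat.mul_div_le (k - 1) (1024 * (512 * R) ^ 2 * R)
  have h5 : k / (512 * R) + 1 ≤ k := by
    have : k / (512 * R) < k := Nat.div_lt_self (by omega) (by omega)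
    omega
  refine ⟨by omega, (Nat.le_div_iff_mul_le (by positivity)).2 (by omega), Nat.le_add_left _ _,
    by omega,
    (Nat.lt_mul_div_succ k (by omega)).le, by rw [← pow_mul]; exact hD, hpp, hp1, ?_, ?_,
    le_trans (by exact_mod_cast h5) hkT, hkT, le_trans ?_ hkT, by push_cast; nlinarith,
    by nlinarith, hn2⟩
  · refine le_of_pow_le_pow_left₀ (n := 256 * R) (by omega) (by positivity) ?_
    rw [← pow_mul, ← pow_mul]
    refine (pow_le_pow_right₀ hq ?_).trans (hmain.trans (le_of_eq ?_))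
    · generalize k / (512 * R) = a at h3 ⊢
      have : (a + 1) * (256 * R) * 2 = 512 * R * a + 512 * R := by ring
      omega
    · rw [hD, ← pow_mul]
      congr 1
      ring
  · refine le_of_pow_le_pow_left₀ (n := 512 * R * 256 * R) (by positivity) hD0 ?_
    rw [← pow_mul]
    refine (pow_le_pow_right₀ hq (le_trans (le_of_eq ?_) h4)).trans (hmain.trans (le_of_eq ?_))
    · ring
    · rw [hD, ← pow_mul]
  · exact_mod_cast (Nat.div_le_self _ _).trans (Nat.sub_le _ _)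

theorem main (δ C : ℝ) (hδ : 0 < δ) : ∃ ε : ℝ, 0 < ε ∧ ∃ k₀ n₀ : ℕ, ∀ n ≥ n₀, ∀ k ≥ k₀,
    (k : ℝ) ≤ C * Real.log n → ∀ p : unitInterval, (n : ℝ) ^ (-C) ≤ (p : ℝ) ^ (k - 1) →
      (p : ℝ) ^ (k - 1) ≤ (n : ℝ) ^ (-(2 + δ)) →
      1 - 2 / (n : ℝ) ≤ (binomialRandom (Fin n) p).real
        {G | G.CliqueFree k ∧ ∀ s : ℕ, CPRef (cliqueCNF G k) s → (n : ℝ) ^ (ε * k) ≤ s} := by
  classical
  obtain ⟨R, hR, hC⟩ : ∃ R : ℕ, 1 ≤ R ∧ 2 * C ≤ R :=
    ⟨⌈2 * C⌉₊ + 1, by omega, by push_cast; linarith [Nat.le_ceil (2 * C)]⟩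
  obtain ⟨n₀, hn₀⟩ := eventually_atTop.1 (ev_D R (512 * R) (by omega))
  refine ⟨(100 * ((1024 * (512 * R) ^ 2 * R : ℕ) : ℝ))⁻¹, by positivity,
    1024 * (512 * R) ^ 2 * R + 1 + ⌈2 / δ⌉₊, n₀, fun n hn k hk hkC p hp1 hp2 => ?_⟩
  have H := num_of hR hC (hn₀ n hn).1 (hn₀ n hn).2 (by omega) hkC p.2.1 p.2.2 hp1
  have hn1 : (1 : ℝ) ≤ n := by rw [H.hN]; exact one_le_pow₀ (by linarith [H.DE1, H.D1])
  have hn0 : (0 : ℝ) < n := by linarith
  have hδk : 2 ≤ δ * k := by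
    have h1 : ((⌈2 / δ⌉₊ : ℕ) : ℝ) ≤ k := by exact_mod_cast (by omega : ⌈2 / δ⌉₊ ≤ k)
    have h2 := (Nat.le_ceil (2 / δ)).trans h1
    rwa [div_le_iff₀' hδ] at h2
  have hE : 1 ≤ (((n : ℝ) ^ (((512 * R * 256 : ℕ) : ℝ)⁻¹)) ^ (512 * R)) ^ 100 :=
    one_le_pow₀ (by linarith [H.DE1, H.D1])
  have h1 := clique_prob (V := Fin n) p k
  have h2 := cod_prob (V := Fin n) p (by positivity) (inv_le_one_of_one_le₀ hE)
    (4 * (k / (512 * R) + 1) + 4 * (512 * R * ((k - 1) / (1024 * (512 * R) ^ 2 * R))))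
    (by rw [Fintype.card_fin]; exact_mod_cast hn0)
  rw [Fintype.card_fin] at h1 h2
  replace h1 := h1.trans (first_moment hn1 p.2.1 hδk hp2)
  replace h2 := h2.trans H.tail
  have := msc (V := Fin n)
  rw [← compl_compl {G : SimpleGraph (Fin n) | _}, probReal_compl_eq_one_sub .of_discrete]
  refine sub_le_sub_left (le_trans (measureReal_mono ?_ (measure_ne_top _ _))
    ((measureReal_union_le _ _).trans ((add_le_add h1 h2).trans (le_of_eq (by ring))))) _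
  intro G hG
  by_contra hc
  simp only [Set.mem_union, Set.mem_ofPred_eq, not_or, not_not] at hc
  refine hG ⟨hc.1, fun s hs => le_trans ?_ (det_num H G hc.2 hs)⟩
  rw [← Real.rpow_natCast, ← Real.rpow_mul hn0.le]
  refine Real.rpow_le_rpow_of_exponent_le hn1 ?_
  have h3 := Nat.lt_mul_div_succ (k - 1) (b := 1024 * (512 * R) ^ 2 * R) (by positivity)
  have h4 := H.hm
  have h5 : (0 : ℝ) < R := by exact_mod_cast hR
  have h6 : (0 : ℝ) < ((1024 * (512 * R) ^ 2 * R : ℕ) : ℝ) := by positivity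
  generalize (k - 1) / (1024 * (512 * R) ^ 2 * R) = m at h3 h4 ⊢
  generalize 1024 * (512 * R) ^ 2 * R = Q at h3 h6 ⊢
  have h7 : (k : ℝ) ≤ Q * (2 * m) := by
    have : k ≤ Q * (2 * m) := le_trans (by omega) (Nat.mul_le_mul_left Q (by omega : m + 1 ≤ 2 * m))
    exact_mod_cast this
  have h8 : (0 : ℝ) ≤ m := Nat.cast_nonneg _
  calc _ ≤ (100 * (Q : ℝ))⁻¹ * (Q * (2 * m)) := by gcongr
    _ = m / 50 := by field_simp; norm_num
    _ ≤ 6 * m / 256 := by linarith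
    _ = _ := by push_cast; field_simp

end Pool.Agent.Lib.MP_7836d5_lc.Avg
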