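import Pool.Agent.Lib.MP_7836d5_lc.Avg.Ext

set_option autoImplicit false
set_option linter.unusedSectionVars false

namespace Pool.Agent.Lib.MP_7836d5_lc.Avg

open Finset

variable {V : Type*} [Fintype V] [DecidableEq V] (G : SimpleGraph V) [DecidableRel G.Adj]

/-- The hypotheses under which spread families are joined as expected. -/
structure EH (p ε : ℝ) (z : ℕ) (lam η : ℝ) : Prop where
  hp : 0 < p
  hp1 : p ≤ 1
  hε : 0 ≤ ε
  hG : Cod G p ε (2 * z)
  hl : 1 ≤ lam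
  hlN : lam ≤ Fintype.card V
  hη : 0 ≤ η
  hη1 : η ≤ 1
  hΘ : (4 * (z + 1) * 4 ^ z) ^ 4 *
      ((Fintype.card V / lam) ^ 3 * (2 * p⁻¹) ^ (4 * z) * (2 * ε + lam⁻¹)) ≤ η ^ 4

lemma SprL.mono {α : Type*} {X : Finset α} {f : α → Finset V} {lam lam' Λ : ℝ}
    (h : SprL X f lam Λ) (h0 : 0 ≤ lam') (h1 : lam' ≤ lam) : SprL X f lam' Λ := by
  intro B
  refine le_trans ?_ (h B)
  gcongr

lemma SprL.subset {α : Type*} {X X' : Finset α} {f : α → Finset V} {lam Λ : ℝ}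
    (h : SprL X f lam Λ) (h0 : 0 ≤ lam) (h1 : X' ⊆ X) : SprL X' f lam Λ := by
  intro B
  refine le_trans ?_ (h B)
  gcongr

lemma SprL.card_le {α : Type*} {X : Finset α} {f : α → Finset V} {lam Λ : ℝ}
    (h : SprL X f lam Λ) : (X.card : ℝ) ≤ Λ := by simpa using h ∅

lemma SprL.le_div {α : Type*} {X : Finset α} {f : α → Finset V} {lam Λ : ℝ}
    (h : SprL X f lam Λ) (h0 : 0 < lam) (B : Finset V) :
    ((X.filter fun x => B ⊆ f x).card : ℝ) ≤ Λ / lam ^ B.card := by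
  rw [le_div_iff₀ (by positivity)]; exact h B

variable {G}

lemma EH.two_sided {p ε : ℝ} {z : ℕ} {lam η : ℝ} (E : EH G p ε z lam η)
    {α β : Type*} [DecidableEq α] [DecidableEq β] (v0 : V)
    {d₁ d₂ : ℕ} (hz₁ : d₁ ≤ z) (hz₂ : d₂ ≤ z)
    (X : Finset α) (f : α → Finset V) (hf : ∀ x ∈ X, (f x).card = d₁)
    (Y : Finset β) (g : β → Finset V) (hg : ∀ y ∈ Y, (g y).card = d₂)
    {Λ₁ Λ₂ : ℝ} (hX : SprL X f lam Λ₁) (hY : SprL Y g lam Λ₂) :
    p ^ (d₁ * d₂) * (X.card * Y.card - η * (Λ₁ * Λ₂)) ≤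
      (((X ×ˢ Y).filter fun e => Cross G (f e.1) (g e.2)).card : ℝ) ∧
    (((X ×ˢ Y).filter fun e => Cross G (f e.1) (g e.2)).card : ℝ) ≤
      p ^ (d₁ * d₂) * (2 * (Λ₁ * Λ₂)) := by
  have h := ext_bound G E.hp E.hp1 E.hε E.hG v0 hz₁ hz₂ X f hf Y g hg E.hl E.hlN hX hY E.hη E.hη1
    E.hΘ
  have hp := E.hp
  have hpp : p ^ (d₁ * d₂) * (p⁻¹) ^ (d₁ * d₂) = 1 := by
    rw [← mul_pow, mul_inv_cancel₀ hp.ne', one_pow]
  rw [abs_le] at h
  have h1 := hX.card_le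
  have h2 := hY.card_le
  have hΛ₁ : 0 ≤ Λ₁ := le_trans (by positivity) h1
  have hΛ₂ : 0 ≤ Λ₂ := le_trans (by positivity) h2
  generalize (((X ×ˢ Y).filter fun e => Cross G (f e.1) (g e.2)).card : ℝ) = c at h ⊢
  have hc : c = p ^ (d₁ * d₂) * ((p⁻¹) ^ (d₁ * d₂) * c) := by rw [← mul_assoc, hpp, one_mul]
  constructor
  · refine le_trans ?_ hc.ge
    refine mul_le_mul_of_nonneg_left ?_ (by positivity)
    linarith [h.1]
  · refine le_trans hc.le ?_
    refine mul_le_mul_of_nonneg_left ?_ (by positivity)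
    have h3 : (X.card : ℝ) * Y.card ≤ Λ₁ * Λ₂ := mul_le_mul h1 h2 (Nat.cast_nonneg _) hΛ₁
    have h4 : η * (Λ₁ * Λ₂) ≤ 1 * (Λ₁ * Λ₂) :=
      mul_le_mul_of_nonneg_right E.hη1 (mul_nonneg hΛ₁ hΛ₂)
    linarith [h.2]

lemma pair_spread {β : Type*} [DecidableEq β] (Y : Finset β) (g : β → Finset V) {d : ℕ}
    (hg : ∀ y ∈ Y, (g y).card = d) {lam lamY Λ : ℝ} (hl : 1 ≤ lam) (h2 : 2 * lam ≤ lamY)
    (hY : SprL Y g lamY Λ) (j : ℕ) :
    SprL ((Y ×ˢ Y).filter fun e => (g e.1 ∩ g e.2).card = j) (fun e => g e.1 ∪ g e.2) lam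
      ((d : ℝ) ^ j * Λ ^ 2 / lamY ^ j) := by
  intro B
  have hY0 : 0 < lamY := by linarith
  have hY1 : 1 ≤ lamY := by linarith
  have hΛ : 0 ≤ Λ := le_trans (by positivity) hY.card_le
  have h1 : ∀ y ∈ Y, ((Y.filter fun y' => (g y ∩ g y').card = j ∧ B ⊆ g y ∪ g y').card : ℝ) ≤
      (d : ℝ) ^ j * (Λ / lamY ^ (j + (B \ g y).card)) := by
    intro y hy
    have hsub : (Y.filter fun y' => (g y ∩ g y').card = j ∧ B ⊆ g y ∪ g y') ⊆
        ((g y).powerset.filter fun J => J.card = j).biUnion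
          fun J => Y.filter fun y' => J ∪ (B \ g y) ⊆ g y' := by
      intro y' hy'
      have h := mem_filter.1 hy'
      refine mem_biUnion.2 ⟨g y ∩ g y', mem_filter.2 ⟨mem_powerset.2 inter_subset_left, h.2.1⟩,
        mem_filter.2 ⟨h.1, union_subset inter_subset_right ?_⟩⟩
      intro w hw
      have hw' := mem_sdiff.1 hw
      exact (mem_union.1 (h.2.2 hw'.1)).resolve_left hw'.2
    calc _ ≤ ∑ J ∈ (g y).powerset.filter fun J => J.card = j,
          ((Y.filter fun y' => J ∪ (B \ g y) ⊆ g y').card : ℝ) := by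
          exact_mod_cast (card_le_card hsub).trans card_biUnion_le
      _ ≤ ∑ _J ∈ (g y).powerset.filter fun J => J.card = j,
          (Λ / lamY ^ (j + (B \ g y).card)) := by
          refine sum_le_sum fun J hJ => ?_
          have hJ' := mem_filter.1 hJ
          have := hY.le_div hY0 (J ∪ (B \ g y))
          rwa [card_union_of_disjoint
            (disjoint_of_subset_left (mem_powerset.1 hJ'.1) disjoint_sdiff), hJ'.2] at this
      _ ≤ _ := by
          rw [sum_const, nsmul_eq_mul]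
          gcongr
          have : ((g y).powerset.filter fun J => J.card = j).card ≤ d ^ j := by
            rw [← powersetCard_eq_filter, card_powersetCard, hg y hy]
            exact Nat.choose_le_pow d j
          exact_mod_cast this
  have h3 : ∑ y ∈ Y, (1 / lamY ^ (B \ g y).card) ≤ 2 ^ B.card * (Λ / lamY ^ B.card) := by
    rw [← sum_fiberwise_of_maps_to (t := B.powerset) (g := fun y => B ∩ g y)
      (fun y _ => mem_powerset.2 inter_subset_left)]
    calc _ ≤ ∑ _B1 ∈ B.powerset, (Λ / lamY ^ B.card) := by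
          refine sum_le_sum fun B1 hB1 => ?_
          have hB1' := mem_powerset.1 hB1
          rw [sum_congr rfl (g := fun _ => 1 / lamY ^ (B.card - B1.card)) (fun y hy => by
            rw [← (mem_filter.1 hy).2, card_sdiff, inter_comm]), sum_const, nsmul_eq_mul]
          have h4 : ((Y.filter fun y => B ∩ g y = B1).card : ℝ) ≤ Λ / lamY ^ B1.card := by
            refine le_trans ?_ (hY.le_div hY0 B1)
            refine Nat.cast_le.2 (card_le_card fun y hy => ?_)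
            have := mem_filter.1 hy
            exact mem_filter.2 ⟨this.1, this.2 ▸ inter_subset_right⟩
          calc _ ≤ Λ / lamY ^ B1.card * (1 / lamY ^ (B.card - B1.card)) := by gcongr
            _ = _ := by
              rw [div_mul_div_comm, mul_one, ← pow_add, Nat.add_sub_cancel' (card_le_card hB1')]
      _ = _ := by simp
  have h5 : (((((Y ×ˢ Y).filter fun e => (g e.1 ∩ g e.2).card = j).filter
      fun e => B ⊆ g e.1 ∪ g e.2).card : ℕ) : ℝ) =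
      ∑ y ∈ Y, ((Y.filter fun y' => (g y ∩ g y').card = j ∧ B ⊆ g y ∪ g y').card : ℝ) := by
    rw [filter_filter, card_filter, sum_product]
    push_cast
    refine sum_congr rfl fun y _ => ?_
    rw [card_filter]
    push_cast
    rfl
  simp only
  rw [h5]
  calc _ ≤ (∑ y ∈ Y, (d : ℝ) ^ j * (Λ / lamY ^ (j + (B \ g y).card))) * lam ^ B.card := by
        gcongr with y hy
        exact h1 y hy
    _ = ((d : ℝ) ^ j * (Λ / lamY ^ j) * ∑ y ∈ Y, (1 / lamY ^ (B \ g y).card)) * lam ^ B.card := by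
        rw [mul_sum]
        congr 1
        refine sum_congr rfl fun y _ => ?_
        rw [pow_add]
        field_simp
    _ ≤ ((d : ℝ) ^ j * (Λ / lamY ^ j) * (2 ^ B.card * (Λ / lamY ^ B.card))) * lam ^ B.card := by
        gcongr
    _ = (d : ℝ) ^ j * Λ ^ 2 / lamY ^ j * (2 * lam / lamY) ^ B.card := by
        rw [div_pow, mul_pow]
        field_simp
    _ ≤ _ := by
        apply mul_le_of_le_one_right (by positivity)
        apply pow_le_one₀ (by positivity)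
        rwa [div_le_one hY0]

/-- The pair `(x, y)` lies in an overfull fibre. -/
def Hv (G : SimpleGraph V) [DecidableRel G.Adj] {β : Type*} (Y : Finset β) (g : β → Finset V)
    (thr : ℕ → ℝ) (D : Finset V) (y : β) : Prop :=
  ∃ B ∈ (g y).powerset, thr B.card < (Y.filter fun y' => B ⊆ g y' ∧ Cross G D (g y')).card

noncomputable instance {β : Type*} (Y : Finset β) (g : β → Finset V)
    (thr : ℕ → ℝ) (D : Finset V) (y : β) : Decidable (Hv G Y g thr D y) := Classical.dec _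

lemma heavy_aux {α β : Type*} [DecidableEq α] [DecidableEq β] {d₂ : ℕ}
    (X : Finset α) (f : α → Finset V) (Y : Finset β) (g : β → Finset V)
    (thr : ℕ → ℝ) (hthr0 : ∀ s, 0 < thr s) (hanti : ∀ s t, s ≤ t → thr t ≤ thr s)
    (hg : ∀ y ∈ Y, (g y).card = d₂) :
    (((X ×ˢ Y).filter fun e => Cross G (f e.1) (g e.2) ∧ Hv G Y g thr (f e.1) e.2).card : ℝ)
      ≤ ∑ j ∈ range (d₂ + 1), ((X ×ˢ ((Y ×ˢ Y).filter fun e => (g e.1 ∩ g e.2).card = j)).filter
              fun e => Cross G (f e.1) (g e.2.1 ∪ g e.2.2)).card / thr j := by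
  have h1 : ∀ x, ∀ y ∈ Y, Hv G Y g thr (f x) y → (1 : ℝ) ≤
      ∑ y' ∈ Y.filter fun y' => Cross G (f x) (g y'), 1 / thr (g y ∩ g y').card := by
    rintro x y hy ⟨B, hB, hlt⟩
    have hB' := mem_powerset.1 hB
    calc (1 : ℝ) ≤ (Y.filter fun y' => B ⊆ g y' ∧ Cross G (f x) (g y')).card / thr B.card := by
          rw [le_div_iff₀ (hthr0 _)]; linarith
      _ = ∑ _y' ∈ Y.filter fun y' => B ⊆ g y' ∧ Cross G (f x) (g y'), 1 / thr B.card := by
          rw [sum_const, nsmul_eq_mul, mul_one_div]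
      _ ≤ ∑ y' ∈ Y.filter fun y' => B ⊆ g y' ∧ Cross G (f x) (g y'),
            1 / thr (g y ∩ g y').card := by
          refine sum_le_sum fun y' hy' => ?_
          have h3 : B.card ≤ (g y ∩ g y').card :=
            card_le_card (subset_inter hB' (mem_filter.1 hy').2.1)
          exact one_div_le_one_div_of_le (hthr0 _) (hanti _ _ h3)
      _ ≤ _ := by
          refine sum_le_sum_of_subset_of_nonneg ?_ fun _ _ _ => (div_pos one_pos (hthr0 _)).le
          intro y' hy'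
          exact mem_filter.2 ⟨(mem_filter.1 hy').1, (mem_filter.1 hy').2.2⟩
  have h5 : (((X ×ˢ Y).filter fun e => Cross G (f e.1) (g e.2) ∧ Hv G Y g thr (f e.1) e.2).card : ℝ)
      ≤ ∑ e ∈ (X ×ˢ (Y ×ˢ Y)).filter fun e => Cross G (f e.1) (g e.2.1 ∪ g e.2.2),
        1 / thr (g e.2.1 ∩ g e.2.2).card := by
    rw [card_filter, sum_filter, sum_product, sum_product]
    push_cast
    refine sum_le_sum fun x _ => ?_
    rw [sum_product]
    refine sum_le_sum fun y hy => ?_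
    split_ifs with h
    · refine (h1 x y hy h.2).trans ?_
      rw [sum_filter]
      refine sum_le_sum fun y' _ => ?_
      split_ifs with h6 h7
      · exact le_rfl
      · refine absurd ?_ h7
        intro u hu w hw
        rcases mem_union.1 hw with hw | hw
        · exact h.1 u hu w hw
        · exact h6 u hu w hw
      · exact (div_pos one_pos (hthr0 _)).le
      · exact le_rfl
    · refine sum_nonneg fun y' _ => ?_
      split_ifs
      · exact (div_pos one_pos (hthr0 _)).le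
      · exact le_rfl
  refine h5.trans ?_
  have hmaps : ∀ e ∈ (X ×ˢ (Y ×ˢ Y)).filter fun e => Cross G (f e.1) (g e.2.1 ∪ g e.2.2),
      (g e.2.1 ∩ g e.2.2).card ∈ range (d₂ + 1) := by
    intro e he
    have h6 := (mem_product.1 (mem_product.1 (mem_filter.1 he).1).2).1
    have := card_le_card (inter_subset_left (s₁ := g e.2.1) (s₂ := g e.2.2))
    rw [hg _ h6] at this
    exact mem_range.2 (by omega)
  rw [← sum_fiberwise_of_maps_to hmaps]
  refine sum_le_sum fun j _ => ?_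
  have h9 : ∀ e ∈ ((X ×ˢ (Y ×ˢ Y)).filter fun e => Cross G (f e.1) (g e.2.1 ∪ g e.2.2)).filter
      fun e => (g e.2.1 ∩ g e.2.2).card = j, 1 / thr (g e.2.1 ∩ g e.2.2).card = 1 / thr j := by
    intro e he
    rw [(mem_filter.1 he).2]
  rw [sum_congr rfl h9, sum_const, nsmul_eq_mul, mul_one_div]
  refine div_le_div_of_nonneg_right ?_ (hthr0 j).le
  refine Nat.cast_le.2 (card_le_card fun e he => ?_)
  have he1 := mem_filter.1 he
  have he2 := mem_filter.1 he1.1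
  have he3 := mem_product.1 he2.1
  exact mem_filter.2 ⟨mem_product.2 ⟨he3.1, mem_filter.2 ⟨he3.2, he1.2⟩⟩, he2.2⟩

lemma heavy_term {p ε : ℝ} {z : ℕ} {lam η : ℝ} (E : EH G p ε z lam η)
    {α β : Type*} [DecidableEq α] [DecidableEq β] (v0 : V)
    {d₁ d₂ : ℕ} (hz₁ : d₁ ≤ z) (hz₂ : 2 * d₂ ≤ z)
    (X : Finset α) (f : α → Finset V) (hf : ∀ x ∈ X, (f x).card = d₁)
    (Y : Finset β) (g : β → Finset V) (hg : ∀ y ∈ Y, (g y).card = d₂)
    {Λ₁ Λ₂ lamY : ℝ} (hX : SprL X f lam Λ₁) (h2 : 2 * lam ≤ lamY) (hY : SprL Y g lamY Λ₂)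
    (j : ℕ) :
    (((X ×ˢ ((Y ×ˢ Y).filter fun e => (g e.1 ∩ g e.2).card = j)).filter
              fun e => Cross G (f e.1) (g e.2.1 ∪ g e.2.2)).card : ℝ) ≤
      p ^ (d₁ * (2 * d₂ - j)) * (2 * (Λ₁ * ((d₂ : ℝ) ^ j * Λ₂ ^ 2 / lamY ^ j))) := by
  have h0 : ∀ e ∈ (Y ×ˢ Y).filter fun e => (g e.1 ∩ g e.2).card = j,
      (g e.1 ∪ g e.2).card = 2 * d₂ - j := by
    intro e he
    have he' := mem_filter.1 he
    have he'' := mem_product.1 he'.1
    have := card_union_add_card_inter (g e.1) (g e.2)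
    rw [hg _ he''.1, hg _ he''.2, he'.2] at this
    omega
  have h1 := pair_spread Y g hg E.hl h2 hY j
  generalize ((Y ×ˢ Y).filter fun e => (g e.1 ∩ g e.2).card = j) = W at h0 h1 ⊢
  have hz : 2 * d₂ - j ≤ z := by omega
  generalize 2 * d₂ - j = d₃ at h0 hz ⊢
  generalize (d₂ : ℝ) ^ j * Λ₂ ^ 2 / lamY ^ j = Λ₃ at h1 ⊢
  have h3 := E.two_sided v0 hz₁ hz X f hf W (fun e => g e.1 ∪ g e.2) h0 hX h1
  exact h3.2

lemma heavy_alg (p σ lamY Λ₁ Λ₂ ζ : ℝ) (hp : 0 < p) (hσ : 0 < σ) (hY : 0 < lamY) (hΛ₂ : 0 < Λ₂)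
    (hζ : 0 < ζ) (d₁ d₂ j : ℕ) (hj : j ≤ d₂) :
    p ^ (d₁ * (2 * d₂ - j)) * (2 * (Λ₁ * ((d₂ : ℝ) ^ j * Λ₂ ^ 2 / lamY ^ j))) /
      (σ * p ^ (d₁ * d₂) * (ζ * (p⁻¹) ^ d₁ / lamY) ^ j * Λ₂) =
      2 * (d₂ / ζ) ^ j / σ * (p ^ (d₁ * d₂) * (Λ₁ * Λ₂)) := by
  generalize (d₂ : ℝ) = x
  obtain ⟨m, rfl⟩ := Nat.exists_eq_add_of_le hj
  have e1 : 2 * (j + m) - j = j + 2 * m := by omega
  rw [e1, div_pow, div_pow, mul_pow ζ, ← pow_mul, inv_pow]
  field_simp
  ring

/-- The threshold function for overfull fibres. -/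
noncomputable def thrF (p σ lamY Λ : ℝ) (z d₁ d₂ : ℕ) (s : ℕ) : ℝ :=
  σ * p ^ (d₁ * d₂) * ((z + 1) * (p⁻¹) ^ d₁ / lamY) ^ s * Λ

lemma heavy {p ε : ℝ} {z : ℕ} {lam η : ℝ} (E : EH G p ε z lam η)
    {α β : Type*} [DecidableEq α] [DecidableEq β] (v0 : V)
    {d₁ d₂ : ℕ} (hz₁ : d₁ ≤ z) (hz₂ : 2 * d₂ ≤ z)
    (X : Finset α) (f : α → Finset V) (hf : ∀ x ∈ X, (f x).card = d₁)
    (Y : Finset β) (g : β → Finset V) (hg : ∀ y ∈ Y, (g y).card = d₂)
    {Λ₁ Λ₂ lamY σ : ℝ} (hX : SprL X f lam Λ₁) (h2 : 2 * lam ≤ lamY) (hY : SprL Y g lamY Λ₂)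
    (hq : (z + 1) * (p⁻¹) ^ d₁ ≤ lamY) (hσ : 0 < σ) (hΛ₂ : 0 < Λ₂) :
    (((X ×ˢ Y).filter fun e => Cross G (f e.1) (g e.2) ∧
      Hv G Y g (thrF p σ lamY Λ₂ z d₁ d₂) (f e.1) e.2).card : ℝ) ≤
      (z + 1) * 2 / σ * (p ^ (d₁ * d₂) * (Λ₁ * Λ₂)) := by
  have hp := E.hp
  have hl := E.hl
  have hY0 : 0 < lamY := by linarith
  have hΛ₁ : 0 ≤ Λ₁ := le_trans (Nat.cast_nonneg _) hX.card_le
  have hthr : ∀ s, 0 < thrF p σ lamY Λ₂ z d₁ d₂ s := by
    intro s; unfold thrF; positivity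
  have hanti : ∀ s t, s ≤ t → thrF p σ lamY Λ₂ z d₁ d₂ t ≤ thrF p σ lamY Λ₂ z d₁ d₂ s := by
    intro s t hst
    unfold thrF
    refine mul_le_mul_of_nonneg_right (mul_le_mul_of_nonneg_left ?_ (by positivity)) hΛ₂.le
    exact pow_le_pow_of_le_one (by positivity) (by rwa [div_le_one hY0]) hst
  refine (heavy_aux X f Y g (thrF p σ lamY Λ₂ z d₁ d₂) hthr hanti hg).trans ?_
  have e0 : (d₂ : ℝ) ≤ z := by exact_mod_cast (by omega : d₂ ≤ z)
  have hterm : ∀ j ∈ range (d₂ + 1),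
      (((X ×ˢ ((Y ×ˢ Y).filter fun e => (g e.1 ∩ g e.2).card = j)).filter
              fun e => Cross G (f e.1) (g e.2.1 ∪ g e.2.2)).card : ℝ) /
        thrF p σ lamY Λ₂ z d₁ d₂ j ≤ 2 * 1 / σ * (p ^ (d₁ * d₂) * (Λ₁ * Λ₂)) := by
    intro j hj
    have hj' : j ≤ d₂ := by have := mem_range.1 hj; omega
    have h7 := heavy_term E v0 hz₁ hz₂ X f hf Y g hg hX h2 hY j
    refine (div_le_div_of_nonneg_right h7 (hthr j).le).trans
      ((le_of_eq (heavy_alg p σ lamY Λ₁ Λ₂ (z + 1) hp hσ hY0 hΛ₂ (by positivity) d₁ d₂ j hj')).trans ?_)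
    have h8 : ((d₂ : ℝ) / (z + 1)) ^ j ≤ 1 :=
      pow_le_one₀ (by positivity) (by rw [div_le_one (by positivity)]; linarith)
    gcongr
  refine (sum_le_sum hterm).trans ?_
  rw [sum_const, nsmul_eq_mul, card_range]
  push_cast
  calc _ ≤ (z + 1) * (2 * 1 / σ * (p ^ (d₁ * d₂) * (Λ₁ * Λ₂))) := by gcongr
    _ = _ := by ring

end Pool.Agent.Lib.MP_7836d5_lc.Avg
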