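import Pool.Agent.Lib.MP_7836d5_lc.Avg.Det

set_option autoImplicit false
set_option linter.unusedSectionVars false

namespace Pool.Agent.Lib.MP_7836d5_lc.Avg

open Finset

/-- Numerical hypotheses from which all parameters are built. -/
structure Num (n k r κ m : ℕ) (p D T : ℝ) : Prop where
  hr : 2 ≤ r
  hm : 1 ≤ m
  hκ : 1 ≤ κ
  hk0 : 0 < k
  hk : k ≤ r * κ
  hN : (n : ℝ) = (D ^ r) ^ 256
  hp : 0 < p
  hp1 : p ≤ 1
  hq1 : (2 * p⁻¹) ^ κ ≤ D ^ r
  hq2 : (2 * p⁻¹) ^ (4 * (r * m)) ≤ D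
  hT1 : (κ : ℝ) ≤ T
  hT2 : (k : ℝ) ≤ T
  hT3 : (m : ℝ) ≤ T
  hT4 : (r : ℝ) ≤ T
  hT5 : Real.log n ≤ T
  hD : (2304 * T ^ 4) ^ r ≤ D

namespace Num

variable {n k r κ m : ℕ} {p D T : ℝ} (H : Num n k r κ m p D T)
include H

lemma T2 : 2 ≤ T := le_trans (by exact_mod_cast H.hr) H.hT4

lemma T4 : T ^ 3 ≤ T ^ 4 ∧ T ^ 2 ≤ T ^ 4 ∧ T ≤ T ^ 4 ∧ 1 ≤ T ^ 4 := by
  have h : 1 ≤ T := by linarith [H.T2]
  exact ⟨pow_le_pow_right₀ h (by norm_num), pow_le_pow_right₀ h (by norm_num),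
    le_self_pow₀ h (by norm_num), one_le_pow₀ h⟩

lemma J2 : (2304 * T ^ 4) ^ 2 ≤ D :=
  (pow_le_pow_right₀ (by linarith [H.T4.2.2.2]) H.hr).trans H.hD

lemma J1 : 2304 * T ^ 4 ≤ D :=
  (le_self_pow₀ (by linarith [H.T4.2.2.2]) (by norm_num)).trans H.J2

lemma D1 : 2304 ≤ D := by linarith [H.J1, H.T4.2.2.2]

lemma DE : D ^ 2 ≤ D ^ r := pow_le_pow_right₀ (by linarith [H.D1]) H.hr

lemma DE1 : D ≤ D ^ r := (le_self_pow₀ (by linarith [H.D1]) (by norm_num)).trans H.DE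

lemma q1 : (p⁻¹) ^ κ ≤ D ^ r ∧ (2 : ℝ) ^ κ ≤ D ^ r := by
  have h1 : 1 ≤ p⁻¹ := (one_le_inv₀ H.hp).2 H.hp1
  exact ⟨(pow_le_pow_left₀ (by linarith) (by linarith) _).trans H.hq1,
    (pow_le_pow_left₀ (by linarith) (by linarith) _).trans H.hq1⟩

lemma q2 : (p⁻¹) ^ (4 * (r * m)) ≤ D ∧ (4 : ℝ) ^ (4 * (r * m)) ≤ D ^ 2 := by
  have h1 : 1 ≤ p⁻¹ := (one_le_inv₀ H.hp).2 H.hp1
  refine ⟨(pow_le_pow_left₀ (by linarith) (by linarith) _).trans H.hq2, ?_⟩
  have h2 : (2 : ℝ) ^ (4 * (r * m)) ≤ D :=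
    (pow_le_pow_left₀ (by linarith) (by linarith) _).trans H.hq2
  calc _ = ((2 : ℝ) ^ (4 * (r * m))) ^ 2 := by rw [sq, ← mul_pow]; norm_num
    _ ≤ _ := by gcongr

lemma big : (D ^ r) ^ 254 * D ≤ n * p ^ (4 * (r * m) + κ) := by
  have hp := H.hp
  have hD := H.D1
  have h1 := H.q1.1
  have h2 := H.q2.1
  have h3 := H.DE
  rw [H.hN]
  generalize D ^ r = E at h1 h3 ⊢
  have hE : 0 < E := lt_of_lt_of_le (by positivity) h3
  have h4 : (p⁻¹) ^ (4 * (r * m) + κ) ≤ D * E := by rw [pow_add]; gcongr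
  calc _ = E ^ 254 * D * (p⁻¹) ^ (4 * (r * m) + κ) * p ^ (4 * (r * m) + κ) := by
        rw [mul_assoc _ _ (p ^ _), ← mul_pow, inv_mul_cancel₀ hp.ne', one_pow, mul_one]
    _ ≤ E ^ 254 * D * (D * E) * p ^ (4 * (r * m) + κ) := by gcongr
    _ = E ^ 255 * D ^ 2 * p ^ (4 * (r * m) + κ) := by ring
    _ ≤ E ^ 255 * E * p ^ (4 * (r * m) + κ) := by gcongr
    _ = _ := by ring

lemma cr : (D ^ 2)⁻¹ ≤ (p ^ (3 * m) / (4 * (64 * r * (2 * κ + 1)) * (((2 * κ : ℕ) : ℝ) + 1))) ^ r := by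
  have hp := H.hp
  have hD := H.D1
  have hT := H.T2
  have h1 : 4 * (64 * r * (2 * κ + 1)) * (((2 * κ : ℕ) : ℝ) + 1) ≤ 2304 * T ^ 4 := by
    have h2 : 2 * (κ : ℝ) + 1 ≤ 3 * T := by linarith [H.hT1]
    have h3 := H.hT4
    push_cast
    calc _ ≤ 4 * (64 * T * (3 * T)) * (3 * T) := by gcongr
      _ = 2304 * T ^ 3 := by ring
      _ ≤ _ := by linarith [H.T4.1]
  have h4 : D⁻¹ ≤ (p ^ (3 * m)) ^ r := by
    have h5 := inv_anti₀ (by positivity) H.q2.1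
    rw [← inv_pow, inv_inv] at h5
    refine h5.trans ?_
    rw [← pow_mul]
    exact pow_le_pow_of_le_one hp.le H.hp1 (by nlinarith)
  have h6 := (pow_le_pow_left₀ (by positivity) h1 r).trans H.hD
  have h7 : (0 : ℝ) < r := by exact_mod_cast (by linarith [H.hr] : 0 < r)
  rw [div_pow]
  calc _ = D⁻¹ / D := by field_simp
    _ ≤ _ := by gcongr

lemma Lb : Real.log (2 * (n : ℝ) ^ κ) ≤ 1 + T ^ 2 ∧ 0 ≤ Real.log (2 * (n : ℝ) ^ κ) := by
  have hD := H.D1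
  have h1 : (1 : ℝ) ≤ n := by rw [H.hN]; exact one_le_pow₀ (by linarith [H.DE1])
  have h2 : (1 : ℝ) ≤ (n : ℝ) ^ κ := one_le_pow₀ h1
  refine ⟨?_, Real.log_nonneg (by linarith)⟩
  rw [Real.log_mul (by norm_num) (by positivity), Real.log_pow]
  have h3 := Real.log_two_lt_d9
  have h4 := Real.log_nonneg h1
  have h5 : (κ : ℝ) * Real.log n ≤ T * T :=
    mul_le_mul H.hT1 H.hT5 h4 (by linarith [H.T2])
  nlinarith

lemma L2 : 2 * r * κ * (2 * Real.log (2 * (n : ℝ) ^ κ) + 1) ≤ D := by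
  obtain ⟨h1, h2⟩ := H.Lb
  have h3 := H.hT1
  have h4 := H.hT4
  have h5 := H.T2
  calc _ ≤ 2 * T * T * (2 * (1 + T ^ 2) + 1) := by gcongr
    _ ≤ _ := by linarith [H.J1, H.T4.2.1, H.T4.2.2.2]

lemma delta : (r : ℝ) * (2 * D⁻¹ + 4 * (2 * ((((2 * κ : ℕ) : ℝ) + 1) * 2 / (64 * r * (2 * κ + 1))) +
    ((2 * κ : ℕ) : ℝ) * 4 ^ (4 * (r * m)) * (64 * r * (2 * κ + 1)) *
      ((((2 * κ : ℕ) : ℝ) + 1) / D ^ 3))) < 1 := by
  have hD := H.D1
  have hT := H.T2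
  have h7 : (0 : ℝ) < r := by exact_mod_cast (by linarith [H.hr] : 0 < r)
  have h1 : (r : ℝ) * (2 * D⁻¹) ≤ 1 / 4 := by
    rw [← mul_assoc, ← div_eq_mul_inv, div_le_iff₀ (by linarith)]
    linarith [H.hT4, H.J1, H.T4.2.2.1]
  have h2 : (r : ℝ) * (4 * (2 * ((((2 * κ : ℕ) : ℝ) + 1) * 2 / (64 * r * (2 * κ + 1))))) = 1 / 4 := by
    push_cast
    field_simp
    norm_num
  have h3 : (r : ℝ) * (4 * (((2 * κ : ℕ) : ℝ) * 4 ^ (4 * (r * m)) * (64 * r * (2 * κ + 1)) *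
      ((((2 * κ : ℕ) : ℝ) + 1) / D ^ 3))) ≤ 1 / 4 := by
    have h4 : 2 * (κ : ℝ) + 1 ≤ 3 * T := by linarith [H.hT1]
    have h5 := H.hT4
    have h6 := H.hT1
    have h8 := H.q2.2
    push_cast
    calc _ ≤ T * (4 * (2 * T * D ^ 2 * (64 * T * (3 * T)) * ((3 * T) / D ^ 3))) := by gcongr
      _ = 4608 * T ^ 5 / D := by field_simp; ring
      _ ≤ _ := by
        rw [div_le_iff₀ (by linarith)]
        have h9 : T ^ 5 ≤ T ^ 8 := pow_le_pow_right₀ (by linarith) (by norm_num)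
        have h10 : 0 ≤ T ^ 8 := by positivity
        have h11 := H.J2
        rw [mul_pow, ← pow_mul] at h11
        norm_num at h11
        linarith
  linarith

lemma rho : 16 * 4 ^ r * ((D ^ r) ^ 248) ^ (3 * m + 1) ≤
    ((D ^ 14) ^ (r * m))⁻¹ * (n * p ^ (4 * (r * m) + κ)) ^ (3 * m + 1) := by
  have hD := H.D1
  have h1 : (16 : ℝ) * 4 ^ r ≤ D := by
    have h2 : (4 : ℝ) ^ 2 ≤ 4 ^ r := pow_le_pow_right₀ (by norm_num) H.hr
    calc _ ≤ (4 : ℝ) ^ r * 4 ^ r := by gcongr; linarith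
      _ = 16 ^ r := by rw [← mul_pow]; norm_num
      _ ≤ (2304 * T ^ 4) ^ r := by gcongr; linarith [H.T4.2.2.2]
      _ ≤ _ := H.hD
  have h3 : (D ^ r) ^ 254 ≤ n * p ^ (4 * (r * m) + κ) :=
    (le_mul_of_one_le_right (by positivity) (by linarith)).trans H.big
  have h4 : D * (D ^ 14) ^ (r * m) ≤ ((D ^ r) ^ 6) ^ (3 * m + 1) := by
    rw [← pow_mul, ← pow_mul, ← pow_mul, ← pow_succ']
    refine pow_le_pow_right₀ (by linarith) ?_
    have := H.hr
    nlinarith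
  rw [le_inv_mul_iff₀ (by positivity)]
  calc _ ≤ (D ^ 14) ^ (r * m) * (D * ((D ^ r) ^ 248) ^ (3 * m + 1)) := by gcongr
    _ = (D * (D ^ 14) ^ (r * m)) * ((D ^ r) ^ 248) ^ (3 * m + 1) := by ring
    _ ≤ ((D ^ r) ^ 6) ^ (3 * m + 1) * ((D ^ r) ^ 248) ^ (3 * m + 1) := by gcongr
    _ = ((D ^ r) ^ 254) ^ (3 * m + 1) := by rw [← mul_pow, ← pow_add]
    _ ≤ _ := by gcongr

lemma theta : (4 * (((2 * κ : ℕ) : ℝ) + 1) * 4 ^ (2 * κ)) ^ 4 * ((n / (D ^ r) ^ 238) ^ 3 *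
    (2 * p⁻¹) ^ (4 * (2 * κ)) * (2 * ((D ^ r) ^ 100)⁻¹ + ((D ^ r) ^ 238)⁻¹)) ≤ (D⁻¹) ^ 4 := by
  have hD := H.D1
  have hp := H.hp
  have h1 : 4 * (((2 * κ : ℕ) : ℝ) + 1) ≤ D := by
    push_cast
    linarith [H.hT1, H.J1, H.T4.2.2.1, H.T2]
  have h2 : (4 : ℝ) ^ (2 * κ) ≤ (D ^ r) ^ 4 := by
    calc _ = ((2 : ℝ) ^ κ) ^ 4 := by
          rw [← pow_mul, show κ * 4 = 2 * (2 * κ) by ring, pow_mul (2 : ℝ)]; norm_num
      _ ≤ _ := by gcongr; exact H.q1.2
  have h3 : (2 * p⁻¹) ^ (4 * (2 * κ)) ≤ (D ^ r) ^ 8 := by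
    rw [show 4 * (2 * κ) = κ * 8 by ring, pow_mul]
    gcongr
    exact H.hq1
  have h4 := H.DE
  have h5 := H.DE1
  rw [H.hN]
  generalize D ^ r = E at h2 h3 h4 h5 ⊢
  have hE : 1 ≤ E := by linarith
  have h6 : (E ^ 238)⁻¹ ≤ (E ^ 100)⁻¹ :=
    inv_anti₀ (by positivity) (pow_le_pow_right₀ hE (by norm_num))
  calc _ ≤ (D * E ^ 4) ^ 4 * ((E ^ 256 / E ^ 238) ^ 3 * E ^ 8 * (2 * (E ^ 100)⁻¹ + (E ^ 100)⁻¹)) := by
        gcongr
    _ = 3 * (D ^ 2) ^ 4 / E ^ 22 * (D⁻¹) ^ 4 := by field_simp; ring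
    _ ≤ _ := by
        refine mul_le_of_le_one_left (by positivity) ?_
        rw [div_le_one (by positivity)]
        calc _ ≤ E * E ^ 4 := by gcongr; linarith
          _ = E ^ 5 := by ring
          _ ≤ _ := pow_le_pow_right₀ hE (by norm_num)

lemma hKt (t : Fin r) : (Kt (fun i : Fin k => (⟨i / κ, Nat.div_lt_of_lt_mul
    (by rw [mul_comm]; exact lt_of_lt_of_le i.2 H.hk)⟩ : Fin r)) t).card ≤ κ := by
  refine le_trans (card_le_card_of_injOn (t := range κ) (fun i => i.val % κ)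
    (fun i _ => mem_coe.2 (mem_range.2 (Nat.mod_lt _ H.hκ))) ?_) (by simp)
  intro i hi j hj hij
  have h1 := congrArg Fin.val ((mem_filter.1 hi).2.trans (mem_filter.1 hj).2.symm)
  simp only at h1 hij
  apply Fin.ext
  rw [← Nat.div_add_mod i κ, ← Nat.div_add_mod j κ, h1, hij]

end Num

lemma Cod.mono {V : Type*} [Fintype V] [DecidableEq V] {G : SimpleGraph V} [DecidableRel G.Adj]
    {p ε : ℝ} {z z' : ℕ} (h : Cod G p ε z) (hz : z' ≤ z) : Cod G p ε z' :=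
  fun Z hZ => h Z (hZ.trans hz)

theorem det_num {n k r κ m : ℕ} {p D T : ℝ} (H : Num n k r κ m p D T) (G : SimpleGraph (Fin n))
    [DecidableRel G.Adj] (hG : Cod G p ((D ^ r) ^ 100)⁻¹ (4 * κ + 4 * (r * m))) {s : ℕ}
    (h : CPRef (cliqueCNF G k) s) : D ^ (6 * (r * m)) ≤ s := by
  have hD := H.D1
  have hE := H.DE1
  have hE2 := H.DE
  have hE1 : 1 ≤ D ^ r := by linarith
  have hT := H.T2
  have hJ := H.J1
  obtain ⟨hT3, hT2, hT1, hT0⟩ := H.T4
  have hn : (0 : ℝ) < n := by rw [H.hN]; positivity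
  have hp := H.hp
  have hr : (2 : ℝ) ≤ r := by exact_mod_cast H.hr
  have hk : (0 : ℝ) < k := by exact_mod_cast H.hk0
  have hbig := H.big
  have hcr := H.cr
  have hpow : ∀ a b : ℕ, a ≤ b → (D ^ r) ^ a ≤ (D ^ r) ^ b := fun a b => pow_le_pow_right₀ hE1
  have hD3 : D ^ 3 ≤ (D ^ r) ^ 2 := by
    calc _ ≤ (D ^ 2) ^ 2 := by rw [← pow_mul]; exact pow_le_pow_right₀ (by linarith) (by norm_num)
      _ ≤ _ := by gcongr
  have hAF : (D ^ r) ^ 240 * D * (D ^ 6 / (D ^ r) ^ 240) * D ^ 7 = D ^ 14 := by field_simp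
  let A : Par G (fun i : Fin k => (⟨i / κ, Nat.div_lt_of_lt_mul
      (by rw [mul_comm]; exact lt_of_lt_of_le i.2 H.hk)⟩ : Fin r)) :=
    { i0 := ⟨0, H.hk0⟩
      v0 := ⟨0, by exact_mod_cast hn⟩
      p := p
      ε := ((D ^ r) ^ 100)⁻¹
      lam := (D ^ r) ^ 238
      η := D⁻¹
      σ := 64 * r * (2 * κ + 1)
      l1 := (D ^ r) ^ 240
      l2 := (D ^ r) ^ 248
      lw := (D ^ r) ^ 248 / D ^ 3
      lX := (D ^ r) ^ 240 / D ^ 3
      w0 := D ^ 6 / (D ^ r) ^ 240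
      θ := ((D ^ 14) ^ (r * m))⁻¹
      M := (D ^ r) ^ 240 * D
      F := D ^ 7
      L := Real.log (2 * (n : ℝ) ^ κ)
      z := 2 * κ
      κ := κ
      w := r * m
      dm := 3 * m
      W := 4 * (r * m)
      z0 := 4 * κ + 4 * (r * m)
      E := ⟨hp, H.hp1, by positivity, hG.mono (by omega), one_le_pow₀ hE1,
        by rw [Fintype.card_fin, H.hN]; exact hpow _ _ (by norm_num), by positivity,
        inv_le_one_of_one_le₀ (by linarith), by rw [Fintype.card_fin]; exact H.theta⟩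
      O := ⟨hp, H.hp1, by rwa [Fintype.card_fin], by positivity, H.hκ, by
        have h1 := hpow 1 100 (by norm_num)
        rw [inv_mul_le_iff₀ (by positivity)]
        linarith [H.hT1], hG⟩
      hK := H.hKt
      hz := le_rfl
      hz0 := by omega
      hW := by rw [Fintype.card_fin]; nlinarith
      hσ := by
        have : (0 : ℝ) ≤ κ := Nat.cast_nonneg _
        nlinarith
      hl1 := one_le_pow₀ hE1
      hl12 := hpow _ _ (by norm_num)
      hw0 := by positivity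
      hθ := by positivity
      hlX := by
        rw [Fintype.card_fin, Fintype.card_fin]
        have h1 : (2 * (((3 * m : ℕ) : ℝ) + 1)) * (2 * k) ≤ D := by
          have h2 := H.hT3
          have h3 := H.hT2
          push_cast
          calc _ ≤ (2 * (3 * T + T)) * (2 * T) := by gcongr; linarith
            _ ≤ _ := by linarith
        calc _ = (D ^ r) ^ 240 / (2 * k) * ((2 * (((3 * m : ℕ) : ℝ) + 1)) * (2 * k) / D ^ 3) := by
              field_simp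
          _ ≤ (D ^ r) ^ 240 / (2 * k) * (D / D ^ 3) := by gcongr
          _ = (D ^ r) ^ 240 / (2 * k) * (D ^ 2)⁻¹ := by field_simp
          _ ≤ _ := by gcongr
      hlam := by
        rw [le_div_iff₀ (by positivity)]
        calc _ ≤ D * (D ^ r) ^ 238 * D ^ 3 := by gcongr; linarith
          _ = (D ^ r) ^ 238 * (D ^ 2) ^ 2 := by ring
          _ ≤ (D ^ r) ^ 238 * (D ^ r) ^ 2 := by gcongr
          _ = _ := by ring
      hq := by
        rw [le_div_iff₀ (by positivity)]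
        have h1 : ((2 * κ : ℕ) : ℝ) + 1 ≤ D ^ r := by push_cast; linarith [H.hT1]
        have h2 := H.q1.1
        calc _ ≤ D ^ r * D ^ r * (D ^ r) ^ 2 := by gcongr
          _ = (D ^ r) ^ 4 := by ring
          _ ≤ _ := hpow _ _ (by norm_num)
      hw0X := by
        have h1 : D ^ 6 / (D ^ r) ^ 240 * ((D ^ r) ^ 240 / D ^ 3) = D ^ 3 := by field_simp
        have h2 : D ≤ D ^ 3 := le_self_pow₀ (by linarith) (by norm_num)
        rw [h1]
        push_cast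
        linarith [H.hT1]
      hδ := by
        have h1 : D ^ 6 / (D ^ r) ^ 240 * ((D ^ r) ^ 240 / D ^ 3) = D ^ 3 := by field_simp
        rw [h1, Fintype.card_fin]
        exact H.delta
      hlw := by
        rw [Fintype.card_fin, Fintype.card_fin]
        have h1 : 2 * (k : ℝ) ≤ D := by linarith [H.hT2]
        calc _ = (D ^ r) ^ 248 / D * (D ^ 2)⁻¹ := by field_simp
          _ ≤ _ := by gcongr
      hρ1 := by
        rw [Fintype.card_fin]
        exact (hpow _ 254 (by norm_num)).trans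
          ((le_mul_of_one_le_right (by positivity) (by linarith)).trans hbig)
      hρ := by rw [Fintype.card_fin, Fintype.card_fin]; exact H.rho
      hL0 := H.Lb.2
      hL := by rw [Fintype.card_fin]
      hM := by
        rw [Fintype.card_fin, mul_comm]
        exact mul_le_mul_of_nonneg_left H.L2 (by positivity)
      hdev := by
        rw [le_div_iff₀ (by positivity)]
        have h1 := H.L2
        have h2 := H.Lb.2
        have h3 := H.q2.2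
        have h4 : 4 * κ * (2 * Real.log (2 * (n : ℝ) ^ κ) + 1) ≤ D := by
          refine le_trans ?_ h1
          gcongr
          linarith
        calc _ = 4 * κ * (2 * Real.log (2 * (n : ℝ) ^ κ) + 1) * 4 ^ (4 * (r * m)) * D ^ 3 *
              (D ^ r) ^ 240 := by ring
          _ ≤ D * D ^ 2 * D ^ 3 * (D ^ r) ^ 240 := by gcongr
          _ = D ^ 3 * D ^ 3 * (D ^ r) ^ 240 := by ring
          _ ≤ (D ^ r) ^ 2 * (D ^ r) ^ 2 * (D ^ r) ^ 240 := by gcongr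
          _ = (D ^ r) ^ 244 := by ring
          _ ≤ _ := hpow _ _ (by norm_num)
      hA := by
        have h1 : (D ^ r) ^ 240 * D * (D ^ 6 / (D ^ r) ^ 240) = D ^ 7 := by field_simp
        rw [h1]
        exact one_le_pow₀ (by linarith)
      hF := one_le_pow₀ (by linarith)
      hB := by
        rw [hAF, Fintype.card_fin, Fintype.card_fin]
        refine le_trans (le_of_eq ?_) hbig
        rw [← pow_mul D 14, mul_comm 14, pow_mul]
        ring
      hθF := by rw [hAF, inv_mul_cancel₀ (by positivity)]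
      hroot := by
        rw [Fintype.card_fin]
        refine le_trans ?_ hbig
        have h1 : (D ^ r) ^ 248 / D ^ 3 ≤ (D ^ r) ^ 254 :=
          (div_le_self (by positivity) (one_le_pow₀ (by linarith))).trans (hpow _ _ (by norm_num))
        rw [mul_comm]
        gcongr
        linarith }
  have h1 := det A h
  change (D ^ 7) ^ (r * m) < _ at h1
  rw [Fintype.card_fin] at h1
  have h2 : D ^ (6 * (r * m)) * D ≤ (D ^ 7) ^ (r * m) := by
    rw [← pow_succ, ← pow_mul]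
    refine pow_le_pow_right₀ (by linarith) ?_
    have := Nat.mul_le_mul H.hr H.hm
    omega
  have h3 : 16 * (r : ℝ) * s ≤ s * D := by
    rw [mul_comm]
    exact mul_le_mul_of_nonneg_left (by linarith [H.hT4]) (by positivity)
  exact le_of_mul_le_mul_right (h2.trans (h1.le.trans h3)) (by linarith)

end Pool.Agent.Lib.MP_7836d5_lc.Avg
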