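import Pool.Agent.Lib.MP_7836d5_lc.Avg.Par

set_option autoImplicit false
set_option linter.unusedSectionVars false

namespace Pool.Agent.Lib.MP_7836d5_lc.Avg

open Finset

lemma sum_le_cover {α β : Type*} [DecidableEq α] (S : Finset α) (I : Finset β) (φ : β → α)
    (f : α → ℝ) (g : β → ℝ) (hg : ∀ i ∈ I, 0 ≤ g i)
    (h : ∀ x ∈ S, ∃ i ∈ I, φ i = x ∧ f x ≤ g i) : ∑ x ∈ S, f x ≤ ∑ i ∈ I, g i := by
  calc _ ≤ ∑ x ∈ S, ∑ i ∈ I.filter (fun i => φ i = x), g i := by
        refine sum_le_sum fun x hx => ?_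
        obtain ⟨i, hi, h1, h2⟩ := h x hx
        exact h2.trans (single_le_sum (fun j hj => hg j (mem_filter.1 hj).1)
          (mem_filter.2 ⟨hi, h1⟩))
    _ = ∑ i ∈ I.filter (fun i => φ i ∈ S), g i := sum_fiberwise_eq_sum_filter _ _ _ _
    _ ≤ _ := sum_le_sum_of_subset_of_nonneg (filter_subset _ _) fun i hi _ => hg i hi

variable {ι τ V : Type*} [Fintype ι] [DecidableEq ι] [Fintype τ] [DecidableEq τ]
  [Fintype V] [DecidableEq V] {G : SimpleGraph V} [DecidableRel G.Adj] {pt : ι → τ}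

/-- The usable cliques of party `t` next to the pattern `u`. -/
noncomputable def Us (A : Par G pt) (R : Finset (Finset (ι × V) × Finset (ι × V))) (t : τ)
    (u : Finset (ι × V)) : Finset (Finset (ι × V)) :=
  (Om G (Kt pt t) u).filter fun y => ¬ Bad R A.om u y

/-- A peeling for every party and pattern. -/
abbrev Peels (A : Par G pt) (R : Finset (Finset (ι × V) × Finset (ι × V)))
    (a : Finset (ι × V) → ℝ) :=
  ∀ t u, Peel (Us A R t u) (fun y => y \ u) a A.l1

variable {A : Par G pt} {R : Finset (Finset (ι × V) × Finset (ι × V))} {a : Finset (ι × V) → ℝ}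

lemma Us_sub (t : τ) (u : Finset (ι × V)) : Us A R t u ⊆ Om G (Kt pt t) u := filter_subset _ _

lemma log_Us (t : τ) (u : Finset (ι × V)) : Real.log (Us A R t u).card ≤ A.L := by
  rcases Nat.eq_zero_or_pos (Us A R t u).card with h | h
  · rw [h]; simpa using A.hL0
  refine le_trans (Real.log_le_log (by exact_mod_cast h) ?_) A.hL
  have h1 : ((Us A R t u).card : ℝ) ≤ (Om G (Kt pt t) (∅ : Finset (ι × V))).card := by
    exact_mod_cast card_le_card ((Us_sub t u).trans (Om_anti (empty_subset _)))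
  have h2 := (fr_le (Kt pt t) (∅ : Finset (ι × V))).trans (A.hK t)
  have h3 := A.O.le (u := (∅ : Finset (ι × V))) (A.hK t) (by have := A.hz0; simp; omega)
  have h4 := Ex_le A.O.hN A.O.hp A.O.hp1 (fr (Kt pt t) (∅ : Finset (ι × V)))
    (∅ : Finset (ι × V)).card
  have h5 : (1 : ℝ) ≤ Fintype.card V := by
    exact_mod_cast Fintype.card_pos_iff.2 ⟨A.v0⟩
  have h6 := pow_le_pow_right₀ h5 h2
  linarith

lemma img_sum (Q : Peels A R a) (t : τ) (u b0 : Finset (ι × V)) {x : ℝ} (hx : 0 ≤ x)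
    (hx1 : A.l1 * x ≤ 1) :
    ∑ c ∈ ((Us A R t u).image (Q t u).b).filter (fun c => b0 ⊆ c ∧ c ≠ b0),
      x ^ (c.card - b0.card) ≤ A.κ * (2 * A.L + 1) * (A.l1 * x) := by
  have hmaps : ∀ c ∈ ((Us A R t u).image (Q t u).b).filter (fun c => b0 ⊆ c ∧ c ≠ b0),
      c.card - b0.card ∈ Icc 1 A.κ := by
    intro c hc
    obtain ⟨h1, h2, h3⟩ := mem_filter.1 hc
    obtain ⟨y, hy, rfl⟩ := mem_image.1 h1
    have h4 := card_lt_card (ssubset_of_subset_of_ne h2 h3.symm)
    have h5 := card_le_card (((Q t u).fix y hy y ((Q t u).mem y hy)).trans sdiff_subset)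
    rw [Om_card (Us_sub t u hy)] at h5
    have h6 := A.hK t
    exact mem_Icc.2 (by omega)
  have hL := A.hL0
  have hl := A.hl1
  rw [← sum_fiberwise_of_maps_to hmaps]
  calc _ ≤ ∑ _s ∈ Icc 1 A.κ, (2 * A.L + 1) * (A.l1 * x) := by
        refine sum_le_sum fun s hs => ?_
        rw [sum_congr rfl (g := fun _ => x ^ s) (fun c hc => by rw [(mem_filter.1 hc).2]),
          sum_const, nsmul_eq_mul]
        have h1 := (Q t u).cnt' A.hl1 A.L A.hL0 (log_Us t u) b0 s
        have h2 : (((((Us A R t u).image (Q t u).b).filter (fun c => b0 ⊆ c ∧ c ≠ b0)).filter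
            fun c => c.card - b0.card = s).card : ℝ) ≤
            (((Us A R t u).image (Q t u).b).filter fun c => b0 ⊆ c ∧ c.card = b0.card + s).card := by
          refine Nat.cast_le.2 (card_le_card fun c hc => ?_)
          obtain ⟨h3, h4⟩ := mem_filter.1 hc
          obtain ⟨h5, h6, _⟩ := mem_filter.1 h3
          have := card_le_card h6
          exact mem_filter.2 ⟨h5, h6, by omega⟩
        calc _ ≤ (2 * A.L + 1) * A.l1 ^ s * x ^ s := by gcongr; exact h2.trans h1
          _ = (2 * A.L + 1) * (A.l1 * x) ^ s := by rw [mul_pow, mul_assoc]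
          _ ≤ _ := by
            gcongr
            exact pow_le_of_le_one (by positivity) hx1 (by have := (mem_Icc.1 hs).1; omega)
    _ = _ := by simp [mul_assoc]

/-- Patterns produced by repeated peeling. -/
inductive Reach (Q : Peels A R a) : Finset (ι × V) → Prop
  | base : Reach Q ∅
  | step (u : Finset (ι × V)) (t : τ) (y : Finset (ι × V)) : Reach Q u → u.card ≤ A.w →
      y ∈ Us A R t u → A.θ * A.exu t u < (Q t u).Res y → Reach Q (u ∪ (Q t u).b y)

noncomputable instance (Q : Peels A R a) : DecidablePred (Reach Q) := fun _ => Classical.dec _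

lemma Reach.card_le {Q : Peels A R a} {u : Finset (ι × V)} (h : Reach Q u) : u.card ≤ A.W := by
  cases h with
  | base => simp
  | step u t y _ h1 h2 h3 =>
    have h4 := A.hW
    have h5 := Nat.le_mul_of_pos_left A.dm A.r_pos
    have h6 : ((Q t u).b y).card ≤ A.dm := by
      refine A.size_bound (Us_sub t u h2) ((Q t u).fix y h2 y ((Q t u).mem y h2)) (by omega)
        (S := (Q t u).Pt y) (fun y' hy' => Om_union (Us_sub t u ((Q t u).sub y h2 hy'))
        (((Q t u).fix y h2 y' hy').trans sdiff_subset)) (by linarith [A.hl1]) A.hl12 ?_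
      refine h3.trans_le (((Q t u).res y h2).trans ?_)
      have h7 : (1 : ℝ) ≤ 4 ^ Fintype.card τ := one_le_pow₀ (by norm_num)
      have h8 := A.hl1
      gcongr
      linarith
    have := card_union_le u ((Q t u).b y)
    omega

lemma Reach.parent {Q : Peels A R a} {u : Finset (ι × V)} (h : Reach Q u) : u = ∅ ∨
    ∃ u0 t c, Reach Q u0 ∧ c ∈ (Us A R t u0).image (Q t u0).b ∧ c ≠ ∅ ∧ u0 ∪ c = u ∧
      u.card = u0.card + c.card := by
  induction h with
  | base => exact Or.inl rfl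
  | step u t y h0 _ h2 _ ih =>
    by_cases hb : (Q t u).b y = ∅
    · rw [hb, union_empty]; exact ih
    · exact Or.inr ⟨u, t, _, h0, mem_image_of_mem _ h2, hb, rfl, card_union_of_disjoint
        (disjoint_of_subset_right ((Q t u).fix y h2 y ((Q t u).mem y h2)) disjoint_sdiff)⟩

lemma Par.M_ge (A : Par G pt) : A.l1 ≤ A.M := by
  refine le_trans ?_ A.hM
  have h1 : (1 : ℝ) ≤ Fintype.card τ := by exact_mod_cast A.r_pos
  have h2 : (1 : ℝ) ≤ A.κ := by exact_mod_cast A.O.hκ
  have h3 := A.hL0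
  have h4 := A.hl1
  refine le_mul_of_one_le_left (by linarith) ?_
  calc (1 : ℝ) ≤ 2 * 1 * 1 * (2 * 0 + 1) := by norm_num
    _ ≤ _ := by gcongr

lemma reach_weight (Q : Peels A R a) :
    ∑ u ∈ univ.filter (Reach Q), (A.M⁻¹) ^ u.card ≤ 2 := by
  have hM : 0 < A.M := by linarith [A.M_ge, A.hl1]
  have h1 : ∑ u ∈ (univ.filter (Reach Q)).erase ∅, (A.M⁻¹) ^ u.card ≤
      ∑ i ∈ (univ.filter (Reach Q)).sigma fun u => (univ : Finset τ).sigma fun t =>
        ((Us A R t u).image (Q t u).b).filter (fun c => ∅ ⊆ c ∧ c ≠ ∅),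
        (A.M⁻¹) ^ i.1.card * (A.M⁻¹) ^ (i.2.2.card - (∅ : Finset (ι × V)).card) := by
    refine sum_le_cover _ _ (fun i => i.1 ∪ i.2.2) _ _ (fun _ _ => by positivity) fun u hu => ?_
    obtain ⟨h2, h3⟩ := mem_erase.1 hu
    obtain ⟨u0, t, c, h4, h5, h6, h7, h8⟩ := (mem_filter.1 h3).2.parent.resolve_left h2
    refine ⟨⟨u0, t, c⟩, mem_sigma.2 ⟨mem_filter.2 ⟨mem_univ _, h4⟩, mem_sigma.2 ⟨mem_univ _,
      mem_filter.2 ⟨h5, empty_subset _, h6⟩⟩⟩, h7, ?_⟩
    simp [h8, pow_add]
  rw [sum_sigma] at h1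
  have h2 : ∀ u ∈ univ.filter (Reach Q), ∑ i ∈ (univ : Finset τ).sigma fun t =>
        ((Us A R t u).image (Q t u).b).filter (fun c => ∅ ⊆ c ∧ c ≠ ∅),
        (A.M⁻¹) ^ u.card * (A.M⁻¹) ^ (i.2.card - (∅ : Finset (ι × V)).card) ≤
      (A.M⁻¹) ^ u.card * (1 / 2) := by
    intro u _
    rw [← mul_sum, sum_sigma]
    refine mul_le_mul_of_nonneg_left ?_ (by positivity)
    calc _ ≤ ∑ _t : τ, A.κ * (2 * A.L + 1) * (A.l1 * A.M⁻¹) :=
          sum_le_sum fun t _ => img_sum Q t u ∅ (by positivity)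
            (by rw [← div_eq_mul_inv, div_le_one hM]; exact A.M_ge)
      _ = (2 * Fintype.card τ * A.κ * (2 * A.L + 1) * A.l1) / A.M / 2 := by
          simp only [sum_const, card_univ, nsmul_eq_mul]
          field_simp
      _ ≤ _ := by
          gcongr
          rw [div_le_one hM]
          exact A.hM
  have h3 := h1.trans (sum_le_sum h2)
  rw [← sum_mul] at h3
  have h4 := add_sum_erase (univ.filter (Reach Q)) (fun u => (A.M⁻¹) ^ u.card)
    (a := ∅) (mem_filter.2 ⟨mem_univ _, Reach.base⟩)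
  simp only [card_empty, pow_zero] at h4
  linarith

/-- The number of fixed positions of party `t`. -/
def sh (pt : ι → τ) (t : τ) (u : Finset (ι × V)) : ℕ := (u.filter fun x => pt x.1 = t).card

lemma sh_add {t : τ} {u y : Finset (ι × V)} (hy : y ∈ Om G (Kt pt t) u) :
    sh pt t u + (u \ y).card = u.card ∧ sh pt t u + fr (Kt pt t) u = y.card := by
  have h1 : (u.filter fun x => pt x.1 = t) = u ∩ y := by
    ext x
    rw [mem_filter, mem_inter, and_congr_right_iff]
    exact fun hx => ⟨fun h => Om_mem hy hx (mem_filter.2 ⟨mem_univ _, h⟩),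
      fun h => (mem_filter.1 (Om_col hy h)).2⟩
  rw [sh, h1, ← Om_sdiff hy]
  exact ⟨card_inter_add_card_sdiff _ _, by rw [inter_comm]; exact card_inter_add_card_sdiff _ _⟩

lemma exists_share (A : Par G pt) (u : Finset (ι × V)) :
    ∃ t, u.card ≤ Fintype.card τ * sh pt t u := by
  obtain ⟨t, _, hmax⟩ := (univ : Finset τ).exists_max_image (fun t => sh pt t u)
    ⟨pt A.i0, mem_univ _⟩
  refine ⟨t, ?_⟩
  rw [card_eq_sum_card_fiberwise (f := fun x => pt x.1) (t := univ) (fun _ _ => mem_coe.2 (mem_univ _))]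
  calc _ ≤ ∑ _i : τ, sh pt t u := sum_le_sum hmax
    _ = _ := by simp

lemma wt_le (A : Par G pt) {t : τ} {u y : Finset (ι × V)} (hy : y ∈ Om G (Kt pt t) u)
    (hu : u.card ≤ A.W) :
    A.om y.card ^ (u \ y).card / Ex (Fintype.card V) A.p y.card 0 ≤
      (A.M⁻¹) ^ u.card * ((A.M * A.w0) ^ (u.card - sh pt t u) /
        (A.M * A.w0 * A.F) ^ (Fintype.card τ * sh pt t u)) / A.exu t u := by
  obtain ⟨h1, h2⟩ := sh_add hy
  have h3 : sh pt t u ≤ A.κ := by
    have := Om_card hy
    have := A.hK t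
    omega
  have hp := A.O.hp
  have hN := A.O.hN
  have hw0 := A.hw0
  have hF := A.hF
  have hM : 0 < A.M := by linarith [A.M_ge, A.hl1]
  rw [Par.exu, ← h2, ← h1, Nat.add_sub_cancel_left, Ex_add, zero_add, Ex_shift, Par.om]
  have h4 : (u \ y).card ≤ A.W := by omega
  generalize sh pt t u = s at h3 ⊢
  generalize (u \ y).card = o at h4 ⊢
  generalize fr (Kt pt t) u = l
  have h5 := Ex_ge hN hp A.O.hp1 A.κ s 0 (by omega)
  have h6 := Ex_pos hN hp l s
  have h7 := Ex_pos hN hp s 0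
  have h8 : A.p ^ A.W ≤ A.p ^ o := pow_le_pow_of_le_one hp.le A.O.hp1 h4
  have h9 : (A.M * (A.M * A.w0 * A.F) ^ Fintype.card τ) ^ s ≤
      (A.p ^ o) ^ s * Ex (Fintype.card V) A.p s 0 := by
    calc _ ≤ (Fintype.card V * A.p ^ (A.W + A.κ)) ^ s := pow_le_pow_left₀ (by positivity) A.hB _
      _ = (A.p ^ A.W) ^ s * (Fintype.card V * A.p ^ A.κ) ^ s := by rw [← mul_pow]; ring
      _ ≤ _ := by gcongr
  generalize Ex (Fintype.card V) A.p s 0 = e0 at h7 h9 ⊢
  generalize Ex (Fintype.card V) A.p l s = e1 at h6 ⊢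
  calc _ = A.w0 ^ o / (A.p ^ (o * l) * e1) / ((A.p ^ o) ^ s * e0) := by
        rw [mul_pow, ← pow_mul, inv_pow, ← pow_mul]
        field_simp
        ring
    _ ≤ A.w0 ^ o / (A.p ^ (o * l) * e1) / (A.M * (A.M * A.w0 * A.F) ^ Fintype.card τ) ^ s := by
        gcongr
    _ = _ := by
        rw [mul_pow A.M A.w0, mul_pow A.M, ← pow_mul, inv_pow]
        field_simp
        ring

/-- The cliques killed at the pattern `u`. -/
noncomputable def Kill (Q : Peels A R a) (t : τ) (u : Finset (ι × V)) : Finset (Finset (ι × V)) :=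
  if A.w < u.card then (if u.card ≤ Fintype.card τ * sh pt t u then Om G (Kt pt t) u else ∅)
  else (Us A R t u).filter fun y => ((Q t u).Res y : ℝ) ≤ A.θ * A.exu t u

lemma kill_sum (Q : Peels A R a) (t : τ) {u : Finset (ι × V)} (hu : u.card ≤ A.W) :
    ∑ y ∈ Kill Q t u, A.om y.card ^ (u \ y).card / Ex (Fintype.card V) A.p y.card 0 ≤
      (A.M⁻¹) ^ u.card * (2 / A.F ^ A.w) := by
  have hsub : Kill Q t u ⊆ Om G (Kt pt t) u := by
    unfold Kill
    split_ifs
    · exact Subset.rfl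
    · exact empty_subset _
    · exact (filter_subset _ _).trans (Us_sub t u)
  have hw0 := A.hw0
  have hF := A.hF
  have hA := A.hA
  have hθ := A.hθ
  have hM : 0 < A.M := by linarith [A.M_ge, A.hl1]
  have hx := A.exu_pos t u
  refine (sum_le_sum fun y hy => wt_le A (hsub hy) hu).trans ?_
  rw [sum_const, nsmul_eq_mul]
  have key : ((Kill Q t u).card : ℝ) / A.exu t u * ((A.M * A.w0) ^ (u.card - sh pt t u) /
        (A.M * A.w0 * A.F) ^ (Fintype.card τ * sh pt t u)) ≤ 2 / A.F ^ A.w := by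
    have hAF : 1 ≤ A.M * A.w0 * A.F := by nlinarith
    unfold Kill
    split_ifs with h1 h2
    · have h3 := A.O.le (u := u) (A.hK t) (by
        have := (fr_le (Kt pt t) u).trans (A.hK t)
        have := A.hz0
        omega)
      have h4 : ((Om G (Kt pt t) u).card : ℝ) / A.exu t u ≤ 2 := by rw [div_le_iff₀ hx]; exact h3
      calc _ ≤ 2 * ((A.M * A.w0) ^ u.card / (A.M * A.w0 * A.F) ^ u.card) := by
            gcongr
            omega
        _ = 2 / A.F ^ u.card := by rw [mul_pow (A.M * A.w0)]; field_simp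
        _ ≤ _ := by gcongr
    · simp only [card_empty, Nat.cast_zero, zero_div, zero_mul]
      positivity
    · have h3 : (((Us A R t u).filter fun y => ((Q t u).Res y : ℝ) ≤ A.θ * A.exu t u).card : ℝ) ≤
          A.θ * A.exu t u := by
        refine le_trans ?_ (Nat.floor_le (by positivity))
        refine Nat.cast_le.2 (le_trans (card_le_card fun y hy => ?_)
          ((Q t u).few ⌊A.θ * A.exu t u⌋₊))
        exact mem_filter.2 ⟨(mem_filter.1 hy).1, Nat.le_floor (mem_filter.1 hy).2⟩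
      have h4 := (div_le_iff₀ hx).2 h3
      calc _ ≤ A.θ * ((A.M * A.w0) ^ A.w / 1) := by
            gcongr
            · omega
            · exact one_le_pow₀ hAF
        _ = A.θ * (A.M * A.w0 * A.F) ^ A.w / A.F ^ A.w := by rw [mul_pow (A.M * A.w0)]; field_simp
        _ ≤ _ := by gcongr; linarith [A.hθF]
  calc _ = (A.M⁻¹) ^ u.card * (((Kill Q t u).card : ℝ) / A.exu t u *
        ((A.M * A.w0) ^ (u.card - sh pt t u) /
        (A.M * A.w0 * A.F) ^ (Fintype.card τ * sh pt t u))) := by ring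
    _ ≤ _ := by gcongr

/-- The new killed pairs. -/
noncomputable def NewR (Q : Peels A R a) : Finset (Finset (ι × V) × Finset (ι × V)) :=
  ((univ.filter (Reach Q)).sigma fun u => (univ : Finset τ).sigma fun t => Kill Q t u).image
    fun i => (i.1 \ i.2.2, i.2.2)

lemma wt_new (Q : Peels A R a) :
    Wt A.om (fun n => Ex (Fintype.card V) A.p n 0) (NewR Q) ≤ 4 * Fintype.card τ / A.F ^ A.w := by
  have hF := A.hF
  calc _ ≤ ∑ i ∈ (univ.filter (Reach Q)).sigma fun u => (univ : Finset τ).sigma fun t => Kill Q t u,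
        A.om i.2.2.card ^ (i.1 \ i.2.2).card / Ex (Fintype.card V) A.p i.2.2.card 0 := by
        refine sum_le_cover _ _ (fun i => (i.1 \ i.2.2, i.2.2)) _ _ (fun i _ =>
          div_nonneg (pow_nonneg (A.om_pos _).le _) (Ex_pos A.O.hN A.O.hp _ _).le) fun e he => ?_
        obtain ⟨i, hi, rfl⟩ := mem_image.1 he
        exact ⟨i, hi, rfl, le_rfl⟩
    _ ≤ ∑ u ∈ univ.filter (Reach Q), ∑ _t : τ, (A.M⁻¹) ^ u.card * (2 / A.F ^ A.w) := by
        rw [sum_sigma]
        refine sum_le_sum fun u hu => ?_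
        rw [sum_sigma]
        exact sum_le_sum fun t _ => kill_sum Q t (mem_filter.1 hu).2.card_le
    _ = (∑ u ∈ univ.filter (Reach Q), (A.M⁻¹) ^ u.card) * (Fintype.card τ * (2 / A.F ^ A.w)) := by
        rw [sum_mul]
        refine sum_congr rfl fun u _ => ?_
        simp only [sum_const, card_univ, nsmul_eq_mul]
        ring
    _ ≤ 2 * (Fintype.card τ * (2 / A.F ^ A.w)) := by gcongr; exact reach_weight Q
    _ = _ := by ring

end Pool.Agent.Lib.MP_7836d5_lc.Avg
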