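import Pool.Agent.Lib.MP_7836d5_lc.Avg.Heavy

set_option autoImplicit false
set_option linter.unusedSectionVars false

namespace Pool.Agent.Lib.MP_7836d5_lc.Avg

open Finset

/-- The expected number of ways to add `l` vertices to a clique of size `s`. -/
noncomputable def Ex (N p : ℝ) : ℕ → ℕ → ℝ
  | 0, _ => 1
  | l + 1, s => N * p ^ s * Ex N p l (s + 1)

lemma Ex_pos {N p : ℝ} (hN : 0 < N) (hp : 0 < p) (l : ℕ) : ∀ s, 0 < Ex N p l s := by
  induction l with
  | zero => intro s; simp [Ex]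
  | succ l ih => intro s; have := ih (s + 1); simp only [Ex]; positivity

lemma Ex_shift (N p : ℝ) (d l : ℕ) : ∀ s, Ex N p l (s + d) = p ^ (d * l) * Ex N p l s := by
  induction l with
  | zero => intro s; simp [Ex]
  | succ l ih =>
    intro s
    simp only [Ex]
    rw [add_right_comm, ih]
    ring

lemma Ex_add (N p : ℝ) (l d : ℕ) : ∀ s, Ex N p (d + l) s = Ex N p d s * Ex N p l (s + d) := by
  induction d with
  | zero => intro s; simp [Ex]
  | succ d ih =>
    intro s
    rw [add_right_comm]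
    simp only [Ex]
    rw [ih, add_assoc, add_comm 1 d]
    ring

lemma Ex_ge {N p : ℝ} (hN : 0 < N) (hp : 0 < p) (hp1 : p ≤ 1) (z d : ℕ) :
    ∀ s, s + d ≤ z → (N * p ^ z) ^ d ≤ Ex N p d s := by
  induction d with
  | zero => intro s _; simp [Ex]
  | succ d ih =>
    intro s hs
    simp only [Ex]
    rw [pow_succ']
    have h1 := ih (s + 1) (by omega)
    have h2 : p ^ z ≤ p ^ s := pow_le_pow_of_le_one hp.le hp1 (by omega)
    gcongr

lemma Ex_le {N p : ℝ} (hN : 0 < N) (hp : 0 < p) (hp1 : p ≤ 1) (d : ℕ) :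
    ∀ s, Ex N p d s ≤ N ^ d := by
  induction d with
  | zero => intro s; simp [Ex]
  | succ d ih =>
    intro s
    simp only [Ex]
    rw [pow_succ']
    have h1 := ih (s + 1)
    have h2 : p ^ s ≤ 1 := pow_le_one₀ hp.le hp1
    have h3 := Ex_pos hN hp d (s + 1)
    calc _ ≤ N * 1 * N ^ d := by gcongr
      _ = _ := by ring

variable {ι V : Type*} [Fintype ι] [DecidableEq ι] [Fintype V] [DecidableEq V]
  (G : SimpleGraph V) [DecidableRel G.Adj]

/-- Partial cliques: distinct positions, pairwise adjacent vertices. -/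
def IsCl (u : Finset (ι × V)) : Prop :=
  ∀ x ∈ u, ∀ x' ∈ u, x ≠ x' → x.1 ≠ x'.1 ∧ G.Adj x.2 x'.2

noncomputable instance (u : Finset (ι × V)) : Decidable (IsCl G u) := Classical.dec _

/-- The cliques on the positions `K` that are compatible with `u`. -/
noncomputable def Om (K : Finset ι) (u : Finset (ι × V)) : Finset (Finset (ι × V)) :=
  univ.filter fun y => y.image Prod.fst = K ∧ IsCl G (y ∪ u)

/-- The vertices of a pattern. -/
def vs (u : Finset (ι × V)) : Finset V := u.image Prod.snd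

/-- The number of free positions. -/
def fr (K : Finset ι) (u : Finset (ι × V)) : ℕ := (K \ u.image Prod.fst).card

variable {G}

lemma IsCl.mono {u u' : Finset (ι × V)} (h : IsCl G u') (h1 : u ⊆ u') : IsCl G u :=
  fun x hx x' hx' => h x (h1 hx) x' (h1 hx')

lemma IsCl.card_vs {u : Finset (ι × V)} (h : IsCl G u) : (vs u).card = u.card := by
  apply card_image_of_injOn
  intro x hx x' hx' h1
  by_contra h2
  have := (h x hx x' hx' h2).2
  rw [h1] at this
  exact G.irrefl this

lemma IsCl.card_fst {u : Finset (ι × V)} (h : IsCl G u) : (u.image Prod.fst).card = u.card := by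
  apply card_image_of_injOn
  intro x hx x' hx' h1
  by_contra h2
  exact (h x hx x' hx' h2).1 h1

lemma mem_Om {K : Finset ι} {u y : Finset (ι × V)} :
    y ∈ Om G K u ↔ y.image Prod.fst = K ∧ IsCl G (y ∪ u) := by simp [Om]

lemma Om_anti {K : Finset ι} {u u' : Finset (ι × V)} (h : u ⊆ u') : Om G K u' ⊆ Om G K u :=
  fun _ hy => mem_Om.2 ⟨(mem_Om.1 hy).1, (mem_Om.1 hy).2.mono (union_subset_union_right h)⟩

lemma Om_cl {K : Finset ι} {u y : Finset (ι × V)} (hy : y ∈ Om G K u) : IsCl G y :=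
  (mem_Om.1 hy).2.mono subset_union_left

lemma Om_cl' {K : Finset ι} {u y : Finset (ι × V)} (hy : y ∈ Om G K u) : IsCl G u :=
  (mem_Om.1 hy).2.mono subset_union_right

lemma Om_card {K : Finset ι} {u y : Finset (ι × V)} (hy : y ∈ Om G K u) : y.card = K.card := by
  rw [← (Om_cl hy).card_fst, (mem_Om.1 hy).1]

lemma Om_col {K : Finset ι} {u y : Finset (ι × V)} (hy : y ∈ Om G K u) {x : ι × V} (hx : x ∈ y) :
    x.1 ∈ K := by
  rw [← (mem_Om.1 hy).1]; exact mem_image_of_mem _ hx

lemma Om_mem {K : Finset ι} {u y : Finset (ι × V)} (hy : y ∈ Om G K u) {x : ι × V} (hx : x ∈ u)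
    (h : x.1 ∈ K) : x ∈ y := by
  obtain ⟨h1, h2⟩ := mem_Om.1 hy
  rw [← h1] at h
  obtain ⟨x', hx', h3⟩ := mem_image.1 h
  by_cases h4 : x' = x
  · exact h4 ▸ hx'
  · exact absurd h3 (h2 x' (mem_union_left _ hx') x (mem_union_right _ hx) h4).1

lemma Om_union {K : Finset ι} {u y b : Finset (ι × V)} (hy : y ∈ Om G K u) (hb : b ⊆ y) :
    y ∈ Om G K (u ∪ b) := by
  refine mem_Om.2 ⟨(mem_Om.1 hy).1, (mem_Om.1 hy).2.mono ?_⟩
  exact union_subset subset_union_left (union_subset subset_union_right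
    (hb.trans subset_union_left))

lemma Om_sdiff {K : Finset ι} {u y : Finset (ι × V)} (hy : y ∈ Om G K u) :
    (y \ u).card = fr K u := by
  rw [← ((Om_cl hy).mono sdiff_subset).card_fst, fr]
  congr 1
  ext i
  simp only [mem_image, mem_sdiff]
  constructor
  · rintro ⟨x, ⟨hx, hx'⟩, rfl⟩
    refine ⟨Om_col hy hx, ?_⟩
    rintro ⟨x', h1, h2⟩
    have : x' ≠ x := fun h => hx' (h ▸ h1)
    exact ((mem_Om.1 hy).2 x' (mem_union_right _ h1) x (mem_union_left _ hx) this).1 h2
  · rintro ⟨h1, h2⟩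
    rw [← (mem_Om.1 hy).1] at h1
    obtain ⟨x, hx, rfl⟩ := mem_image.1 h1
    exact ⟨x, ⟨hx, fun h => h2 ⟨x, h, rfl⟩⟩, rfl⟩

lemma fr_le (K : Finset ι) (u : Finset (ι × V)) : fr K u ≤ K.card := card_le_card sdiff_subset

lemma fr_union {K : Finset ι} {u y b : Finset (ι × V)} (hy : y ∈ Om G K u) (hb : b ⊆ y \ u) :
    b.card + fr K (u ∪ b) = fr K u := by
  rw [← Om_sdiff hy, ← Om_sdiff (Om_union hy (hb.trans sdiff_subset)), sdiff_union_distrib,
    ← Finset.sdiff_sdiff_left', add_comm]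
  exact card_sdiff_add_card_eq_card hb

lemma fr_out {K : Finset ι} {u b : Finset (ι × V)} (hb : ∀ x ∈ b, x.1 ∉ K) :
    fr K (u ∪ b) = fr K u := by
  unfold fr
  congr 1
  ext i
  simp only [mem_sdiff, image_union, mem_union, not_or, and_congr_right_iff, and_iff_left_iff_imp]
  intro hi _ h
  obtain ⟨x, hx, rfl⟩ := mem_image.1 h
  exact hb x hx hi

lemma Om_step {K : Finset ι} {u : Finset (ι × V)} {i : ι} (hi : i ∈ K \ u.image Prod.fst) :
    (Om G K u).card = ∑ w ∈ cnb G (vs u), (Om G K (insert (i, w) u)).card := by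
  rw [← card_biUnion]
  · congr 1
    ext y
    simp only [mem_biUnion]
    constructor
    · intro hy
      have h1 := (mem_sdiff.1 hi).1
      rw [← (mem_Om.1 hy).1] at h1
      obtain ⟨x, hx, rfl⟩ := mem_image.1 h1
      refine ⟨x.2, mem_filter.2 ⟨mem_univ _, fun w hw => ?_⟩, ?_⟩
      · obtain ⟨x', hx', rfl⟩ := mem_image.1 hw
        refine ((mem_Om.1 hy).2 x (mem_union_left _ hx) x' (mem_union_right _ hx') ?_).2
        rintro rfl
        exact (mem_sdiff.1 hi).2 (mem_image_of_mem _ hx')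
      · have := Om_union hy (singleton_subset_iff.2 hx)
        rwa [union_comm, ← insert_eq] at this
    · rintro ⟨w, _, hy⟩
      exact Om_anti (subset_insert _ _) hy
  · intro w _ w' _ hne
    refine disjoint_left.2 fun y hy hy' => hne ?_
    have h1 := Om_mem hy (mem_insert_self _ _) (mem_sdiff.1 hi).1
    have h2 := Om_mem hy' (mem_insert_self _ _) (mem_sdiff.1 hi).1
    by_contra h
    exact ((Om_cl hy) _ h1 _ h2 (fun h' => h (congrArg Prod.snd h'))).1 rfl

lemma IsCl.insert {u : Finset (ι × V)} (hu : IsCl G u) {i : ι} (hi : i ∉ u.image Prod.fst) {w : V}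
    (hw : w ∈ cnb G (vs u)) : IsCl G (insert (i, w) u) := by
  have h1 : ∀ x ∈ u, i ≠ x.1 ∧ G.Adj w x.2 := fun x hx =>
    ⟨fun h => hi (h ▸ mem_image_of_mem _ hx), (mem_filter.1 hw).2 _ (mem_image_of_mem _ hx)⟩
  intro x hx x' hx' hne
  rcases mem_insert.1 hx with rfl | h <;> rcases mem_insert.1 hx' with rfl | h'
  · exact absurd rfl hne
  · exact h1 x' h'
  · exact ⟨(h1 x h).1.symm, (h1 x h).2.symm⟩
  · exact hu x h x' h' hne

lemma Om_bounds {p ε : ℝ} {z : ℕ} (hp : 0 < p) (hN : (0 : ℝ) < Fintype.card V) (hε : 0 ≤ ε)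
    (hε1 : ε ≤ 1) (hG : Cod G p ε z) (K : Finset ι) (l : ℕ) :
    ∀ u : Finset (ι × V), IsCl G u → fr K u = l → u.card + l ≤ z →
      (1 - ε) ^ l * Ex (Fintype.card V) p l u.card ≤ (Om G K u).card ∧
      ((Om G K u).card : ℝ) ≤ (1 + ε) ^ l * Ex (Fintype.card V) p l u.card := by
  induction l with
  | zero =>
    intro u hu hl _
    have h1 : K ⊆ u.image Prod.fst := sdiff_eq_empty_iff_subset.1 (card_eq_zero.1 hl)
    have h2 : Om G K u = {u.filter fun x => x.1 ∈ K} := by
      ext y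
      rw [mem_singleton]
      constructor
      · intro hy
        have h3 := Om_sdiff hy
        rw [hl, card_eq_zero, sdiff_eq_empty_iff_subset] at h3
        ext x
        rw [mem_filter]
        exact ⟨fun hx => ⟨h3 hx, Om_col hy hx⟩, fun hx => Om_mem hy hx.1 hx.2⟩
      · rintro rfl
        refine mem_Om.2 ⟨?_, hu.mono (union_subset (filter_subset _ _) Subset.rfl)⟩
        ext i
        simp only [mem_image, mem_filter]
        constructor
        · rintro ⟨x, ⟨_, hx⟩, rfl⟩; exact hx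
        · intro hi
          obtain ⟨x, hx, rfl⟩ := mem_image.1 (h1 hi)
          exact ⟨x, ⟨hx, hi⟩, rfl⟩
    simp [h2, Ex]
  | succ l ih =>
    intro u hu hl hz
    obtain ⟨i, hi⟩ : (K \ u.image Prod.fst).Nonempty := card_pos.1 (by unfold fr at hl; omega)
    have h1 : ∀ w ∈ cnb G (vs u),
        (1 - ε) ^ l * Ex (Fintype.card V) p l (u.card + 1) ≤ (Om G K (insert (i, w) u)).card ∧
        ((Om G K (insert (i, w) u)).card : ℝ) ≤
          (1 + ε) ^ l * Ex (Fintype.card V) p l (u.card + 1) := by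
      intro w hw
      have h2 : (i, w) ∉ u := fun h => (mem_sdiff.1 hi).2 (mem_image_of_mem _ h)
      have h3 := ih (insert (i, w) u) (hu.insert (mem_sdiff.1 hi).2 hw) (by
        unfold fr at hl ⊢
        rw [image_insert, sdiff_insert, card_erase_of_mem hi, hl]
        rfl) (by rw [card_insert_of_notMem h2]; omega)
      rwa [card_insert_of_notMem h2] at h3
    have h4 := hG (vs u) (by rw [hu.card_vs]; omega)
    rw [hu.card_vs, abs_le] at h4
    have h5 := Ex_pos hN hp l (u.card + 1)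
    have h6 : 0 ≤ 1 - ε := by linarith
    rw [Om_step hi]
    push_cast
    constructor
    · calc _ = ((1 - ε) * (Fintype.card V * p ^ u.card)) *
            ((1 - ε) ^ l * Ex (Fintype.card V) p l (u.card + 1)) := by simp only [Ex]; ring
        _ ≤ (cnb G (vs u)).card * ((1 - ε) ^ l * Ex (Fintype.card V) p l (u.card + 1)) :=
            mul_le_mul_of_nonneg_right (by linarith [h4.1]) (by positivity)
        _ ≤ _ := by
            rw [← nsmul_eq_mul, ← sum_const]
            exact sum_le_sum fun w hw => (h1 w hw).1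
    · calc _ ≤ (cnb G (vs u)).card * ((1 + ε) ^ l * Ex (Fintype.card V) p l (u.card + 1)) := by
            rw [← nsmul_eq_mul, ← sum_const]
            exact sum_le_sum fun w hw => (h1 w hw).2
        _ ≤ ((1 + ε) * (Fintype.card V * p ^ u.card)) *
            ((1 + ε) ^ l * Ex (Fintype.card V) p l (u.card + 1)) :=
            mul_le_mul_of_nonneg_right (by linarith [h4.2]) (by positivity)
        _ = _ := by simp only [Ex]; ring

/-- The hypotheses under which clique extensions are counted up to a factor two. -/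
structure OH (G : SimpleGraph V) [DecidableRel G.Adj] (p ε : ℝ) (z κ : ℕ) : Prop where
  hp : 0 < p
  hp1 : p ≤ 1
  hN : (0 : ℝ) < Fintype.card V
  hε : 0 ≤ ε
  hκ : 1 ≤ κ
  hεκ : ε * κ ≤ 1 / 2
  hG : Cod G p ε z

lemma OH.le {p ε : ℝ} {z κ : ℕ} (H : OH G p ε z κ) {K : Finset ι} (hK : K.card ≤ κ)
    {u : Finset (ι × V)} (hz : u.card + fr K u ≤ z) :
    ((Om G K u).card : ℝ) ≤ 2 * Ex (Fintype.card V) p (fr K u) u.card := by
  have h0 := Ex_pos H.hN H.hp (fr K u) u.card
  have hκ : (1 : ℝ) ≤ κ := by exact_mod_cast H.hκ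
  have hε := H.hε
  have hεκ := H.hεκ
  rcases (Om G K u).eq_empty_or_nonempty with h | ⟨y, hy⟩
  · rw [h]; simp only [card_empty, Nat.cast_zero]; positivity
  refine (Om_bounds H.hp H.hN H.hε (by nlinarith) H.hG K _ u (Om_cl' hy) rfl hz).2.trans ?_
  refine mul_le_mul_of_nonneg_right ?_ h0.le
  have h1 : (fr K u : ℝ) ≤ κ := by exact_mod_cast (fr_le K u).trans hK
  calc _ ≤ (Real.exp ε) ^ (fr K u) := by
        gcongr
        linarith [Real.add_one_le_exp ε]
    _ = Real.exp (ε * fr K u) := by rw [← Real.exp_nat_mul, mul_comm]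
    _ ≤ Real.exp (1 / 2) := Real.exp_le_exp.2 (by nlinarith)
    _ ≤ 2 := by
        have h2 := Real.exp_one_lt_d9
        have h3 : Real.exp (1 / 2) ^ 2 = Real.exp 1 := by rw [← Real.exp_nat_mul]; norm_num
        nlinarith [Real.exp_pos (1 / 2)]

lemma OH.ge {p ε : ℝ} {z κ : ℕ} (H : OH G p ε z κ) {K : Finset ι} (hK : K.card ≤ κ) (hz : κ ≤ z) :
    Ex (Fintype.card V) p K.card 0 ≤ 2 * ((Om G K (∅ : Finset (ι × V))).card : ℝ) := by
  have h0 := Ex_pos H.hN H.hp K.card 0
  have hκ : (1 : ℝ) ≤ κ := by exact_mod_cast H.hκ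
  have hε := H.hε
  have hεκ := H.hεκ
  have h1 := (Om_bounds H.hp H.hN H.hε (by nlinarith) H.hG K K.card (∅ : Finset (ι × V))
    (fun x hx => absurd hx (notMem_empty _)) (by simp [fr]) (by simp; omega)).1
  have h2 : 1 + (K.card : ℝ) * (-ε) ≤ (1 + -ε) ^ K.card := one_add_mul_le_pow (by nlinarith) _
  have h3 : (K.card : ℝ) ≤ κ := by exact_mod_cast hK
  have h4 : (1 / 2 : ℝ) ≤ (1 - ε) ^ K.card := by
    rw [sub_eq_add_neg]; nlinarith
  rw [card_empty] at h1
  nlinarith

lemma OH.ext {p ε : ℝ} {z κ : ℕ} (H : OH G p ε z κ) {K : Finset ι} (hK : K.card ≤ κ)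
    {u y b : Finset (ι × V)} (hy : y ∈ Om G K u) (hb : b ⊆ y \ u) {z' : ℕ} (hz' : z' ≤ z)
    (hz : u.card + κ ≤ z') :
    ((Om G K (u ∪ b)).card : ℝ) * (Fintype.card V * p ^ z') ^ b.card ≤
      2 * Ex (Fintype.card V) p (fr K u) u.card := by
  have h1 := fr_union hy hb
  have h2 : (u ∪ b).card = u.card + b.card :=
    card_union_of_disjoint (disjoint_of_subset_right hb disjoint_sdiff)
  have h3 := fr_le K u
  have h4 := H.le (u := u ∪ b) hK (by omega)
  have h5 := Ex_ge H.hN H.hp H.hp1 z' b.card u.card (by omega)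
  have hp := H.hp
  have hN := H.hN
  have h6 := Ex_pos hN hp (fr K (u ∪ b)) (u ∪ b).card
  rw [← h1, Ex_add, ← h2]
  calc _ ≤ (2 * Ex (Fintype.card V) p (fr K (u ∪ b)) (u ∪ b).card) *
        Ex (Fintype.card V) p b.card u.card := by gcongr
    _ = _ := by ring

lemma spr_vs {α : Type*} [DecidableEq α] (i0 : ι) {P : Finset α} {g : α → Finset (ι × V)}
    {lam : ℝ} (hl : 0 < lam) (h : SprL P g lam (2 * P.card)) :
    SprL P (fun y => vs (g y)) (lam / (2 * Fintype.card ι)) P.card := by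
  intro B
  rcases B.eq_empty_or_nonempty with rfl | hB
  · simp
  have hk : (0 : ℝ) < Fintype.card ι := by exact_mod_cast Fintype.card_pos_iff.2 ⟨i0⟩
  have hsub : (P.filter fun y => B ⊆ vs (g y)) ⊆ (PA i0 B).biUnion fun φ =>
      P.filter fun y => (B.image fun w => (φ w, w)) ⊆ g y := by
    intro y hy
    obtain ⟨hy1, hy2⟩ := mem_filter.1 hy
    have : ∀ w, ∃ i, w ∈ B → (i, w) ∈ g y := by
      intro w
      by_cases hw : w ∈ B
      · obtain ⟨x, hx, rfl⟩ := mem_image.1 (hy2 hw)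
        exact ⟨x.1, fun _ => hx⟩
      · exact ⟨i0, fun h => absurd h hw⟩
    choose φ hφ using this
    refine mem_biUnion.2 ⟨res i0 B φ, res_mem _ _ _, mem_filter.2 ⟨hy1, ?_⟩⟩
    intro x hx
    obtain ⟨w, hw, rfl⟩ := mem_image.1 hx
    simp only [res, hw, if_true]
    exact hφ w hw
  have h1 : ((P.filter fun y => B ⊆ vs (g y)).card : ℝ) ≤
      (Fintype.card ι : ℝ) ^ B.card * (2 * P.card / lam ^ B.card) := by
    calc _ ≤ ∑ φ ∈ PA i0 B, ((P.filter fun y => (B.image fun w => (φ w, w)) ⊆ g y).card : ℝ) := by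
          exact_mod_cast (card_le_card hsub).trans card_biUnion_le
      _ ≤ ∑ _φ ∈ PA i0 B, (2 * P.card / lam ^ B.card) := by
          refine sum_le_sum fun φ _ => ?_
          have := h.le_div hl (B.image fun w => (φ w, w))
          rwa [card_image_of_injective _ (fun w w' h => congrArg Prod.snd h)] at this
      _ = _ := by rw [sum_const, nsmul_eq_mul, card_PA]
  have h2 : (2 : ℝ) ≤ 2 ^ B.card := le_self_pow₀ (by norm_num) hB.card_pos.ne'
  calc _ ≤ (Fintype.card ι : ℝ) ^ B.card * (2 * P.card / lam ^ B.card) *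
        (lam / (2 * Fintype.card ι)) ^ B.card := by gcongr
    _ = 2 * P.card / 2 ^ B.card := by
        rw [div_pow, mul_pow]
        field_simp
    _ ≤ 2 * P.card / 2 := by gcongr
    _ = _ := by ring

lemma spr_of_vs {α : Type*} [DecidableEq α] {P : Finset α} {g : α → Finset (ι × V)}
    {lam Λ : ℝ} (hl : 0 ≤ lam) (hg : ∀ y ∈ P, IsCl G (g y))
    (h : SprL P (fun y => vs (g y)) lam Λ) : SprL P g lam Λ := by
  intro c
  rcases (P.filter fun y => c ⊆ g y).eq_empty_or_nonempty with h0 | ⟨y0, hy0⟩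
  · rw [h0]
    simp only [card_empty, Nat.cast_zero, zero_mul]
    exact le_trans (Nat.cast_nonneg _) h.card_le
  · have h1 := mem_filter.1 hy0
    have h2 := h (vs c)
    rw [((hg y0 h1.1).mono h1.2).card_vs] at h2
    refine le_trans (mul_le_mul_of_nonneg_right (Nat.cast_le.2 (card_le_card fun y hy => ?_))
      (by positivity)) h2
    exact mem_filter.2 ⟨(mem_filter.1 hy).1, image_subset_image (mem_filter.1 hy).2⟩

end Pool.Agent.Lib.MP_7836d5_lc.Avg
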