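import Pool.Agent.Lib.MP_7836d5_lc.Avg.Xi

set_option autoImplicit false
set_option linter.unusedSectionVars false

namespace Pool.Agent.Lib.MP_7836d5_lc.Avg

open Finset

variable {V : Type*} [Fintype V] [DecidableEq V] (G : SimpleGraph V) [DecidableRel G.Adj]

/-- Spread families with an explicit total mass bound. -/
def SprL {α : Type*} (X : Finset α) (f : α → Finset V) (lam Λ : ℝ) : Prop :=
  ∀ B : Finset V, ((X.filter fun x => B ⊆ f x).card : ℝ) * lam ^ B.card ≤ Λ

/-- Restriction of a tuple to a set of positions. -/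
def res {ι : Type*} [DecidableEq ι] (v0 : V) (A : Finset ι) (x : ι → V) : ι → V :=
  fun a => if a ∈ A then x a else v0

/-- All restricted tuples. -/
def PA {ι : Type*} [Fintype ι] [DecidableEq ι] (v0 : V) (A : Finset ι) : Finset (ι → V) :=
  Fintype.piFinset fun a => if a ∈ A then univ else {v0}

lemma res_mem {ι : Type*} [Fintype ι] [DecidableEq ι] (v0 : V) (A : Finset ι) (x : ι → V) :
    res v0 A x ∈ PA v0 A := by
  simp only [PA, Fintype.mem_piFinset, res]
  intro a
  split_ifs <;> simp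

lemma sum_PA {ι : Type*} [Fintype ι] [DecidableEq ι] (v0 : V) (A : Finset ι) (m : ι → V → ℝ) :
    ∑ α ∈ PA v0 A, ∏ a ∈ A, m a (α a) = ∏ a ∈ A, ∑ u, m a u := by
  have h1 : ∀ α : ι → V, ∏ a ∈ A, m a (α a) = ∏ a, if a ∈ A then m a (α a) else 1 := by
    intro α
    rw [prod_ite_mem univ A]; simp
  simp only [h1]
  rw [PA, ← prod_univ_sum (fun a => if a ∈ A then (univ : Finset V) else {v0})
    (fun a u => if a ∈ A then m a u else 1)]
  have h2 : ∏ a ∈ A, ∑ u, m a u = ∏ a, if a ∈ A then ∑ u, m a u else 1 := by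
    rw [prod_ite_mem univ A]; simp
  rw [h2]
  refine prod_congr rfl fun a _ => ?_
  split_ifs <;> simp

lemma card_PA {ι : Type*} [Fintype ι] [DecidableEq ι] (v0 : V) (A : Finset ι) :
    ((PA v0 A).card : ℝ) = (Fintype.card V : ℝ) ^ A.card := by
  have := sum_PA v0 A (fun _ _ => (1 : ℝ))
  simpa using this

lemma fiber_le {α ι : Type*} [Fintype ι] [DecidableEq ι] (v0 : V) (A : Finset ι) (X : Finset α)
    (f : α → ι → V) (hf : ∀ x ∈ X, Function.Injective (f x)) {lam Λ : ℝ} (hl : 0 < lam)
    (hX : SprL X (fun x => univ.image (f x)) lam Λ) (c : ι → V) :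
    ((X.filter fun x => res v0 A (f x) = c).card : ℝ) ≤ Λ / lam ^ A.card := by
  rw [le_div_iff₀ (by positivity)]
  rcases (X.filter fun x => res v0 A (f x) = c).eq_empty_or_nonempty with h | ⟨x0, hx0⟩
  · rw [h]
    have := hX ∅
    simp only [card_empty, Nat.cast_zero, zero_mul]
    refine le_trans (by positivity) this
  · have hx0' := mem_filter.1 hx0
    have h1 := hX (A.image (f x0))
    rw [card_image_of_injective _ (hf x0 hx0'.1)] at h1
    refine le_trans ?_ h1
    refine mul_le_mul_of_nonneg_right (Nat.cast_le.2 (card_le_card fun x hx => ?_)) (by positivity)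
    refine mem_filter.2 ⟨(mem_filter.1 hx).1, ?_⟩
    have hx' := (mem_filter.1 hx).2.trans hx0'.2.symm
    intro w hw
    obtain ⟨a, ha, rfl⟩ := mem_image.1 hw
    have := congrFun hx' a
    simp only [res, ha, if_true] at this
    exact mem_image.2 ⟨a, mem_univ _, this⟩

lemma pair_count {β ι : Type*} [DecidableEq β] [Fintype ι] [DecidableEq ι] (v0 : V) (C : Finset ι)
    (Y : Finset β)
    (g : β → ι → V) (hg : ∀ y ∈ Y, Function.Injective (g y)) {lam Λ : ℝ} (hl : 1 ≤ lam)
    (hY : SprL Y (fun y => univ.image (g y)) lam Λ) (D : Finset ι) (y : β) (m : ℕ)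
    (hm : m ≤ (D \ C).card) :
    (((Y.filter fun y' => res v0 C (g y') = res v0 C (g y)).filter
        fun y' => ∀ l ∈ D, g y' l ∈ univ.image (g y)).card : ℝ) ≤
      2 ^ Fintype.card ι * (Λ / lam ^ (C.card + m)) := by
  have hl0 : 0 < lam := by linarith
  have hΛ : 0 ≤ Λ := le_trans (by positivity) (hY ∅)
  have hsub : ((Y.filter fun y' => res v0 C (g y') = res v0 C (g y)).filter
        fun y' => ∀ l ∈ D, g y' l ∈ univ.image (g y)) ⊆
      ((univ.image (g y)).powerset.filter fun B => C.card + m ≤ B.card).biUnion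
        fun B => Y.filter fun y' => B ⊆ univ.image (g y') := by
    intro y' hy'
    have h1 := mem_filter.1 hy'
    have h2 := mem_filter.1 h1.1
    refine mem_biUnion.2 ⟨(C ∪ D).image (g y'), mem_filter.2 ⟨mem_powerset.2 ?_, ?_⟩,
      mem_filter.2 ⟨h2.1, image_subset_image (subset_univ _)⟩⟩
    · intro w hw
      obtain ⟨l, hl, rfl⟩ := mem_image.1 hw
      rcases mem_union.1 hl with h | h
      · have := congrFun h2.2 l
        simp only [res, h, if_true] at this
        exact mem_image.2 ⟨l, mem_univ _, this.symm⟩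
      · exact h1.2 l h
    · rw [card_image_of_injective _ (hg y' h2.1), union_comm, ← card_sdiff_add_card]
      omega
  have h3 : ((((univ.image (g y)).powerset.filter fun B => C.card + m ≤ B.card).biUnion
        fun B => Y.filter fun y' => B ⊆ univ.image (g y')).card : ℝ) ≤
      ∑ B ∈ (univ.image (g y)).powerset.filter fun B => C.card + m ≤ B.card,
        ((Y.filter fun y' => B ⊆ univ.image (g y')).card : ℝ) := by
    exact_mod_cast card_biUnion_le
  refine le_trans (by exact_mod_cast card_le_card hsub) (h3.trans ?_)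
  calc _ ≤ ∑ _B ∈ (univ.image (g y)).powerset.filter fun B => C.card + m ≤ B.card,
        (Λ / lam ^ (C.card + m)) := by
        refine sum_le_sum fun B hB => ?_
        rw [le_div_iff₀ (by positivity)]
        refine le_trans ?_ (hY B)
        gcongr
        exact (mem_filter.1 hB).2
    _ ≤ _ := by
        rw [sum_const, nsmul_eq_mul]
        gcongr
        have h4 : ((univ.image (g y)).powerset.filter fun B => C.card + m ≤ B.card).card ≤
            2 ^ Fintype.card ι := by
          refine (card_le_card (filter_subset _ _)).trans ?_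
          rw [card_powerset]
          exact Nat.pow_le_pow_right (by norm_num) (card_image_le.trans (by simp))
        exact_mod_cast h4

lemma second_moment {p ε : ℝ} {z : ℕ} (hp : 0 < p) (hp1 : p ≤ 1) (hε : 0 ≤ ε) (hG : Cod G p ε z)
    {β ι₁ ι₂ : Type*} [DecidableEq β] [Fintype ι₁] [DecidableEq ι₁] [Fintype ι₂] [DecidableEq ι₂]
    (hz : 2 * Fintype.card ι₂ ≤ z)
    (v0 : V) (Y : Finset β) (g : β → ι₂ → V) (hg : ∀ y ∈ Y, Function.Injective (g y))
    {lam Λ : ℝ} (hl : 1 ≤ lam) (hY : SprL Y (fun y => univ.image (g y)) lam Λ)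
    (T : ι₁ → Finset ι₂) (A : Finset ι₁) (C : Finset ι₂)
    (hall : ∀ A' ⊆ A, A'.card ≤ (A'.biUnion T \ C).card) :
    ∑ α ∈ PA v0 A, ∑ c ∈ PA v0 C, (∑ y ∈ Y.filter fun y => res v0 C (g y) = c,
        ∏ a ∈ A, ∏ l ∈ T a, xi G p (α a) (g y l)) ^ 2 ≤
      (Fintype.card V * (2 * p⁻¹) ^ (2 * Fintype.card ι₂)) ^ A.card *
        (Λ * (2 ^ Fintype.card ι₂ * (Λ / lam ^ C.card))) * (2 * ε + lam⁻¹) ^ A.card := by
  have hl0 : 0 < lam := by linarith
  have hΛY : (Y.card : ℝ) ≤ Λ := by simpa using hY ∅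
  have hΛ : 0 ≤ Λ := le_trans (by positivity) hΛY
  set K : ℝ := Fintype.card V * (2 * p⁻¹) ^ (2 * Fintype.card ι₂) with hK
  have hK0 : 0 ≤ K := by positivity
  rw [sum_comm]
  have h1 : ∀ c : ι₂ → V, ∑ α ∈ PA v0 A, (∑ y ∈ Y.filter fun y => res v0 C (g y) = c,
        ∏ a ∈ A, ∏ l ∈ T a, xi G p (α a) (g y l)) ^ 2 =
      ∑ y ∈ Y.filter fun y => res v0 C (g y) = c,
        ∑ y' ∈ Y.filter fun y' => res v0 C (g y') = res v0 C (g y),
          ∏ a ∈ A, ∑ u, (∏ l ∈ T a, xi G p u (g y l)) * ∏ l ∈ T a, xi G p u (g y' l) := by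
    intro c
    simp only [sq, sum_mul_sum, ← prod_mul_distrib]
    rw [sum_comm]
    refine sum_congr rfl fun y hy => ?_
    rw [sum_comm, (mem_filter.1 hy).2]
    refine sum_congr rfl fun y' _ => ?_
    exact sum_PA v0 A fun a u => ∏ l ∈ T a, xi G p u (g y l) * xi G p u (g y' l)
  simp only [h1]
  rw [sum_fiberwise_of_maps_to (fun y _ => res_mem v0 C (g y))]
  have h2 : ∀ y ∈ Y, ∑ y' ∈ Y.filter fun y' => res v0 C (g y') = res v0 C (g y),
          ∏ a ∈ A, ∑ u, (∏ l ∈ T a, xi G p u (g y l)) * ∏ l ∈ T a, xi G p u (g y' l) ≤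
      K ^ A.card * (2 ^ Fintype.card ι₂ * (Λ / lam ^ C.card)) * (2 * ε + lam⁻¹) ^ A.card := by
    intro y _
    have h3 : ∀ y' ∈ Y.filter fun y' => res v0 C (g y') = res v0 C (g y),
        ∏ a ∈ A, ∑ u, (∏ l ∈ T a, xi G p u (g y l)) * ∏ l ∈ T a, xi G p u (g y' l) ≤
        K ^ A.card * ∑ A' ∈ A.powerset, (2 * ε) ^ (A \ A').card *
          if ∀ l ∈ A'.biUnion T, g y' l ∈ univ.image (g y) then 1 else 0 := by
      intro y' hy'
      refine (le_abs_self _).trans ?_
      rw [abs_prod]
      calc _ ≤ ∏ a ∈ A, K * ((if ∀ l ∈ T a, g y' l ∈ univ.image (g y) then 1 else 0) + 2 * ε) := by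
            refine prod_le_prod (fun _ _ => abs_nonneg _) fun a _ => ?_
            have := pair_sum G hp hp1 hε hG hz (g y) (g y') (hg y' (mem_filter.1 hy').1) (T a)
            rw [add_comm] at this
            exact this
        _ = _ := by
            rw [prod_mul_distrib, prod_const, prod_add]
            congr 1
            refine sum_congr rfl fun A' _ => ?_
            rw [prod_const, mul_comm]
            congr 1
            rw [prod_ite_zero]
            simp only [prod_const_one, mem_biUnion, forall_exists_index, and_imp]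
            by_cases h : ∀ a ∈ A', ∀ l ∈ T a, g y' l ∈ univ.image (g y)
            · rw [if_pos h, if_pos (fun l a ha hl => h a ha l hl)]
            · rw [if_neg h, if_neg (fun h' => h fun a ha l hl => h' l a ha hl)]
    refine (sum_le_sum h3).trans ?_
    rw [← mul_sum, sum_comm, mul_assoc]
    refine mul_le_mul_of_nonneg_left ?_ (by positivity)
    have h4 : (2 * ε + lam⁻¹) ^ A.card =
        ∑ A' ∈ A.powerset, (lam⁻¹) ^ A'.card * (2 * ε) ^ (A \ A').card := by
      rw [add_comm, ← prod_const, prod_add]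
      simp
    rw [h4, mul_sum]
    refine sum_le_sum fun A' hA' => ?_
    rw [← mul_sum, sum_boole]
    have h5 := pair_count v0 C Y g hg hl hY (A'.biUnion T) y A'.card (hall A' (mem_powerset.1 hA'))
    calc _ ≤ (2 * ε) ^ (A \ A').card * (2 ^ Fintype.card ι₂ * (Λ / lam ^ (C.card + A'.card))) := by
          gcongr
      _ = _ := by
          rw [pow_add]
          field_simp
          rw [one_div, inv_pow]
          field_simp
  refine (sum_le_sum h2).trans ?_
  rw [sum_const, nsmul_eq_mul]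
  calc _ ≤ Λ * (K ^ A.card * (2 ^ Fintype.card ι₂ * (Λ / lam ^ C.card)) *
        (2 * ε + lam⁻¹) ^ A.card) := by gcongr
    _ = _ := by ring

end Pool.Agent.Lib.MP_7836d5_lc.Avg
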