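import Mathlib

set_option autoImplicit false

namespace Pool.Agent.Lib.MP_7836d5_lc.Avg

open Finset

lemma top_half {α : Type*} [DecidableEq α] (P : Finset α) (a : α → ℝ) :
    P.card ≤ 2 * (P.filter fun y => P.card ≤ 2 * (P.filter fun y' => a y' ≤ a y).card).card := by
  set H := P.filter fun y => P.card ≤ 2 * (P.filter fun y' => a y' ≤ a y).card with hH
  have hsplit : H.card + (P.filter fun y => ¬ P.card ≤ 2 * (P.filter fun y' => a y' ≤ a y).card).card
      = P.card := card_filter_add_card_filter_not _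
  set C := P.filter fun y => ¬ P.card ≤ 2 * (P.filter fun y' => a y' ≤ a y).card with hC
  rcases C.eq_empty_or_nonempty with h | h
  · rw [h] at hsplit; simp at hsplit; omega
  · obtain ⟨y, hy, hmax⟩ := C.exists_max_image a h
    have h1 : C ⊆ P.filter fun y' => a y' ≤ a y := by
      intro z hz
      exact mem_filter.2 ⟨(mem_filter.1 hz).1, hmax z hz⟩
    have h2 := card_le_card h1
    have h3 := (mem_filter.1 hy).2
    omega

lemma exists_max {α γ : Type*} [DecidableEq α] [DecidableEq γ] (U : Finset α) (hU : U.Nonempty)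
    (g : α → Finset γ) (lam : ℝ) (hl : 0 < lam) :
    ∃ b : Finset γ, (U.filter fun y => b ⊆ g y).Nonempty ∧ ∀ c : Finset γ,
      ((U.filter fun y => c ⊆ g y).card : ℝ) * lam ^ c.card ≤
        (U.filter fun y => b ⊆ g y).card * lam ^ b.card := by
  obtain ⟨y0, hy0⟩ := hU
  have hne : (U.biUnion fun y => (g y).powerset).Nonempty :=
    ⟨∅, mem_biUnion.2 ⟨y0, hy0, by simp⟩⟩
  obtain ⟨b, hb, hmax⟩ := (U.biUnion fun y => (g y).powerset).exists_max_image
    (fun c => ((U.filter fun y => c ⊆ g y).card : ℝ) * lam ^ c.card) hne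
  obtain ⟨y, hy, hby⟩ := mem_biUnion.1 hb
  refine ⟨b, ⟨y, mem_filter.2 ⟨hy, mem_powerset.1 hby⟩⟩, fun c => ?_⟩
  by_cases hc : c ∈ U.biUnion fun y => (g y).powerset
  · exact hmax c hc
  · have : (U.filter fun y => c ⊆ g y) = ∅ := by
      apply filter_eq_empty_iff.2
      intro z hz hcz
      exact hc (mem_biUnion.2 ⟨z, hz, mem_powerset.2 hcz⟩)
    rw [this]
    simp only [card_empty, Nat.cast_zero, zero_mul]
    positivity

/-- The output of the ordered peeling procedure. -/
structure Peel {α γ : Type*} [DecidableEq α] [DecidableEq γ] (U : Finset α) (g : α → Finset γ)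
    (a : α → ℝ) (lam : ℝ) where
  b : α → Finset γ
  Pt : α → Finset α
  Res : α → ℕ
  sub : ∀ y ∈ U, Pt y ⊆ U
  mem : ∀ y ∈ U, y ∈ Pt y
  fix : ∀ y ∈ U, ∀ y' ∈ Pt y, b y ⊆ g y'
  ord : ∀ y ∈ U, ∀ y' ∈ Pt y, a y' ≤ a y
  spr : ∀ y ∈ U, ∀ c : Finset γ, Disjoint c (b y) →
    (((Pt y).filter fun y' => c ⊆ g y').card : ℝ) * lam ^ c.card ≤ 2 * (Pt y).card
  res : ∀ y ∈ U, (Res y : ℝ) ≤ 2 * (Pt y).card * lam ^ (b y).card
  few : ∀ n : ℕ, (U.filter fun y => Res y ≤ n).card ≤ n
  cnt : ∀ (b0 : Finset γ) (s : ℕ),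
    (((U.image b).filter fun c => b0 ⊆ c ∧ c.card = b0.card + s).card : ℝ) ≤
      if (U.filter fun y => b0 ⊆ g y).card = 0 then 0
      else 2 * lam ^ s * Real.log ((U.filter fun y => b0 ⊆ g y).card) + 1

lemma phi_step (q q' : ℕ) (Λ h : ℝ) (hΛ : 1 ≤ Λ) (hq : 0 < q) (hh : (q' : ℝ) + h ≤ q)
    (hh2 : (q : ℝ) ≤ Λ * h) :
    (if q' = 0 then (0 : ℝ) else Λ * Real.log q' + 1) + 1 ≤ Λ * Real.log q + 1 := by
  have hq1 : (1 : ℝ) ≤ q := by exact_mod_cast hq
  have hlq : 0 ≤ Real.log q := Real.log_nonneg hq1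
  split_ifs with h0
  · have : 0 ≤ Λ * Real.log q := by positivity
    linarith
  · have hq' : (0 : ℝ) < q' := by exact_mod_cast Nat.pos_of_ne_zero h0
    have h1 : Real.log (q' / q) ≤ q' / q - 1 := Real.log_le_sub_one_of_pos (by positivity)
    rw [Real.log_div hq'.ne' (by positivity)] at h1
    have h2 : Λ * ((q' : ℝ) / q - 1) ≤ -1 := by
      have : Λ * ((q' : ℝ) / q - 1) = Λ * (q' - q) / q := by field_simp
      rw [this, div_le_iff₀ (by positivity)]
      nlinarith
    nlinarith

lemma phi_mono (q q' : ℕ) (Λ : ℝ) (hΛ : 0 ≤ Λ) (h : q' ≤ q) :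
    (if q' = 0 then (0 : ℝ) else Λ * Real.log q' + 1) ≤
      if q = 0 then (0 : ℝ) else Λ * Real.log q + 1 := by
  by_cases h0 : q' = 0
  · simp only [h0, if_true]
    split_ifs with h1
    · exact le_rfl
    · have : (1 : ℝ) ≤ q := by exact_mod_cast Nat.pos_of_ne_zero h1
      have := Real.log_nonneg this
      positivity
  · have h1 : q ≠ 0 := by omega
    simp only [h0, h1, if_false]
    have hq' : (0 : ℝ) < q' := by exact_mod_cast Nat.pos_of_ne_zero h0
    have : Real.log q' ≤ Real.log q := Real.log_le_log hq' (by exact_mod_cast h)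
    nlinarith

theorem peel {α γ : Type*} [DecidableEq α] [DecidableEq γ] (g : α → Finset γ)
    (a : α → ℝ) (lam : ℝ) (hl : 1 ≤ lam) (U : Finset α) : Nonempty (Peel U g a lam) := by
  induction U using Finset.strongInduction with
  | H U ih =>
  rcases U.eq_empty_or_nonempty with hU | hU
  · subst hU
    exact ⟨⟨fun _ => ∅, fun _ => ∅, fun _ => 0, by simp, by simp, by simp, by simp, by simp,
      by simp, by simp, by simp⟩⟩
  have hl0 : 0 < lam := by linarith
  obtain ⟨b0, hb0, hmax⟩ := exists_max U hU g lam hl0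
  set P := U.filter fun y => b0 ⊆ g y with hP
  set H := P.filter fun y => P.card ≤ 2 * (P.filter fun y' => a y' ≤ a y).card with hH
  have hPH : P.card ≤ 2 * H.card := top_half P a
  have hPpos : 0 < P.card := hb0.card_pos
  have hHP : H ⊆ P := filter_subset _ _
  have hPU : P ⊆ U := filter_subset _ _
  have hHne : H.Nonempty := card_pos.1 (by omega)
  have hss : U \ H ⊂ U := sdiff_ssubset (hHP.trans hPU) hHne
  obtain ⟨Q⟩ := ih (U \ H) hss
  refine ⟨⟨fun y => if y ∈ H then b0 else Q.b y,
    fun y => if y ∈ H then P.filter fun y' => a y' ≤ a y else Q.Pt y,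
    fun y => if y ∈ H then U.card else Q.Res y, ?_, ?_, ?_, ?_, ?_, ?_, ?_, ?_⟩⟩
  · intro y hy
    by_cases h : y ∈ H
    · simp only [h, if_true]; exact (filter_subset _ _).trans hPU
    · simp only [h, if_false]; exact (Q.sub y (mem_sdiff.2 ⟨hy, h⟩)).trans sdiff_subset
  · intro y hy
    by_cases h : y ∈ H
    · simp only [h, if_true]; exact mem_filter.2 ⟨hHP h, le_rfl⟩
    · simp only [h, if_false]; exact Q.mem y (mem_sdiff.2 ⟨hy, h⟩)
  · intro y hy y' hy'
    by_cases h : y ∈ H
    · simp only [h, if_true] at hy' ⊢; exact (mem_filter.1 (mem_filter.1 hy').1).2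
    · simp only [h, if_false] at hy' ⊢; exact Q.fix y (mem_sdiff.2 ⟨hy, h⟩) y' hy'
  · intro y hy y' hy'
    by_cases h : y ∈ H
    · simp only [h, if_true] at hy' ⊢; exact (mem_filter.1 hy').2
    · simp only [h, if_false] at hy' ⊢; exact Q.ord y (mem_sdiff.2 ⟨hy, h⟩) y' hy'
  · intro y hy c hc
    by_cases h : y ∈ H
    · simp only [h, if_true] at hc ⊢
      have h1 := hmax (c ∪ b0)
      rw [card_union_of_disjoint hc, pow_add, ← mul_assoc] at h1
      have h2 : ((U.filter fun y => c ∪ b0 ⊆ g y).card : ℝ) * lam ^ c.card ≤ P.card :=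
        le_of_mul_le_mul_right h1 (by positivity)
      have h3 : ((P.filter fun y' => a y' ≤ a y).filter fun y' => c ⊆ g y') ⊆
          U.filter fun y => c ∪ b0 ⊆ g y := by
        intro z hz
        have hz1 := mem_filter.1 hz
        have hz2 := mem_filter.1 (mem_filter.1 hz1.1).1
        exact mem_filter.2 ⟨hz2.1, union_subset hz1.2 hz2.2⟩
      have h4 : ((((P.filter fun y' => a y' ≤ a y).filter fun y' => c ⊆ g y').card : ℕ) : ℝ) ≤
          (U.filter fun y => c ∪ b0 ⊆ g y).card := by exact_mod_cast card_le_card h3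
      have h5 : (P.card : ℝ) ≤ 2 * (P.filter fun y' => a y' ≤ a y).card := by
        exact_mod_cast (mem_filter.1 h).2
      calc _ ≤ ((U.filter fun y => c ∪ b0 ⊆ g y).card : ℝ) * lam ^ c.card := by gcongr
        _ ≤ _ := h2.trans h5
    · simp only [h, if_false] at hc ⊢; exact Q.spr y (mem_sdiff.2 ⟨hy, h⟩) c hc
  · intro y hy
    by_cases h : y ∈ H
    · simp only [h, if_true]
      have h1 := hmax ∅
      simp only [empty_subset, filter_true, card_empty, pow_zero, mul_one] at h1
      have h5 : (P.card : ℝ) ≤ 2 * (P.filter fun y' => a y' ≤ a y).card := by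
        exact_mod_cast (mem_filter.1 h).2
      calc _ ≤ (P.card : ℝ) * lam ^ b0.card := h1
        _ ≤ _ := by gcongr
    · simp only [h, if_false]; exact Q.res y (mem_sdiff.2 ⟨hy, h⟩)
  · intro n
    by_cases hn : U.card ≤ n
    · exact (card_le_card (filter_subset _ _)).trans hn
    · refine le_trans (card_le_card ?_) (Q.few n)
      intro y hy
      have hy1 := mem_filter.1 hy
      by_cases h : y ∈ H
      · simp only [h, if_true] at hy1; exact absurd hy1.2 hn
      · simp only [h, if_false] at hy1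
        exact mem_filter.2 ⟨mem_sdiff.2 ⟨hy1.1, h⟩, hy1.2⟩
  · intro c s
    have hΛ : (1 : ℝ) ≤ 2 * lam ^ s := by
      have := one_le_pow₀ (n := s) hl
      linarith
    have hsub : (U.image fun y => if y ∈ H then b0 else Q.b y) ⊆ insert b0 ((U \ H).image Q.b) := by
      intro d hd
      obtain ⟨y, hy, rfl⟩ := mem_image.1 hd
      by_cases h : y ∈ H
      · simp only [h, if_true]; exact mem_insert_self _ _
      · simp only [h, if_false]
        exact mem_insert_of_mem (mem_image.2 ⟨y, mem_sdiff.2 ⟨hy, h⟩, rfl⟩)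
    have hq : ((U \ H).filter fun y => c ⊆ g y).card ≤ (U.filter fun y => c ⊆ g y).card :=
      card_le_card (filter_subset_filter _ sdiff_subset)
    have hQ := Q.cnt c s
    by_cases hc : c ⊆ b0 ∧ b0.card = c.card + s
    · have h1 : (((U.image fun y => if y ∈ H then b0 else Q.b y).filter
          fun d => c ⊆ d ∧ d.card = c.card + s).card : ℝ) ≤
          (((U \ H).image Q.b).filter fun d => c ⊆ d ∧ d.card = c.card + s).card + 1 := by
        have : ((U.image fun y => if y ∈ H then b0 else Q.b y).filter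
          fun d => c ⊆ d ∧ d.card = c.card + s) ⊆
            insert b0 (((U \ H).image Q.b).filter fun d => c ⊆ d ∧ d.card = c.card + s) := by
          intro d hd
          have hd1 := mem_filter.1 hd
          rcases mem_insert.1 (hsub hd1.1) with h | h
          · rw [h]; exact mem_insert_self _ _
          · exact mem_insert_of_mem (mem_filter.2 ⟨h, hd1.2⟩)
        exact_mod_cast (card_le_card this).trans (card_insert_le _ _)
      have hPc : P ⊆ U.filter fun y => c ⊆ g y := by
        intro z hz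
        exact mem_filter.2 ⟨hPU hz, hc.1.trans (mem_filter.1 hz).2⟩
      have hqpos : 0 < (U.filter fun y => c ⊆ g y).card := lt_of_lt_of_le hPpos (card_le_card hPc)
      rw [if_neg hqpos.ne']
      refine h1.trans (le_trans (by linarith) (phi_step _ ((U \ H).filter fun y => c ⊆ g y).card
        (2 * lam ^ s) H.card hΛ hqpos ?_ ?_))
      · have : ((U \ H).filter fun y => c ⊆ g y).card + H.card ≤
            (U.filter fun y => c ⊆ g y).card := by
          rw [← card_union_of_disjoint]
          · apply card_le_card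
            apply union_subset (filter_subset_filter _ sdiff_subset) (hHP.trans hPc)
          · exact disjoint_of_subset_left (filter_subset _ _) sdiff_disjoint
        exact_mod_cast this
      · have h2 := hmax c
        rw [hc.2, pow_add, mul_comm (lam ^ c.card), ← mul_assoc] at h2
        have h3 : ((U.filter fun y => c ⊆ g y).card : ℝ) ≤ P.card * lam ^ s :=
          le_of_mul_le_mul_right h2 (by positivity)
        have h4 : (P.card : ℝ) ≤ 2 * H.card := by exact_mod_cast hPH
        calc _ ≤ (P.card : ℝ) * lam ^ s := h3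
          _ ≤ (2 * H.card) * lam ^ s := by gcongr
          _ = _ := by ring
    · have h1 : (((U.image fun y => if y ∈ H then b0 else Q.b y).filter
          fun d => c ⊆ d ∧ d.card = c.card + s).card : ℝ) ≤
          (((U \ H).image Q.b).filter fun d => c ⊆ d ∧ d.card = c.card + s).card := by
        have : ((U.image fun y => if y ∈ H then b0 else Q.b y).filter
          fun d => c ⊆ d ∧ d.card = c.card + s) ⊆
            (((U \ H).image Q.b).filter fun d => c ⊆ d ∧ d.card = c.card + s) := by
          intro d hd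
          have hd1 := mem_filter.1 hd
          rcases mem_insert.1 (hsub hd1.1) with h | h
          · rw [h] at hd1; exact absurd hd1.2 hc
          · exact mem_filter.2 ⟨h, hd1.2⟩
        exact_mod_cast card_le_card this
      exact h1.trans (hQ.trans (phi_mono _ _ _ (by linarith) hq))

lemma Peel.cnt' {α γ : Type*} [DecidableEq α] [DecidableEq γ] {U : Finset α} {g : α → Finset γ}
    {a : α → ℝ} {lam : ℝ} (Q : Peel U g a lam) (hl : 1 ≤ lam) (L : ℝ) (hL0 : 0 ≤ L)
    (hL : Real.log U.card ≤ L) (b0 : Finset γ) (s : ℕ) :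
    (((U.image Q.b).filter fun c => b0 ⊆ c ∧ c.card = b0.card + s).card : ℝ) ≤
      (2 * L + 1) * lam ^ s := by
  have h1 := one_le_pow₀ (n := s) hl
  refine (Q.cnt b0 s).trans ?_
  split_ifs with h
  · positivity
  · have hq : (0 : ℝ) < (U.filter fun y => b0 ⊆ g y).card := by
      exact_mod_cast Nat.pos_of_ne_zero h
    have h2 : Real.log ((U.filter fun y => b0 ⊆ g y).card) ≤ L := by
      refine le_trans (Real.log_le_log hq ?_) hL
      exact_mod_cast card_le_card (filter_subset _ _)
    nlinarith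

end Pool.Agent.Lib.MP_7836d5_lc.Avg
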