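import Pool.Agent.Lib.MP_7836d5_lc.Avg.Err
import Pool.Agent.Lib.MP_7836d5_lc.Avg.Omega
import Pool.Agent.Lib.MP_7836d5_lc.Avg.Peel

set_option autoImplicit false
set_option linter.unusedSectionVars false

namespace Pool.Agent.Lib.MP_7836d5_lc.Avg

open Finset

variable {ι τ V : Type*} [Fintype ι] [DecidableEq ι] [Fintype τ] [DecidableEq τ]
  [Fintype V] [DecidableEq V]

/-- The positions owned by party `t`. -/
def Kt (pt : ι → τ) (t : τ) : Finset ι := univ.filter fun i => pt i = t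

/-- All parameters of the argument with the inequalities they satisfy. -/
structure Par (G : SimpleGraph V) [DecidableRel G.Adj] (pt : ι → τ) where
  i0 : ι
  v0 : V
  p : ℝ
  ε : ℝ
  lam : ℝ
  η : ℝ
  σ : ℝ
  l1 : ℝ
  l2 : ℝ
  lw : ℝ
  lX : ℝ
  w0 : ℝ
  θ : ℝ
  M : ℝ
  F : ℝ
  L : ℝ
  z : ℕ
  κ : ℕ
  w : ℕ
  dm : ℕ
  W : ℕ
  z0 : ℕ
  E : EH G p ε z lam η
  O : OH G p ε z0 κ
  hK : ∀ t, (Kt pt t).card ≤ κ
  hz : 2 * κ ≤ z
  hz0 : W + κ ≤ z0
  hW : w + Fintype.card τ * dm ≤ W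
  hσ : 1 ≤ σ
  hl1 : 1 ≤ l1
  hl12 : l1 ≤ l2
  hw0 : 0 < w0
  hθ : 0 < θ
  hlX : lX * (2 * (dm + 1)) ≤
    l1 / (2 * Fintype.card ι) * (p ^ dm / (4 * σ * (z + 1))) ^ Fintype.card τ
  hlam : 2 * lam ≤ lX
  hq : (z + 1) * (p⁻¹) ^ κ ≤ lX
  hw0X : z + 1 ≤ w0 * lX
  hδ : Fintype.card τ * (2 * η + 4 * (2 * ((z + 1) * 2 / σ) +
    z * 4 ^ W * σ * ((z + 1) / (w0 * lX)))) < 1
  hlw : lw ≤ l2 / (2 * Fintype.card ι) * (p ^ dm / (4 * σ * (z + 1))) ^ Fintype.card τ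
  hρ1 : l2 ≤ Fintype.card V * p ^ (W + κ)
  hρ : 16 * 4 ^ Fintype.card τ * l2 ^ (dm + 1) ≤ θ * (Fintype.card V * p ^ (W + κ)) ^ (dm + 1)
  hL0 : 0 ≤ L
  hL : Real.log (2 * (Fintype.card V : ℝ) ^ κ) ≤ L
  hM : 2 * Fintype.card τ * κ * (2 * L + 1) * l1 ≤ M
  hdev : 4 * 4 ^ W * κ * (2 * L + 1) * l1 ≤ lw
  hA : 1 ≤ M * w0
  hF : 1 ≤ F
  hB : M * (M * w0 * F) ^ Fintype.card τ ≤ Fintype.card V * p ^ (W + κ)
  hθF : θ * (M * w0 * F) ^ w ≤ 1
  hroot : 8 * lw ≤ Fintype.card V * p ^ (W + κ)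

variable {G : SimpleGraph V} [DecidableRel G.Adj] {pt : ι → τ}

/-- The weight of one more outside vertex. -/
noncomputable def Par.om (A : Par G pt) (n : ℕ) : ℝ := A.w0 * (A.p⁻¹) ^ n

/-- The expected number of cliques of party `t` compatible with `u`. -/
noncomputable def Par.exu (A : Par G pt) (t : τ) (u : Finset (ι × V)) : ℝ :=
  Ex (Fintype.card V) A.p (fr (Kt pt t) u) u.card

lemma Par.om_pos (A : Par G pt) (n : ℕ) : 0 < A.om n := by
  have := A.hw0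
  have := A.O.hp
  unfold Par.om
  positivity

lemma Par.exu_pos (A : Par G pt) (t : τ) (u : Finset (ι × V)) : 0 < A.exu t u :=
  Ex_pos A.O.hN A.O.hp _ _

lemma Par.r_pos (A : Par G pt) : 0 < Fintype.card τ := Fintype.card_pos_iff.2 ⟨pt A.i0⟩

/-- A strongly spread box. -/
structure Wit (A : Par G pt) (R : Finset (Finset (ι × V) × Finset (ι × V)))
    (v : Finset (ι × V)) (Y : τ → Finset (Finset (ι × V))) : Prop where
  card : v.card ≤ A.W
  sub : ∀ t, Y t ⊆ Om G (Kt pt t) v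
  ok : ∀ t, ∀ y ∈ Y t, ¬ Bad R A.om v y
  ne : ∀ t, (Y t).Nonempty
  spr : ∀ t, SprL (Y t) (fun y => y \ v) A.lw (Y t).card

/-- A weakly spread but large box. -/
structure Pre (A : Par G pt) (R : Finset (Finset (ι × V) × Finset (ι × V)))
    (u : Finset (ι × V)) (P : τ → Finset (Finset (ι × V))) : Prop where
  card : u.card ≤ A.w
  sub : ∀ t, P t ⊆ Om G (Kt pt t) u
  ok : ∀ t, ∀ y ∈ P t, ¬ Bad R A.om u y
  spr : ∀ t, SprL (P t) (fun y => y \ u) A.l1 (2 * (P t).card)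
  big : ∀ t, A.θ * A.exu t u ≤ 2 * (P t).card

lemma Par.size_bound (A : Par G pt) {t : τ} {u y b : Finset (ι × V)} (hy : y ∈ Om G (Kt pt t) u)
    (hb : b ⊆ y \ u) (hu : u.card ≤ A.W) {S : Finset (Finset (ι × V))}
    (hS : S ⊆ Om G (Kt pt t) (u ∪ b)) {l : ℝ} (hl0 : 0 ≤ l) (hl : l ≤ A.l2)
    (h : A.θ * A.exu t u < 8 * 4 ^ Fintype.card τ * S.card * l ^ b.card) : b.card ≤ A.dm := by
  by_contra hc
  obtain ⟨m, hm⟩ := Nat.exists_eq_add_of_le (not_le.1 hc)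
  have h1 := A.O.ext (A.hK t) hy hb A.hz0 (Nat.add_le_add_right hu _)
  have h2 : (S.card : ℝ) ≤ (Om G (Kt pt t) (u ∪ b)).card := by exact_mod_cast card_le_card hS
  have hp := A.O.hp
  have hN := A.O.hN
  have hθ := A.hθ
  have hl2 : 0 < A.l2 := by linarith [A.hl1, A.hl12]
  have hρ1 := A.hρ1
  have hρ := A.hρ
  have hx := A.exu_pos t u
  change _ ≤ 2 * A.exu t u at h1
  generalize A.exu t u = x at h h1 hx
  generalize (Fintype.card V : ℝ) * A.p ^ (A.W + A.κ) = B at h1 hρ1 hρ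
  have hB : 0 < B := by linarith
  have h3 : 16 * 4 ^ Fintype.card τ * l ^ b.card ≤ A.θ * B ^ b.card := by
    rw [hm, Nat.succ_eq_add_one, pow_add l, pow_add B, ← mul_assoc, ← mul_assoc]
    refine mul_le_mul (le_trans ?_ hρ) (pow_le_pow_left₀ hl0 (hl.trans hρ1) _) (by positivity)
      (by positivity)
    gcongr
  have h4 : A.θ * x * B ^ b.card < 8 * 4 ^ Fintype.card τ * S.card * l ^ b.card * B ^ b.card :=
    mul_lt_mul_of_pos_right h (by positivity)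
  have h5 : (S.card : ℝ) * B ^ b.card ≤ 2 * x := le_trans (by gcongr) h1
  have h6 : 8 * 4 ^ Fintype.card τ * S.card * l ^ b.card * B ^ b.card ≤
      (8 * 4 ^ Fintype.card τ * l ^ b.card) * (2 * x) := by
    calc _ = (8 * 4 ^ Fintype.card τ * l ^ b.card) * (S.card * B ^ b.card) := by ring
      _ ≤ _ := by gcongr
  nlinarith

lemma isCl_join {y v x b : Finset (ι × V)} (h1 : IsCl G (y ∪ v)) (h2 : IsCl G (x ∪ v)) (hb : b ⊆ x)
    (h3 : Cross G (vs b) (vs (y \ v))) (h4 : ∀ a ∈ b, ∀ a' ∈ y, a.1 ≠ a'.1) :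
    IsCl G (y ∪ (v ∪ b)) := by
  have h5 : ∀ a ∈ b, ∀ a' ∈ y ∪ v, a ≠ a' → a.1 ≠ a'.1 ∧ G.Adj a.2 a'.2 := by
    intro a ha a' ha' hne
    by_cases h : a' ∈ v
    · exact h2 a (mem_union_left _ (hb ha)) a' (mem_union_right _ h) hne
    · have h6 : a' ∈ y := (mem_union.1 ha').resolve_right h
      exact ⟨h4 a ha a' h6, h3 _ (mem_image_of_mem _ ha) _ (mem_image_of_mem _ (mem_sdiff.2 ⟨h6, h⟩))⟩
  intro a ha a' ha' hne
  rw [← union_assoc] at ha ha'
  rcases mem_union.1 ha with h | h <;> rcases mem_union.1 ha' with h' | h'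
  · exact h1 a h a' h' hne
  · have := h5 a' h' a h hne.symm
    exact ⟨this.1.symm, this.2.symm⟩
  · exact h5 a h a' h' hne
  · exact h2 a (mem_union_left _ (hb h)) a' (mem_union_left _ (hb h')) hne

lemma Peel.sprL {γ : Type*} [Fintype γ] [DecidableEq γ] {U : Finset (Finset γ)} {u : Finset γ}
    {a : Finset γ → ℝ} {lam : ℝ} (Q : Peel U (fun y => y \ u) a lam) (hl : 0 ≤ lam)
    {y : Finset γ} (hy : y ∈ U) :
    SprL (Q.Pt y) (fun y' => y' \ (u ∪ Q.b y)) lam (2 * (Q.Pt y).card) := by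
  intro c
  rcases ((Q.Pt y).filter fun y' => c ⊆ y' \ (u ∪ Q.b y)).eq_empty_or_nonempty with h | ⟨y0, hy0⟩
  · rw [h]
    simp only [card_empty, Nat.cast_zero, zero_mul]
    positivity
  · have h1 : Disjoint c (Q.b y) :=
      disjoint_of_subset_right subset_union_right (subset_sdiff.1 (mem_filter.1 hy0).2).2
    refine le_trans (mul_le_mul_of_nonneg_right (Nat.cast_le.2 (card_le_card fun y' hy' => ?_))
      (by positivity)) (Q.spr y hy c h1)
    exact mem_filter.2 ⟨(mem_filter.1 hy').1, (mem_filter.1 hy').2.trans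
      (sdiff_subset_sdiff Subset.rfl subset_union_left)⟩

lemma pigeon {α : Type*} (S : Finset α) (h : α → ℕ) (m : ℕ) (hS : ∀ x ∈ S, h x ≤ m) :
    ∃ d ≤ m, S.card ≤ (m + 1) * (S.filter fun x => h x = d).card := by
  obtain ⟨d, hd, hmax⟩ := (range (m + 1)).exists_max_image
    (fun d => (S.filter fun x => h x = d).card) ⟨0, by simp⟩
  refine ⟨d, by have := mem_range.1 hd; omega, ?_⟩
  rw [card_eq_sum_card_fiberwise (f := h) (t := range (m + 1))
    (fun x hx => mem_coe.2 (mem_range.2 (Nat.lt_succ_of_le (hS x hx))))]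
  calc _ ≤ ∑ _i ∈ range (m + 1), (S.filter fun x => h x = d).card := sum_le_sum hmax
    _ = _ := by simp

lemma exists_good {α τ : Type*} [Fintype τ] (X : Finset α) (hX : X.Nonempty) (B : τ → α → Prop)
    [∀ t, DecidablePred (B t)] (δ : ℝ) (hδ : Fintype.card τ * δ < 1)
    (h : ∀ t, ((X.filter (B t)).card : ℝ) ≤ δ * X.card) : ∃ x ∈ X, ∀ t, ¬ B t x := by
  classical
  by_contra hc
  push Not at hc
  have h1 : X ⊆ univ.biUnion fun t => X.filter (B t) := by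
    intro x hx
    obtain ⟨t, ht⟩ := hc x hx
    exact mem_biUnion.2 ⟨t, mem_univ _, mem_filter.2 ⟨hx, ht⟩⟩
  have h2 : (X.card : ℝ) ≤ ∑ t, ((X.filter (B t)).card : ℝ) := by
    exact_mod_cast (card_le_card h1).trans card_biUnion_le
  have h3 : ∑ t, ((X.filter (B t)).card : ℝ) ≤ Fintype.card τ * (δ * X.card) := by
    calc _ ≤ ∑ _t : τ, δ * X.card := sum_le_sum fun t _ => h t
      _ = _ := by simp
  have h4 : (0 : ℝ) < X.card := by exact_mod_cast hX.card_pos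
  nlinarith

end Pool.Agent.Lib.MP_7836d5_lc.Avg
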