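import Pool.Agent.Lib.MP_7836d5_lc.Avg.Heavy

set_option autoImplicit false
set_option linter.unusedSectionVars false

namespace Pool.Agent.Lib.MP_7836d5_lc.Avg

open Finset

variable {V : Type*} [Fintype V] [DecidableEq V] {G : SimpleGraph V} [DecidableRel G.Adj]

lemma card_prod_filter {α β : Type*} (X : Finset α) (Y : Finset β) (R : α × β → Prop)
    [DecidablePred R] :
    (((X ×ˢ Y).filter R).card : ℝ) = ∑ x ∈ X, ((Y.filter fun y => R (x, y)).card : ℝ) := by
  rw [card_filter, sum_product]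
  push_cast
  refine sum_congr rfl fun x _ => ?_
  rw [card_filter]
  push_cast
  rfl

lemma card_prod_filter' {α β : Type*} (X : Finset α) (Y : Finset β) (R : α × β → Prop)
    [DecidablePred R] :
    (((X ×ˢ Y).filter R).card : ℝ) = ∑ y ∈ Y, ((X.filter fun x => R (x, y)).card : ℝ) := by
  rw [card_filter, sum_product_right]
  push_cast
  refine sum_congr rfl fun x _ => ?_
  rw [card_filter]
  push_cast
  rfl

lemma markov {α : Type*} (X : Finset α) (h : α → ℝ) (h0 : ∀ x ∈ X, 0 ≤ h x) (t : ℝ) :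
    ((X.filter fun x => t ≤ h x).card : ℝ) * t ≤ ∑ x ∈ X, h x := by
  calc _ = ∑ _x ∈ X.filter fun x => t ≤ h x, t := by simp
    _ ≤ ∑ x ∈ X.filter fun x => t ≤ h x, h x := sum_le_sum fun x hx => (mem_filter.1 hx).2
    _ ≤ _ := sum_le_sum_of_subset_of_nonneg (filter_subset _ _) fun x hx _ => h0 x hx

lemma few_low {p ε : ℝ} {z : ℕ} {lam η : ℝ} (E : EH G p ε z lam η)
    {α β : Type*} [DecidableEq α] [DecidableEq β] (v0 : V)
    {d l : ℕ} (hd : d ≤ z) (hl : l ≤ z)
    (X : Finset α) (f : α → Finset V) (hf : ∀ x ∈ X, (f x).card = d)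
    (P : Finset β) (g : β → Finset V) (hg : ∀ y ∈ P, (g y).card = l) (hP0 : P.Nonempty)
    (hX : SprL X f lam X.card) (hP : SprL P g lam P.card) :
    ((X.filter fun x => 2 * ((P.filter fun y => Cross G (f x) (g y)).card : ℝ) <
      p ^ (d * l) * P.card).card : ℝ) ≤ 2 * η * X.card := by
  have hp := E.hp
  set X1 := X.filter fun x => 2 * ((P.filter fun y => Cross G (f x) (g y)).card : ℝ) <
      p ^ (d * l) * P.card with hX1
  have hs : X1 ⊆ X := filter_subset _ _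
  have h1 := (E.two_sided v0 hd hl X1 f (fun x hx => hf x (hs hx)) P g hg
    (hX.subset (by linarith [E.hl]) hs) hP).1
  rw [card_prod_filter] at h1
  have h2 : ∑ x ∈ X1, ((P.filter fun y => Cross G (f x) (g y)).card : ℝ) ≤
      X1.card * (p ^ (d * l) * P.card / 2) := by
    rw [← nsmul_eq_mul, ← sum_const]
    refine sum_le_sum fun x hx => ?_
    have := (mem_filter.1 hx).2
    linarith
  have h3 := h1.trans h2
  have hPc : (0 : ℝ) < P.card := by exact_mod_cast hP0.card_pos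
  have hm : 0 < p ^ (d * l) * P.card := by positivity
  have h4 : (X1.card : ℝ) * (p ^ (d * l) * P.card) ≤ (2 * η * X.card) * (p ^ (d * l) * P.card) := by
    linarith
  exact le_of_mul_le_mul_right h4 hm

lemma forb_count {p : ℝ} (hp : 0 < p) {α β : Type*} [DecidableEq α] [DecidableEq β] {d l z : ℕ}
    (hd : d ≤ z) (X : Finset α) (f : α → Finset V) (hf : ∀ x ∈ X, (f x).card = d)
    (g : β → Finset V) {lamX σ K Ξ : ℝ} (hX0 : 0 < lamX) (hσ : 0 < σ) (hK : 0 ≤ K) (hΞ0 : 0 ≤ Ξ)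
    (Fb : Finset V → Prop) [DecidablePred Fb] (hF0 : ¬ Fb ∅)
    (hF : ∀ j, ((univ.filter fun B : Finset V => B.card = j ∧ Fb B).card : ℝ) ≤ K * Ξ ^ j)
    (hΞ : Ξ * ((z + 1) * (p⁻¹) ^ l) / lamX ≤ 1) (y : β) :
    ((X.filter fun x => (Cross G (g y) (f x) ∧ ¬ Hv G X f (thrF p σ lamX X.card z l d) (g y) x) ∧
      ∃ B ∈ (f x).powerset, Fb B).card : ℝ) ≤
      z * K * σ * (Ξ * ((z + 1) * (p⁻¹) ^ l) / lamX) * (p ^ (d * l) * X.card) := by
  have hsub : (X.filter fun x => (Cross G (g y) (f x) ∧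
      ¬ Hv G X f (thrF p σ lamX X.card z l d) (g y) x) ∧ ∃ B ∈ (f x).powerset, Fb B) ⊆
      (Icc 1 d).biUnion fun j => (univ.filter fun B : Finset V => B.card = j ∧ Fb B).biUnion
        fun B => X.filter fun x => (Cross G (g y) (f x) ∧
          ¬ Hv G X f (thrF p σ lamX X.card z l d) (g y) x) ∧ B ⊆ f x := by
    intro x hx
    obtain ⟨hx1, hx2, B, hB, hB'⟩ := mem_filter.1 hx
    have hB1 := mem_powerset.1 hB
    refine mem_biUnion.2 ⟨B.card, mem_Icc.2 ⟨?_, ?_⟩, mem_biUnion.2 ⟨B,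
      mem_filter.2 ⟨mem_univ _, rfl, hB'⟩, mem_filter.2 ⟨hx1, hx2, hB1⟩⟩⟩
    · refine card_pos.2 (nonempty_iff_ne_empty.2 ?_)
      rintro rfl
      exact hF0 hB'
    · rw [← hf x hx1]; exact card_le_card hB1
  have h1 : ∀ B : Finset V, ((X.filter fun x => (Cross G (g y) (f x) ∧
          ¬ Hv G X f (thrF p σ lamX X.card z l d) (g y) x) ∧ B ⊆ f x).card : ℝ) ≤
        thrF p σ lamX X.card z l d B.card := by
    intro B
    rcases (X.filter fun x => (Cross G (g y) (f x) ∧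
          ¬ Hv G X f (thrF p σ lamX X.card z l d) (g y) x) ∧ B ⊆ f x).eq_empty_or_nonempty with
      h | ⟨x0, hx0⟩
    · rw [h]
      simp only [card_empty, Nat.cast_zero]
      unfold thrF
      positivity
    · obtain ⟨_, ⟨_, h2⟩, h3⟩ := mem_filter.1 hx0
      have h4 : ¬ thrF p σ lamX X.card z l d B.card <
          (X.filter fun x => B ⊆ f x ∧ Cross G (g y) (f x)).card :=
        fun h => h2 ⟨B, mem_powerset.2 h3, h⟩
      refine le_trans ?_ (not_lt.1 h4)
      refine Nat.cast_le.2 (card_le_card fun x hx => ?_)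
      obtain ⟨h5, ⟨h6, _⟩, h7⟩ := mem_filter.1 hx
      exact mem_filter.2 ⟨h5, h7, h6⟩
  have h2 : ∀ j ∈ Icc 1 d, (((univ.filter fun B : Finset V => B.card = j ∧ Fb B).biUnion
        fun B => X.filter fun x => (Cross G (g y) (f x) ∧
          ¬ Hv G X f (thrF p σ lamX X.card z l d) (g y) x) ∧ B ⊆ f x).card : ℝ) ≤
        K * σ * (Ξ * ((z + 1) * (p⁻¹) ^ l) / lamX) * (p ^ (d * l) * X.card) := by
    intro j hj
    have hthr : 0 ≤ thrF p σ lamX X.card z l d j := by unfold thrF; positivity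
    calc _ ≤ ∑ B ∈ univ.filter fun B : Finset V => B.card = j ∧ Fb B,
          ((X.filter fun x => (Cross G (g y) (f x) ∧
          ¬ Hv G X f (thrF p σ lamX X.card z l d) (g y) x) ∧ B ⊆ f x).card : ℝ) := by
          exact_mod_cast card_biUnion_le
      _ ≤ ∑ _B ∈ univ.filter fun B : Finset V => B.card = j ∧ Fb B,
          thrF p σ lamX X.card z l d j := by
          refine sum_le_sum fun B hB => ?_
          rw [← (mem_filter.1 hB).2.1]
          exact h1 B
      _ ≤ K * Ξ ^ j * thrF p σ lamX X.card z l d j := by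
          rw [sum_const, nsmul_eq_mul]
          exact mul_le_mul_of_nonneg_right (hF j) hthr
      _ = K * σ * (Ξ * ((z + 1) * (p⁻¹) ^ l) / lamX) ^ j * (p ^ (d * l) * X.card) := by
          unfold thrF
          rw [mul_div_assoc Ξ, mul_pow Ξ, mul_comm l d]
          ring
      _ ≤ _ := by
          refine mul_le_mul_of_nonneg_right (mul_le_mul_of_nonneg_left ?_ (by positivity))
            (by positivity)
          exact pow_le_of_le_one (by positivity) hΞ (by have := (mem_Icc.1 hj).1; omega)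
  calc _ ≤ ∑ j ∈ Icc 1 d, (((univ.filter fun B : Finset V => B.card = j ∧ Fb B).biUnion
        fun B => X.filter fun x => (Cross G (g y) (f x) ∧
          ¬ Hv G X f (thrF p σ lamX X.card z l d) (g y) x) ∧ B ⊆ f x).card : ℝ) := by
        exact_mod_cast (card_le_card hsub).trans card_biUnion_le
    _ ≤ ∑ _j ∈ Icc 1 d, K * σ * (Ξ * ((z + 1) * (p⁻¹) ^ l) / lamX) * (p ^ (d * l) * X.card) := sum_le_sum h2
    _ ≤ _ := by
        rw [sum_const, nsmul_eq_mul, Nat.card_Icc, Nat.add_sub_cancel]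
        have : (d : ℝ) ≤ z := by exact_mod_cast hd
        calc _ ≤ z * (K * σ * (Ξ * ((z + 1) * (p⁻¹) ^ l) / lamX) * (p ^ (d * l) * X.card)) := by gcongr
          _ = _ := by ring

lemma bad_pairs {p ε : ℝ} {z : ℕ} {lam η : ℝ} (E : EH G p ε z lam η)
    {α β : Type*} [DecidableEq α] [DecidableEq β] (v0 : V)
    {d l : ℕ} (hd : 2 * d ≤ z) (hl : 2 * l ≤ z)
    (X : Finset α) (f : α → Finset V) (hf : ∀ x ∈ X, (f x).card = d) (hX0 : X.Nonempty)
    (P : Finset β) (g : β → Finset V) (hg : ∀ y ∈ P, (g y).card = l) (hP0 : P.Nonempty)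
    {lamX lamP σ K Ξ : ℝ} (hX : SprL X f lamX X.card) (hP : SprL P g lamP P.card)
    (h2X : 2 * lam ≤ lamX) (h2P : 2 * lam ≤ lamP)
    (hqX : (z + 1) * (p⁻¹) ^ l ≤ lamX) (hqP : (z + 1) * (p⁻¹) ^ d ≤ lamP)
    (hσ : 0 < σ) (hK : 0 ≤ K) (hΞ0 : 0 ≤ Ξ)
    (Fb : β → Finset V → Prop) [∀ y, DecidablePred (Fb y)] (hF0 : ∀ y ∈ P, ¬ Fb y ∅)
    (hF : ∀ y ∈ P, ∀ j,
      ((univ.filter fun B : Finset V => B.card = j ∧ Fb y B).card : ℝ) ≤ K * Ξ ^ j)
    (hΞ : Ξ * ((z + 1) * (p⁻¹) ^ l) / lamX ≤ 1) :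
    ∑ x ∈ X, ((P.filter fun y => Cross G (f x) (g y) ∧
      (Hv G P g (thrF p σ lamP P.card z d l) (f x) y ∨ ∃ B ∈ (f x).powerset, Fb y B)).card : ℝ) ≤
      (2 * ((z + 1) * 2 / σ) + z * K * σ * (Ξ * ((z + 1) * (p⁻¹) ^ l) / lamX)) *
        (p ^ (d * l) * (X.card * P.card)) := by
  have hp := E.hp
  have hl1 := E.hl
  have hXc : (0 : ℝ) < X.card := by exact_mod_cast hX0.card_pos
  have hPc : (0 : ℝ) < P.card := by exact_mod_cast hP0.card_pos
  have h1 := heavy E v0 (by omega : d ≤ z) hl X f hf P g hg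
    (hX.mono (by linarith) (by linarith)) h2P hP hqP hσ hPc
  have h2 := heavy E v0 (by omega : l ≤ z) hd P g hg X f hf
    (hP.mono (by linarith) (by linarith)) h2X hX hqX hσ hXc
  rw [card_prod_filter] at h1
  rw [card_prod_filter'] at h2
  have h3 : ∑ x ∈ X, ((P.filter fun y => (Cross G (g y) (f x) ∧
      ¬ Hv G X f (thrF p σ lamX X.card z l d) (g y) x) ∧ ∃ B ∈ (f x).powerset, Fb y B).card : ℝ) ≤
      z * K * σ * (Ξ * ((z + 1) * (p⁻¹) ^ l) / lamX) * (p ^ (d * l) * (X.card * P.card)) := by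
    have h4 := card_prod_filter X P (fun e => (Cross G (g e.2) (f e.1) ∧
      ¬ Hv G X f (thrF p σ lamX X.card z l d) (g e.2) e.1) ∧ ∃ B ∈ (f e.1).powerset, Fb e.2 B)
    rw [card_prod_filter'] at h4
    refine le_trans (le_of_eq h4.symm) ?_
    calc _ ≤ ∑ _y ∈ P, z * K * σ * (Ξ * ((z + 1) * (p⁻¹) ^ l) / lamX) * (p ^ (d * l) * X.card) :=
          sum_le_sum fun y hy => forb_count hp (by omega : d ≤ z) X f hf g (by linarith) hσ hK hΞ0
            (Fb y) (hF0 y hy) (hF y hy) hΞ y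
      _ = _ := by rw [sum_const, nsmul_eq_mul]; ring
  have h5 : ∀ x ∈ X, ((P.filter fun y => Cross G (f x) (g y) ∧
      (Hv G P g (thrF p σ lamP P.card z d l) (f x) y ∨ ∃ B ∈ (f x).powerset, Fb y B)).card : ℝ) ≤
      ((P.filter fun y => Cross G (f x) (g y) ∧
        Hv G P g (thrF p σ lamP P.card z d l) (f x) y).card : ℝ) +
      ((P.filter fun y => Cross G (g y) (f x) ∧
        Hv G X f (thrF p σ lamX X.card z l d) (g y) x).card : ℝ) +
      ((P.filter fun y => (Cross G (g y) (f x) ∧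
      ¬ Hv G X f (thrF p σ lamX X.card z l d) (g y) x) ∧ ∃ B ∈ (f x).powerset, Fb y B).card : ℝ) := by
    intro x _
    have h6 : (P.filter fun y => Cross G (f x) (g y) ∧
      (Hv G P g (thrF p σ lamP P.card z d l) (f x) y ∨ ∃ B ∈ (f x).powerset, Fb y B)) ⊆
      ((P.filter fun y => Cross G (f x) (g y) ∧
        Hv G P g (thrF p σ lamP P.card z d l) (f x) y) ∪
      (P.filter fun y => Cross G (g y) (f x) ∧
        Hv G X f (thrF p σ lamX X.card z l d) (g y) x)) ∪
      (P.filter fun y => (Cross G (g y) (f x) ∧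
      ¬ Hv G X f (thrF p σ lamX X.card z l d) (g y) x) ∧ ∃ B ∈ (f x).powerset, Fb y B) := by
      intro y hy
      obtain ⟨hy1, hy2, hy3⟩ := mem_filter.1 hy
      rcases hy3 with h | h
      · exact mem_union_left _ (mem_union_left _ (mem_filter.2 ⟨hy1, hy2, h⟩))
      · by_cases h7 : Hv G X f (thrF p σ lamX X.card z l d) (g y) x
        · exact mem_union_left _ (mem_union_right _ (mem_filter.2 ⟨hy1, hy2.symm, h7⟩))
        · exact mem_union_right _ (mem_filter.2 ⟨hy1, ⟨hy2.symm, h7⟩, h⟩)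
    exact_mod_cast (card_le_card h6).trans ((card_union_le _ _).trans
      (Nat.add_le_add_right (card_union_le _ _) _))
  refine (sum_le_sum h5).trans ?_
  rw [sum_add_distrib, sum_add_distrib]
  rw [mul_comm l d, mul_comm (P.card : ℝ)] at h2
  linarith

/-- What a good choice of the new fixed part leaves of another family. -/
def Good (G : SimpleGraph V) [DecidableRel G.Adj] {β : Type*} (P : Finset β) (g : β → Finset V)
    (Fb : β → Finset V → Prop) (m lam : ℝ) (D : Finset V) : Prop :=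
  ∃ Q ⊆ P, (∀ y ∈ Q, Cross G D (g y) ∧ ∀ B ⊆ D, ¬ Fb y B) ∧ m ≤ 4 * Q.card ∧ SprL Q g lam Q.card

noncomputable instance {β : Type*} (P : Finset β) (g : β → Finset V)
    (Fb : β → Finset V → Prop) (m lam : ℝ) (D : Finset V) : Decidable (Good G P g Fb m lam D) :=
  Classical.dec _

lemma good_of {p : ℝ} (hp : 0 < p) {β : Type*} [DecidableEq β] (z d l : ℕ)
    (P : Finset β) (g : β → Finset V) {lamP σ : ℝ} (hP0 : 0 < lamP) (hσ : 1 ≤ σ)
    (Fb : β → Finset V → Prop) [∀ y, DecidablePred (Fb y)] (D : Finset V)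
    (h1 : p ^ (d * l) * P.card ≤ 2 * ((P.filter fun y => Cross G D (g y)).card : ℝ))
    (h2 : 4 * ((P.filter fun y => Cross G D (g y) ∧
      (Hv G P g (thrF p σ lamP P.card z d l) D y ∨ ∃ B ∈ D.powerset, Fb y B)).card : ℝ) ≤
        p ^ (d * l) * P.card) :
    Good G P g Fb (p ^ (d * l) * P.card) (lamP * p ^ d / (4 * σ * (z + 1))) D := by
  set Q := P.filter fun y => Cross G D (g y) ∧
      ¬ (Hv G P g (thrF p σ lamP P.card z d l) D y ∨ ∃ B ∈ D.powerset, Fb y B) with hQ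
  have h3 : ((P.filter fun y => Cross G D (g y)).card : ℝ) =
      ((P.filter fun y => Cross G D (g y) ∧
      (Hv G P g (thrF p σ lamP P.card z d l) D y ∨ ∃ B ∈ D.powerset, Fb y B)).card : ℝ) + Q.card := by
    rw [hQ, ← filter_filter, ← filter_filter]
    exact_mod_cast (card_filter_add_card_filter_not _).symm
  have h4 : p ^ (d * l) * P.card ≤ 4 * Q.card := by linarith
  refine ⟨Q, filter_subset _ _, fun y hy => ?_, h4, fun B => ?_⟩
  · obtain ⟨_, h5, h6⟩ := mem_filter.1 hy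
    exact ⟨h5, fun B hB hF => h6 (Or.inr ⟨B, mem_powerset.2 hB, hF⟩)⟩
  · rcases B.eq_empty_or_nonempty with rfl | hB
    · simp
    rcases (Q.filter fun y => B ⊆ g y).eq_empty_or_nonempty with h | ⟨y0, hy0⟩
    · rw [h]; simp
    obtain ⟨h5, h6⟩ := mem_filter.1 hy0
    obtain ⟨_, _, h7⟩ := mem_filter.1 h5
    have h8 : ¬ thrF p σ lamP P.card z d l B.card <
          (P.filter fun y => B ⊆ g y ∧ Cross G D (g y)).card :=
        fun h => h7 (Or.inl ⟨B, mem_powerset.2 h6, h⟩)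
    have h9 : ((Q.filter fun y => B ⊆ g y).card : ℝ) ≤ thrF p σ lamP P.card z d l B.card := by
      refine le_trans ?_ (not_lt.1 h8)
      refine Nat.cast_le.2 (card_le_card fun y hy => ?_)
      obtain ⟨h10, h11⟩ := mem_filter.1 hy
      obtain ⟨h12, h13, _⟩ := mem_filter.1 h10
      exact mem_filter.2 ⟨h12, h11, h13⟩
    have h14 : 4 * σ ≤ (4 * σ) ^ B.card := le_self_pow₀ (by linarith) hB.card_pos.ne'
    calc _ ≤ thrF p σ lamP P.card z d l B.card * (lamP * p ^ d / (4 * σ * (z + 1))) ^ B.card := by gcongr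
      _ = σ * (p ^ (d * l) * P.card) / (4 * σ) ^ B.card := by
          unfold thrF
          rw [div_pow, div_pow, mul_pow lamP, mul_pow (4 * σ), mul_pow (z + 1 : ℝ), inv_pow, inv_pow]
          field_simp
      _ ≤ σ * (4 * Q.card) / (4 * σ) := by gcongr
      _ = _ := by field_simp

theorem select {p ε : ℝ} {z : ℕ} {lam η : ℝ} (E : EH G p ε z lam η)
    {α β : Type*} [DecidableEq α] [DecidableEq β] (v0 : V)
    {d l : ℕ} (hd : 2 * d ≤ z) (hl : 2 * l ≤ z)
    (X : Finset α) (f : α → Finset V) (hf : ∀ x ∈ X, (f x).card = d) (hX0 : X.Nonempty)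
    (P : Finset β) (g : β → Finset V) (hg : ∀ y ∈ P, (g y).card = l) (hP0 : P.Nonempty)
    {lamX lamP σ K Ξ : ℝ} (hX : SprL X f lamX X.card) (hP : SprL P g lamP P.card)
    (h2X : 2 * lam ≤ lamX) (h2P : 2 * lam ≤ lamP)
    (hqX : (z + 1) * (p⁻¹) ^ l ≤ lamX) (hqP : (z + 1) * (p⁻¹) ^ d ≤ lamP)
    (hσ : 1 ≤ σ) (hK : 0 ≤ K) (hΞ0 : 0 ≤ Ξ)
    (Fb : β → Finset V → Prop) [∀ y, DecidablePred (Fb y)] (hF0 : ∀ y ∈ P, ¬ Fb y ∅)
    (hF : ∀ y ∈ P, ∀ j,
      ((univ.filter fun B : Finset V => B.card = j ∧ Fb y B).card : ℝ) ≤ K * Ξ ^ j)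
    (hΞ : Ξ * ((z + 1) * (p⁻¹) ^ l) / lamX ≤ 1) :
    ((X.filter fun x =>
      ¬ Good G P g Fb (p ^ (d * l) * P.card) (lamP * p ^ d / (4 * σ * (z + 1))) (f x)).card : ℝ) ≤
      (2 * η + 4 * (2 * ((z + 1) * 2 / σ) + z * K * σ * (Ξ * ((z + 1) * (p⁻¹) ^ l) / lamX))) *
        X.card := by
  have hp := E.hp
  have hl1 := E.hl
  have hPc : (0 : ℝ) < P.card := by exact_mod_cast hP0.card_pos
  have h1 := few_low E v0 (by omega : d ≤ z) (by omega : l ≤ z) X f hf P g hg hP0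
    (hX.mono (by linarith) (by linarith)) (hP.mono (by linarith) (by linarith))
  have h2 := bad_pairs E v0 hd hl X f hf hX0 P g hg hP0 hX hP h2X h2P hqX hqP
    (by linarith : 0 < σ) hK hΞ0 Fb hF0 hF hΞ
  have h3 := (markov X (fun x => ((P.filter fun y => Cross G (f x) (g y) ∧
      (Hv G P g (thrF p σ lamP P.card z d l) (f x) y ∨ ∃ B ∈ (f x).powerset, Fb y B)).card : ℝ))
      (fun _ _ => Nat.cast_nonneg _) (p ^ (d * l) * P.card / 4)).trans h2
  have hm : 0 < p ^ (d * l) * P.card := by positivity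
  generalize (2 * ((z + 1) * 2 / σ) + z * K * σ * (Ξ * ((z + 1) * (p⁻¹) ^ l) / lamX)) = C at h3 ⊢
  have h4 : ((X.filter fun x => p ^ (d * l) * P.card / 4 ≤ ((P.filter fun y => Cross G (f x) (g y) ∧
      (Hv G P g (thrF p σ lamP P.card z d l) (f x) y ∨
        ∃ B ∈ (f x).powerset, Fb y B)).card : ℝ)).card : ℝ) ≤ 4 * C * X.card := by
    refine le_of_mul_le_mul_right ?_ hm
    linarith
  have h5 : (X.filter fun x =>
      ¬ Good G P g Fb (p ^ (d * l) * P.card) (lamP * p ^ d / (4 * σ * (z + 1))) (f x)) ⊆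
      (X.filter fun x => 2 * ((P.filter fun y => Cross G (f x) (g y)).card : ℝ) <
      p ^ (d * l) * P.card) ∪
      (X.filter fun x => p ^ (d * l) * P.card / 4 ≤ ((P.filter fun y => Cross G (f x) (g y) ∧
      (Hv G P g (thrF p σ lamP P.card z d l) (f x) y ∨
        ∃ B ∈ (f x).powerset, Fb y B)).card : ℝ)) := by
    intro x hx
    obtain ⟨hx1, hx2⟩ := mem_filter.1 hx
    by_contra hc
    rw [mem_union, mem_filter, mem_filter] at hc
    push Not at hc
    exact hx2 (good_of hp z d l P g (by linarith) hσ Fb (f x) (hc.1 hx1) (by linarith [hc.2 hx1]))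
  have h6 := (card_le_card h5).trans (card_union_le _ _)
  have h7 := (Nat.cast_le (α := ℝ)).2 h6
  rw [Nat.cast_add] at h7
  linarith

end Pool.Agent.Lib.MP_7836d5_lc.Avg
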