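import Mathlib

set_option autoImplicit false
set_option linter.unusedSectionVars false

namespace Pool.Agent.Lib.MP_7836d5_lc.Avg

open Finset

variable {V : Type*} [Fintype V] [DecidableEq V] (G : SimpleGraph V) [DecidableRel G.Adj]

/-- Common neighbourhood of a finite set of vertices. -/
def cnb (Z : Finset V) : Finset V := univ.filter fun u => ∀ w ∈ Z, G.Adj u w

/-- All sets of at most `z` vertices have about the expected number of common neighbours. -/
def Cod (p ε : ℝ) (z : ℕ) : Prop :=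
  ∀ Z : Finset V, Z.card ≤ z →
    |((cnb G Z).card : ℝ) - Fintype.card V * p ^ Z.card| ≤ ε * (Fintype.card V * p ^ Z.card)

/-- The normalised centred edge indicator. -/
noncomputable def xi (p : ℝ) (u w : V) : ℝ := (if G.Adj u w then p⁻¹ else 0) - 1

lemma xi_comm (p : ℝ) (u w : V) : xi G p u w = xi G p w u := by
  simp only [xi, G.adj_comm]

lemma abs_xi_le {p : ℝ} (hp : 0 < p) (hp1 : p ≤ 1) (u w : V) : |xi G p u w| ≤ p⁻¹ := by
  have : 1 ≤ p⁻¹ := (one_le_inv₀ hp).2 hp1
  unfold xi
  split_ifs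
  · rw [abs_le]; constructor <;> linarith
  · rw [abs_le]; constructor <;> linarith

lemma ind_mul_xi (p : ℝ) (S : Finset V) (u w : V) :
    (if ∀ s ∈ S, G.Adj u s then (1 : ℝ) else 0) * xi G p u w =
      p⁻¹ * (if ∀ s ∈ insert w S, G.Adj u s then (1 : ℝ) else 0) -
        (if ∀ s ∈ S, G.Adj u s then (1 : ℝ) else 0) := by
  unfold xi
  by_cases h1 : ∀ s ∈ S, G.Adj u s
  · by_cases h2 : G.Adj u w
    · have : ∀ s ∈ insert w S, G.Adj u s := by
        intro s hs
        rcases mem_insert.1 hs with h | h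
        · rw [h]; exact h2
        · exact h1 s h
      rw [if_pos h1, if_pos h2, if_pos this]; ring
    · have : ¬ ∀ s ∈ insert w S, G.Adj u s := fun h => h2 (h w (mem_insert_self _ _))
      rw [if_pos h1, if_neg h2, if_neg this]; ring
  · have : ¬ ∀ s ∈ insert w S, G.Adj u s := fun h => h1 fun s hs => h s (mem_insert_of_mem hs)
    rw [if_neg h1, if_neg this]; ring

lemma sum_ind (S : Finset V) :
    ∑ u, (if ∀ s ∈ S, G.Adj u s then (1 : ℝ) else 0) = (cnb G S).card := by
  simp [cnb]

lemma xi_sum {p ε : ℝ} {z : ℕ} (hp : 0 < p) (hp1 : p ≤ 1) (hε : 0 ≤ ε) (hG : Cod G p ε z)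
    {ι : Type*} [DecidableEq ι] (f : ι → V) (w0 : V) (T : Finset ι) :
    ∀ S : Finset V, w0 ∉ S → (∀ i ∈ T, f i ≠ w0) → S.card + T.card + 1 ≤ z →
      |∑ u, (if ∀ s ∈ S, G.Adj u s then (1 : ℝ) else 0) * ((∏ i ∈ T, xi G p u (f i)) * xi G p u w0)|
        ≤ 2 * ε * Fintype.card V * (2 * p⁻¹) ^ T.card := by
  have hq : 1 ≤ p⁻¹ := (one_le_inv₀ hp).2 hp1
  induction T using Finset.induction_on with
  | empty =>
    intro S hS _ hz
    simp only [prod_empty, one_mul, card_empty, pow_zero, mul_one]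
    simp only [ind_mul_xi, sum_sub_distrib, ← mul_sum, sum_ind]
    have h1 := hG (insert w0 S) (by rw [card_insert_of_notMem hS]; simpa using hz)
    have h2 := hG S (by simp at hz; omega)
    rw [card_insert_of_notMem hS] at h1
    have hN : (0 : ℝ) ≤ Fintype.card V := by positivity
    have hps : p ^ S.card ≤ 1 := pow_le_one₀ hp.le hp1
    have hps0 : 0 ≤ p ^ S.card := by positivity
    have h3 : |p⁻¹ * ((cnb G (insert w0 S)).card : ℝ) - Fintype.card V * p ^ S.card| ≤
        ε * (Fintype.card V * p ^ S.card) := by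
      have : p⁻¹ * ((cnb G (insert w0 S)).card : ℝ) - Fintype.card V * p ^ S.card =
          p⁻¹ * (((cnb G (insert w0 S)).card : ℝ) - Fintype.card V * p ^ (S.card + 1)) := by
        field_simp
        ring
      rw [this, abs_mul, abs_of_pos (inv_pos.2 hp)]
      calc _ ≤ p⁻¹ * (ε * (Fintype.card V * p ^ (S.card + 1))) := by gcongr
        _ = _ := by field_simp; ring
    have h4 : ε * (Fintype.card V * p ^ S.card) ≤ ε * Fintype.card V := by
      apply mul_le_mul_of_nonneg_left _ hε
      nlinarith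
    rw [abs_le] at h2 h3 ⊢
    constructor <;> linarith [h2.1, h2.2, h3.1, h3.2]
  | insert i T hi ih =>
    intro S hS hf hz
    rw [card_insert_of_notMem hi] at hz ⊢
    have hf' : ∀ j ∈ T, f j ≠ w0 := fun j hj => hf j (mem_insert_of_mem hj)
    have h1 := ih (insert (f i) S) (by
      intro h
      rcases mem_insert.1 h with h | h
      · exact hf i (mem_insert_self _ _) h.symm
      · exact hS h) hf' (by have := card_insert_le (f i) S; omega)
    have h2 := ih S hS hf' (by omega)
    have : ∑ u, (if ∀ s ∈ S, G.Adj u s then (1 : ℝ) else 0) *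
        ((∏ j ∈ insert i T, xi G p u (f j)) * xi G p u w0) =
        p⁻¹ * ∑ u, (if ∀ s ∈ insert (f i) S, G.Adj u s then (1 : ℝ) else 0) *
          ((∏ j ∈ T, xi G p u (f j)) * xi G p u w0) -
        ∑ u, (if ∀ s ∈ S, G.Adj u s then (1 : ℝ) else 0) *
          ((∏ j ∈ T, xi G p u (f j)) * xi G p u w0) := by
      rw [mul_sum, ← sum_sub_distrib]
      refine sum_congr rfl fun u _ => ?_
      rw [prod_insert hi, mul_assoc, ← mul_assoc, ind_mul_xi]
      ring
    rw [this]
    have hB : 0 ≤ 2 * ε * Fintype.card V * (2 * p⁻¹) ^ T.card := by positivity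
    calc _ ≤ |p⁻¹ * ∑ u, (if ∀ s ∈ insert (f i) S, G.Adj u s then (1 : ℝ) else 0) *
          ((∏ j ∈ T, xi G p u (f j)) * xi G p u w0)| +
        |∑ u, (if ∀ s ∈ S, G.Adj u s then (1 : ℝ) else 0) *
          ((∏ j ∈ T, xi G p u (f j)) * xi G p u w0)| := abs_sub _ _
      _ ≤ p⁻¹ * (2 * ε * Fintype.card V * (2 * p⁻¹) ^ T.card) +
          2 * ε * Fintype.card V * (2 * p⁻¹) ^ T.card := by
        rw [abs_mul, abs_of_pos (inv_pos.2 hp)]
        gcongr
      _ ≤ _ := by
        rw [pow_succ]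
        nlinarith

/-- The correlation of two tuples along a set of positions. -/
lemma pair_sum {p ε : ℝ} {z : ℕ} (hp : 0 < p) (hp1 : p ≤ 1) (hε : 0 ≤ ε) (hG : Cod G p ε z)
    {ι : Type*} [Fintype ι] [DecidableEq ι] (hz : 2 * Fintype.card ι ≤ z) (y y' : ι → V)
    (hy' : Function.Injective y') (T : Finset ι) :
    |∑ u, (∏ l ∈ T, xi G p u (y l)) * ∏ l ∈ T, xi G p u (y' l)| ≤
      Fintype.card V * (2 * p⁻¹) ^ (2 * Fintype.card ι) *
        (2 * ε + if ∀ l ∈ T, y' l ∈ univ.image y then 1 else 0) := by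
  have hq : 1 ≤ p⁻¹ := (one_le_inv₀ hp).2 hp1
  have hT : T.card ≤ Fintype.card ι := card_le_univ T
  by_cases h : ∀ l ∈ T, y' l ∈ univ.image y
  · rw [if_pos h]
    have h1 : ∀ u, |(∏ l ∈ T, xi G p u (y l)) * ∏ l ∈ T, xi G p u (y' l)| ≤
        (2 * p⁻¹) ^ (2 * Fintype.card ι) := by
      intro u
      rw [abs_mul, abs_prod, abs_prod]
      have h2 : ∀ f : ι → V, ∏ l ∈ T, |xi G p u (f l)| ≤ (2 * p⁻¹) ^ Fintype.card ι := by
        intro f
        calc _ ≤ ∏ _l ∈ T, (2 * p⁻¹) := by
              apply prod_le_prod (fun _ _ => abs_nonneg _)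
              intro l _
              have := abs_xi_le G hp hp1 u (f l)
              linarith
          _ = (2 * p⁻¹) ^ T.card := by simp
          _ ≤ _ := pow_le_pow_right₀ (by linarith) hT
      rw [two_mul (Fintype.card ι), pow_add]
      exact mul_le_mul (h2 y) (h2 y') (prod_nonneg fun _ _ => abs_nonneg _) (by positivity)
    calc _ ≤ ∑ u, |(∏ l ∈ T, xi G p u (y l)) * ∏ l ∈ T, xi G p u (y' l)| := abs_sum_le_sum_abs _ _
      _ ≤ ∑ _u : V, (2 * p⁻¹) ^ (2 * Fintype.card ι) := sum_le_sum fun u _ => h1 u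
      _ = Fintype.card V * (2 * p⁻¹) ^ (2 * Fintype.card ι) := by simp
      _ ≤ _ := le_mul_of_one_le_right (by positivity) (by linarith)
  · rw [if_neg h]
    push Not at h
    obtain ⟨l0, hl0, hl1⟩ := h
    have h1 := xi_sum G hp hp1 hε hG (Sum.elim y y') (y' l0) (T.disjSum (T.erase l0)) ∅ (by simp)
      (by
        intro i hi
        rcases i with i | i
        · intro h
          exact hl1 (mem_image.2 ⟨i, mem_univ _, h⟩)
        · intro h
          have hi' : i ∈ T.erase l0 := by simpa using hi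
          exact (mem_erase.1 hi').1 (hy' h))
      (by
        rw [card_disjSum, card_erase_of_mem hl0]
        have : 0 < T.card := card_pos.2 ⟨l0, hl0⟩
        simp only [card_empty]
        omega)
    have h2 : ∑ u, (∏ l ∈ T, xi G p u (y l)) * ∏ l ∈ T, xi G p u (y' l) =
        ∑ u, (if ∀ s ∈ (∅ : Finset V), G.Adj u s then (1 : ℝ) else 0) *
          ((∏ i ∈ T.disjSum (T.erase l0), xi G p u (Sum.elim y y' i)) * xi G p u (y' l0)) := by
      refine sum_congr rfl fun u _ => ?_
      rw [prod_disjSum, ← mul_prod_erase T (fun l => xi G p u (y' l)) hl0]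
      simp only [notMem_empty, IsEmpty.forall_iff, implies_true, if_true, Sum.elim_inl,
        Sum.elim_inr]
      ring
    rw [h2]
    refine h1.trans ?_
    have h3 : (2 * p⁻¹) ^ (T.disjSum (T.erase l0)).card ≤ (2 * p⁻¹) ^ (2 * Fintype.card ι) := by
      apply pow_le_pow_right₀ (by linarith)
      rw [card_disjSum]
      have := card_erase_le (s := T) (a := l0)
      omega
    calc _ ≤ 2 * ε * Fintype.card V * (2 * p⁻¹) ^ (2 * Fintype.card ι) := by gcongr
      _ = _ := by ring

end Pool.Agent.Lib.MP_7836d5_lc.Avg
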